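import Pool.Agent.Lib.MP_b27257_nt.Blocks

/-!
Periodic pieces of the word.
-/

namespace Pool.Agent.Lib.MP_b27257_nt

open Filter Topology Pool.Agent.Lib.MP_d0d59f_nt.Auto

variable {p q D : ℕ} {w y : ℕ → ℤ}

theorem affine_par {i N r : ℕ} (h : ∀ t < N, w (i + t) = w (i + t + r)) (j k : ℕ)
    (hk : k < r) (hj : j * r ≤ N) : w (i + j * r + k) = w (i + k) := by
  induction j with
  | zero => simp
  | succ j ih =>
    have h1 : (j + 1) * r = j * r + r := by ring
    rw [h1] at hj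
    rw [← ih (by omega)]
    have h2 := h (j * r + k) (by omega)
    have e1 : i + (j + 1) * r + k = i + (j * r + k) + r := by rw [h1]; omega
    have e2 : i + j * r + k = i + (j * r + k) := by omega
    rw [e1, e2, h2]

theorem affine_block (ho : Orb p q D w y) {i j : ℕ} {L : ℕ}
    (h : ∀ k < L, w (i + k) = w (j + k)) :
    (y j : ℚ) = gval p q w i L + (q : ℚ) ^ L / p ^ L * (y (j + L) : ℤ) := by
  rw [gval_congr L h, ho.gval_eq]
  ring

theorem affine_t_ne (ho : Orb p q D w y) {r : ℕ} (hr : 0 < r) : (1 : ℚ) - (q : ℚ) ^ r / p ^ r ≠ 0 := by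
  have hp : (0 : ℚ) < p := by exact_mod_cast ho.p_pos
  have hlt : (q : ℚ) ^ r < p ^ r :=
    pow_lt_pow_left₀ (by exact_mod_cast ho.lt) (Nat.cast_nonneg _) (by omega)
  have h1 : (q : ℚ) ^ r / p ^ r < 1 := (div_lt_one (by positivity)).mpr hlt
  linarith

/-- Periodic pieces: `y i = α + (q/p)^N (β + y (i + N))` with `α`, `β` of height at most `B ^ r`, `r` the
period. -/
theorem affine_periodic (ho : Orb p q D w y) : ∃ B : ℝ, 1 ≤ B ∧ ∀ (i : ℕ) (N r : ℕ), 0 < r →
    (∀ t < N, w (i + t) = w (i + t + r)) →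
    ∃ α β : ℚ, (ht α : ℝ) ≤ B ^ r ∧ (ht β : ℝ) ≤ B ^ r ∧
      (y i : ℚ) = α + (q : ℚ) ^ N / p ^ N * (β + (y (i + N) : ℤ)) := by
  have hp0 : (0 : ℝ) < p := by exact_mod_cast ho.p_pos
  have hp1 : (1 : ℝ) ≤ p := by exact_mod_cast ho.p_pos
  set E : ℝ := (D : ℝ) + 1 with hE
  have hE1 : 1 ≤ E := by
    have : (0 : ℝ) ≤ D := Nat.cast_nonneg _
    linarith
  have hp4 : (1 : ℝ) ≤ (p : ℝ) ^ 4 := one_le_pow₀ hp1
  have hE2 : (1 : ℝ) ≤ E ^ 2 := one_le_pow₀ hE1
  have hB1 : (1 : ℝ) ≤ 4 * E ^ 2 * (p : ℝ) ^ 4 := by nlinarith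
  refine ⟨4 * E ^ 2 * (p : ℝ) ^ 4, hB1, ?_⟩
  intro i N r hr h
  -- data
  set g := gval p q w i r with hg
  set t : ℚ := (q : ℚ) ^ r / p ^ r with ht1
  have htne : 1 - t ≠ 0 := affine_t_ne ho hr
  set c := g * (1 - t)⁻¹ with hc
  have hcfix : g = c - t * c := by
    rw [hc]
    field_simp
  set M := N / r with hM
  set s := N % r with hs
  have hN : N = M * r + s := by
    rw [hM, hs, mul_comm]
    exact (Nat.div_add_mod N r).symm
  have hsr : s < r := Nat.mod_lt _ hr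
  have hMN : M * r ≤ N := by omega
  -- the chain
  have hchain : ∀ j : ℕ, j * r ≤ N → (y i : ℚ) - c = t ^ j * ((y (i + j * r) : ℤ) - c) := by
    intro j
    induction j with
    | zero => intro _; simp
    | succ j ih =>
      intro hj
      have h1 : (j + 1) * r = j * r + r := by ring
      rw [h1] at hj
      have h2 := affine_block ho (i := i) (j := i + j * r) (L := r)
        fun k hk => (affine_par h j k hk (by omega)).symm
      rw [ih (by omega), h1, pow_succ]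
      rw [← hg, ← ht1, hcfix] at h2
      rw [h2, ← add_assoc]
      ring
  have h3 := affine_block ho (i := i) (j := i + M * r) (L := s)
    fun k hk => (affine_par h M k (by omega) hMN).symm
  rw [add_assoc, ← hN] at h3
  set gq := gval p q w i s with hgq
  set tq : ℚ := (q : ℚ) ^ s / p ^ s with htq
  have hpQ : (0 : ℚ) < p := by exact_mod_cast ho.p_pos
  have hqQ : (0 : ℚ) < q := by exact_mod_cast ho.q_pos
  have htq0 : tq ≠ 0 := by rw [htq]; positivity
  have hones : (q : ℚ) ^ N / p ^ N = t ^ M * tq := by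
    rw [ht1, htq, hN, pow_add, pow_add, div_pow, div_mul_div_comm, ← pow_mul, ← pow_mul, mul_comm r M]
  have hcht : (ht c : ℝ) ≤ 2 * E * (p ^ 2) ^ r := by
    have h8 : (ht c : ℝ) ≤ ht g * ht (1 - t)⁻¹ := by exact_mod_cast ht_mul_le _ _
    have h9 : (ht (1 - t)⁻¹ : ℝ) ≤ ht (1 - t) := by exact_mod_cast ht_inv_le _
    have h10 : (ht (1 + -t) : ℝ) ≤ 2 * (ht (1 : ℚ) * ht (-t)) := by
      exact_mod_cast ht_add_le 1 (-t)
    rw [← sub_eq_add_neg, ht_neg, ah_one] at h10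
    have h11 := ho.ht_pow r
    have h12 := ho.ht_gval_le i r
    rw [← ht1] at h11
    rw [← hg, ← hE] at h12
    have h13 : (ht (1 - t)⁻¹ : ℝ) ≤ 2 * p ^ r := by
      push_cast at h10
      linarith
    refine h8.trans ((mul_le_mul h12 h13 (Nat.cast_nonneg _) (by positivity)).trans ?_)
    have h14 : ((p : ℝ) ^ 2) ^ r = p ^ r * p ^ r := by rw [← mul_pow]; congr 1; ring
    rw [h14]
    exact le_of_eq (by ring)
  have hE0 : 0 < E := by linarith
  have hcB : (ht c : ℝ) ≤ (4 * E ^ 2 * (p : ℝ) ^ 4) ^ r := by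
    refine hcht.trans ?_
    have h15 : (4 * E ^ 2 * (p : ℝ) ^ 4) ^ r = (4 * E ^ 2 * (p : ℝ) ^ 2) ^ r * ((p : ℝ) ^ 2) ^ r := by
      rw [← mul_pow]; congr 1; ring
    rw [h15]
    refine mul_le_mul_of_nonneg_right ?_ (by positivity)
    have hp2 : (1 : ℝ) ≤ (p : ℝ) ^ 2 := one_le_pow₀ hp1
    refine le_trans ?_ (le_self_pow₀ (by nlinarith) (by omega))
    nlinarith
  refine ⟨c, (gq - c) * tq⁻¹, hcB, ?_, ?_⟩
  · have h8 : (ht (gq - c) : ℝ) ≤ 2 * ((E * p ^ r) * (2 * E * (p ^ 2) ^ r)) := by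
      have h9 : (ht (gq + -c) : ℝ) ≤ 2 * (ht gq * ht (-c)) := by exact_mod_cast ht_add_le gq (-c)
      rw [← sub_eq_add_neg, ht_neg] at h9
      refine h9.trans ?_
      have h10 : (ht gq : ℝ) ≤ E * p ^ r := by
        refine (ho.ht_gval_le i s).trans ?_
        have : (p : ℝ) ^ s ≤ p ^ r := pow_le_pow_right₀ hp1 hsr.le
        exact mul_le_mul_of_nonneg_left this (by linarith)
      exact mul_le_mul_of_nonneg_left
        (mul_le_mul h10 hcht (Nat.cast_nonneg _) (by positivity)) (by norm_num)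
    have h11 : (ht tq⁻¹ : ℝ) ≤ p ^ r := by
      have h12 : (ht tq⁻¹ : ℝ) ≤ ht tq := by exact_mod_cast ht_inv_le tq
      refine h12.trans ((ho.ht_pow s).trans ?_)
      exact pow_le_pow_right₀ hp1 hsr.le
    have h13 : (ht ((gq - c) * tq⁻¹) : ℝ) ≤ ht (gq - c) * ht tq⁻¹ := by
      exact_mod_cast ht_mul_le _ _
    refine h13.trans ((mul_le_mul h8 h11 (Nat.cast_nonneg _) (by positivity)).trans ?_)
    have h14 : 2 * ((E * (p : ℝ) ^ r) * (2 * E * (p ^ 2) ^ r)) * p ^ r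
        = (4 * E ^ 2) * ((p : ℝ) ^ 4) ^ r := by
      have : ((p : ℝ) ^ 4) ^ r = p ^ r * (p ^ 2) ^ r * p ^ r := by
        rw [← mul_pow, ← mul_pow]; congr 1; ring
      rw [this]; ring
    have h15 : (4 * E ^ 2 * (p : ℝ) ^ 4) ^ r = (4 * E ^ 2) ^ r * ((p : ℝ) ^ 4) ^ r := by
      rw [← mul_pow]
    rw [h14, h15]
    refine mul_le_mul_of_nonneg_right ?_ (by positivity)
    exact le_self_pow₀ (by nlinarith) (by omega)
  · have h6 := hchain M hMN
    rw [h3] at h6
    rw [hones]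
    have h7 : (y i : ℚ) = c + t ^ M * (gq + tq * (y (i + N) : ℤ) - c) := by linarith
    rw [h7]
    field_simp
    ring

end Pool.Agent.Lib.MP_b27257_nt
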