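import Pool.Agent.Lib.MP_b27257_nt.Defs
import Pool.Agent.Lib.MP_d0d59f_nt.AutoHt

/-!
The affine map of a block of the word.
-/

namespace Pool.Agent.Lib.MP_b27257_nt

open Filter Topology Pool.Agent.Lib.MP_d0d59f_nt.Auto

/-- the translation part of the affine map of the block of length `n` at position `i` -/
def shift (p q : ℕ) (w : ℕ → ℤ) (i : ℕ) : ℕ → ℤ
  | 0 => 0
  | n + 1 => p * shift p q w i n + q ^ n * w (i + n)

/-- the constant of a block -/
noncomputable def gval (p q : ℕ) (w : ℕ → ℤ) (i L : ℕ) : ℚ :=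
  (-shift p q w i L : ℤ) / (((p : ℤ) ^ L : ℤ) : ℚ)

variable {p q D : ℕ} {w y : ℕ → ℤ}

theorem shift_congr {i j : ℕ} (n : ℕ) (h : ∀ k < n, w (i + k) = w (j + k)) :
    shift p q w i n = shift p q w j n := by
  induction n with
  | zero => rfl
  | succ n ih => rw [shift, shift, ih fun k hk => h k (by omega), h n (by omega)]

theorem gval_congr {i j : ℕ} (n : ℕ) (h : ∀ k < n, w (i + k) = w (j + k)) :
    gval p q w i n = gval p q w j n := by
  unfold gval
  rw [shift_congr n h]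

theorem Orb.shift_eq (h : Orb p q D w y) (i n : ℕ) :
    (q : ℤ) ^ n * y (i + n) = p ^ n * y i + shift p q w i n := by
  induction n with
  | zero => simp [shift]
  | succ n ih =>
    have h1 := h.step (i + n)
    rw [← add_assoc, shift, pow_succ, mul_assoc, h1]
    linear_combination (p : ℤ) * ih

theorem Orb.gval_eq (h : Orb p q D w y) (i L : ℕ) :
    gval p q w i L = y i - (q : ℚ) ^ L / p ^ L * (y (i + L) : ℤ) := by
  have h1 := h.shift_eq i L
  have h1' : (q : ℚ) ^ L * y (i + L) = p ^ L * y i + shift p q w i L := by exact_mod_cast h1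
  have h3 : (p : ℚ) ^ L ≠ 0 := by
    have : (p : ℚ) ≠ 0 := by exact_mod_cast h.p_pos.ne'
    positivity
  unfold gval
  push_cast
  field_simp
  linarith

theorem Orb.abs_shift_le (h : Orb p q D w y) (i n : ℕ) :
    |shift p q w i n| ≤ D * (p ^ n - q ^ n) := by
  have hq : (q : ℤ) + 1 ≤ p := by exact_mod_cast h.lt
  have hq0 : (0 : ℤ) < q := by exact_mod_cast h.q_pos
  induction n with
  | zero => simp [shift]
  | succ n ih =>
    rw [shift]
    have h2 := h.w_le (i + n)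
    have hD : (0 : ℤ) ≤ D := Nat.cast_nonneg _
    have hqn : (0 : ℤ) < q ^ n := pow_pos hq0 n
    calc |(p : ℤ) * shift p q w i n + q ^ n * w (i + n)|
        ≤ |(p : ℤ) * shift p q w i n| + |(q : ℤ) ^ n * w (i + n)| := abs_add_le _ _
      _ = p * |shift p q w i n| + q ^ n * |w (i + n)| := by
          rw [abs_mul, abs_mul, abs_of_pos (by omega : (0 : ℤ) < p), abs_of_pos hqn]
      _ ≤ p * (D * (p ^ n - q ^ n)) + q ^ n * D :=
          add_le_add (mul_le_mul_of_nonneg_left ih (by omega)) (mul_le_mul_of_nonneg_left h2 hqn.le)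
      _ ≤ D * (p ^ (n + 1) - q ^ (n + 1)) := by
          rw [pow_succ, pow_succ]
          nlinarith [mul_nonneg hD hqn.le]

theorem Orb.ht_gval_le (h : Orb p q D w y) (i L : ℕ) :
    (ht (gval p q w i L) : ℝ) ≤ (D + 1) * p ^ L := by
  have hp0 : (0 : ℤ) < (p : ℤ) ^ L := pow_pos (by exact_mod_cast h.p_pos) L
  have h1 := ht_div_le (-shift p q w i L) ((p : ℤ) ^ L) hp0.ne'
  have h2 := h.abs_shift_le i L
  have hD : (0 : ℤ) ≤ D := Nat.cast_nonneg _
  have hq : (0 : ℤ) ≤ (q : ℤ) ^ L := by positivity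
  have h4 : ((-shift p q w i L).natAbs : ℤ) ≤ (D + 1) * p ^ L := by
    rw [Int.natAbs_neg, Int.natCast_natAbs]
    nlinarith
  have h5 : (((p : ℤ) ^ L).natAbs : ℤ) ≤ (D + 1) * p ^ L := by
    rw [Int.natCast_natAbs, abs_of_pos hp0]
    nlinarith
  have h6 : ((ht (gval p q w i L) : ℕ) : ℤ) ≤ (D + 1) * p ^ L := by
    refine le_trans (Int.ofNat_le.mpr h1) ?_
    rw [Nat.cast_max]
    exact max_le h4 h5
  exact_mod_cast h6

/-- height of `q ^ L / p ^ L` -/
theorem Orb.ht_pow (h : Orb p q D w y) (L : ℕ) : (ht ((q : ℚ) ^ L / p ^ L) : ℝ) ≤ p ^ L := by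
  have hp0 : (0 : ℤ) < (p : ℤ) ^ L := pow_pos (by exact_mod_cast h.p_pos) L
  have h1 := ht_div_le ((q : ℤ) ^ L) ((p : ℤ) ^ L) hp0.ne'
  push_cast at h1
  have h2 : ((q : ℤ) ^ L).natAbs ≤ p ^ L := by
    rw [Int.natAbs_pow, Int.natAbs_natCast]
    exact Nat.pow_le_pow_left h.lt.le L
  have h3 : ((p : ℤ) ^ L).natAbs ≤ p ^ L := by
    rw [Int.natAbs_pow, Int.natAbs_natCast]
  have h4 : ht ((q : ℚ) ^ L / p ^ L) ≤ p ^ L := h1.trans (max_le h2 h3)
  exact_mod_cast h4

end Pool.Agent.Lib.MP_b27257_nt
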