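import Pool.Agent.Lib.MP_b27257_nt.BranchA

/-!
Row W1b: good lengths.
-/

namespace Pool.Agent.Lib.MP_b27257_nt

open Filter Topology

/-- telescoping the inequality `card_branch` -/
theorem branchB_sum {D : ℕ} {w : ℕ → ℤ} (hw : ∀ n, |w n| ≤ D) (m : ℕ) : ∀ N, m ≤ N →
    (∑ n ∈ Finset.Ico m N, (branchSet w n).ncard) + complexity w m ≤ complexity w N := by
  intro N hN
  induction N, hN using Nat.le_induction with
  | base => simp
  | succ N hN ih =>
    rw [Finset.sum_Ico_succ_top hN]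
    have := card_branch hw N
    omega

/-- the complexity is monotone -/
theorem branchB_mono {D : ℕ} {w : ℕ → ℤ} (hw : ∀ n, |w n| ≤ D) {m N : ℕ} (h : m ≤ N) : complexity w m ≤ complexity w N := by
  have := branchB_sum hw m N h
  omega

/-- Let `complexity N ≤ C N`, `N ≥ 2`. The differences `complexity (n+1) - complexity n`,
`N/2 ≤ n < N`, have sum at most `C N`, so one of them is at most `2 C`, and
`complexity n ≤ complexity N ≤ C N ≤ C (2 n + 1) ≤ 3 C n` (`complexity` is monotone by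
`card_branch`). Take `R = 3 C` (or larger). -/
theorem exists_good_lengths {D : ℕ} {w : ℕ → ℤ} (hw : ∀ n, |w n| ≤ D) {C : ℕ} (h : ∃ᶠ n in atTop, complexity w n ≤ C * n) :
    ∃ R : ℕ, ∃ᶠ n in atTop, (branchSet w n).ncard ≤ R ∧ complexity w n ≤ R * n := by
  refine ⟨3 * C, ?_⟩
  rw [Filter.frequently_atTop] at h ⊢
  intro M
  obtain ⟨N, hN, hc⟩ := h (2 * M + 2)
  have hm : N / 2 ≤ N := Nat.div_le_self N 2
  have hsum := branchB_sum hw (N / 2) N hm
  have hex : ∃ n ∈ Finset.Ico (N / 2) N, (branchSet w n).ncard ≤ 2 * C := by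
    by_contra hno
    push Not at hno
    have h1 : ∑ n ∈ Finset.Ico (N / 2) N, (2 * C + 1) ≤
        ∑ n ∈ Finset.Ico (N / 2) N, (branchSet w n).ncard :=
      Finset.sum_le_sum fun n hn => hno n hn
    rw [Finset.sum_const, Nat.card_Ico, smul_eq_mul] at h1
    have h2 : N ≤ 2 * (N - N / 2) := by omega
    have h3 : 0 < N - N / 2 := by omega
    have h4 : C * N ≤ C * (2 * (N - N / 2)) := Nat.mul_le_mul_left C h2
    have h5 : (N - N / 2) * (2 * C + 1) = C * (2 * (N - N / 2)) + (N - N / 2) := by ring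
    omega
  obtain ⟨n, hn, hb⟩ := hex
  rw [Finset.mem_Ico] at hn
  have hMn : M ≤ n := by omega
  refine ⟨n, hMn, by omega, ?_⟩
  have h1 : complexity w n ≤ complexity w N := branchB_mono hw hn.2.le
  have h2 : N ≤ 3 * n := by omega
  have h3 : C * N ≤ C * (3 * n) := Nat.mul_le_mul_left C h2
  calc complexity w n ≤ C * N := h1.trans hc
    _ ≤ C * (3 * n) := h3
    _ = 3 * C * n := by ring

end Pool.Agent.Lib.MP_b27257_nt
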