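import Pool.Agent.Lib.MP_b27257_nt.Final

/-!
Unbounded integer sequences `y` with `q y (n+1) - p y n` bounded, and the iteration of
`x ↦ ⌈p x / q⌉`.
-/

namespace Pool.Agent.Lib.MP_b27257_nt

open Filter Topology

/-- `T(x) = ⌈p x / q⌉`. -/
def T (p q x : ℕ) : ℕ := (p * x + q - 1) / q

/-- The number of different blocks of length `n` in the word `w`. -/
noncomputable def blocks {α : Type*} (w : ℕ → α) (n : ℕ) : ℕ :=
  (Set.range fun i : ℕ => fun k : Fin n => w (i + k)).ncard

/-- a tail of an unbounded sequence with bounded `q y (n+1) - p y n` -/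
theorem orb_tail {p q D : ℕ} (hcop : Nat.Coprime p q) (hqp : q < p) (hq : 1 < q) (y : ℕ → ℤ)
    (hb : ∀ n, |(q : ℤ) * y (n + 1) - p * y n| ≤ D) (N : ℕ)
    (hN : (D : ℤ) < ((p : ℤ) - q) * |y N|) :
    Orb p q D (fun n => (q : ℤ) * y (N + n + 1) - p * y (N + n)) (fun n => y (N + n)) := by
  have hq0 : (0 : ℤ) < q := by omega
  have hp0 : (0 : ℤ) < p := by omega
  have hpq : (0 : ℤ) < (p : ℤ) - q := by omega
  have hstep : ∀ n, (p : ℤ) * |y n| - D ≤ q * |y (n + 1)| := by
    intro n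
    have h1 := hb n
    have h2 : |(p : ℤ) * y n| ≤ |(q : ℤ) * y (n + 1)| + |(q : ℤ) * y (n + 1) - p * y n| := by
      have : (p : ℤ) * y n = q * y (n + 1) - (q * y (n + 1) - p * y n) := by ring
      calc |(p : ℤ) * y n| = |(q : ℤ) * y (n + 1) - (q * y (n + 1) - p * y n)| := by rw [← this]
        _ ≤ _ := abs_sub _ _
    rw [abs_mul, abs_mul, abs_of_pos hp0, abs_of_pos hq0] at h2
    linarith
  have hgt : ∀ n, (D : ℤ) < ((p : ℤ) - q) * |y (N + n)| := by
    intro n
    induction n with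
    | zero => exact hN
    | succ n ih =>
      have h1 := hstep (N + n)
      have h2 : (q : ℤ) * |y (N + n)| < q * |y (N + n + 1)| := by nlinarith
      have h3 : |y (N + n)| < |y (N + n + 1)| := lt_of_mul_lt_mul_left h2 hq0.le
      have h4 : ((p : ℤ) - q) * |y (N + n)| < ((p : ℤ) - q) * |y (N + n + 1)| :=
        mul_lt_mul_of_pos_left h3 hpq
      have : N + (n + 1) = N + n + 1 := by ring
      rw [this]
      linarith
  have hmono : StrictMono fun n => |y (N + n)| := by
    refine strictMono_nat_of_lt_succ fun n => ?_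
    have h1 := hstep (N + n)
    have h2 := hgt n
    have h3 : (q : ℤ) * |y (N + n)| < q * |y (N + n + 1)| := by nlinarith
    exact lt_of_mul_lt_mul_left h3 hq0.le
  refine ⟨hq, hqp, hcop.symm, fun n => ?_, fun n => hb (N + n), ?_, ?_⟩
  · have : N + (n + 1) = N + n + 1 := by ring
    simp only [this]
    ring
  · intro a b hab
    exact hmono.injective (by simpa using congrArg abs hab)
  · have hpqR : (0 : ℝ) < (p : ℝ) - q := by exact_mod_cast hpq
    have hqR : (0 : ℝ) < q := by exact_mod_cast hq0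
    have hpR : (0 : ℝ) < p := by exact_mod_cast hp0
    set e : ℝ := (D : ℝ) / ((p : ℝ) - q) with he
    have he0 : 0 ≤ e := by positivity
    have heq : e * ((p : ℝ) - q) = D := div_mul_cancel₀ _ hpqR.ne'
    have h0 : 0 < |(y N : ℝ)| - e := by
      have h1 : (D : ℝ) < ((p : ℝ) - q) * |(y N : ℝ)| := by exact_mod_cast hN
      rw [sub_pos, he, div_lt_iff₀ hpqR]
      linarith
    refine ⟨|(y N : ℝ)| - e, h0, fun n => ?_⟩
    have key : ∀ n : ℕ, (p : ℝ) ^ n * (|(y N : ℝ)| - e) ≤ (q : ℝ) ^ n * (|(y (N + n) : ℝ)| - e) := by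
      intro n
      induction n with
      | zero => simp
      | succ n ih =>
        have h1 : (p : ℝ) * |(y (N + n) : ℝ)| - D ≤ q * |(y (N + n + 1) : ℝ)| := by
          exact_mod_cast hstep (N + n)
        have h2 : (p : ℝ) * (|(y (N + n) : ℝ)| - e) ≤ q * (|(y (N + n + 1) : ℝ)| - e) := by
          have : (p : ℝ) * e - q * e = D := by rw [← heq]; ring
          linarith
        have : N + (n + 1) = N + n + 1 := by ring
        rw [this]
        calc (p : ℝ) ^ (n + 1) * (|(y N : ℝ)| - e)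
            = p * (p ^ n * (|(y N : ℝ)| - e)) := by ring
          _ ≤ p * (q ^ n * (|(y (N + n) : ℝ)| - e)) := mul_le_mul_of_nonneg_left ih hpR.le
          _ = q ^ n * (p * (|(y (N + n) : ℝ)| - e)) := by ring
          _ ≤ q ^ n * (q * (|(y (N + n + 1) : ℝ)| - e)) :=
              mul_le_mul_of_nonneg_left h2 (by positivity)
          _ = q ^ (n + 1) * (|(y (N + n + 1) : ℝ)| - e) := by ring
    have h1 := key n
    have h2 : (q : ℝ) ^ n * (|(y (N + n) : ℝ)| - e) ≤ q ^ n * |(y (N + n) : ℝ)| :=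
      mul_le_mul_of_nonneg_left (by linarith) (by positivity)
    have h3 : |(q : ℝ) ^ n / p ^ n * (y (N + n) : ℝ)| = q ^ n * |(y (N + n) : ℝ)| / p ^ n := by
      rw [abs_mul, abs_of_pos (by positivity : (0 : ℝ) < (q : ℝ) ^ n / p ^ n)]
      ring
    rw [h3, le_div_iff₀ (by positivity)]
    linarith

theorem blocks_finite {α : Type*} {w : ℕ → α} {s : Set α} (hs : s.Finite) (hw : ∀ n, w n ∈ s)
    (n : ℕ) : (Set.range fun i : ℕ => fun k : Fin n => w (i + k)).Finite := by
  apply (Set.Finite.pi' (fun _ : Fin n => hs)).subset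
  rintro _ ⟨i, rfl⟩
  intro k
  exact hw _

theorem blocks_superlinear {p q : ℕ} (hcop : Nat.Coprime p q) (hqp : q < p) (hq : 1 < q)
    (y : ℕ → ℤ) (hb : ∃ D : ℤ, ∀ n, |(q : ℤ) * y (n + 1) - p * y n| ≤ D)
    (hu : ∀ B : ℤ, ∃ n, B < |y n|) (C : ℕ) :
    ∀ᶠ n in atTop, C * n < blocks (fun i => (q : ℤ) * y (i + 1) - p * y i) n := by
  obtain ⟨D, hD⟩ := hb
  have hD0 : 0 ≤ D := (abs_nonneg _).trans (hD 0)
  obtain ⟨E, rfl⟩ := Int.eq_ofNat_of_zero_le hD0
  obtain ⟨N, hN⟩ := hu E
  have hpq : (1 : ℤ) ≤ (p : ℤ) - q := by omega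
  have hN' : (E : ℤ) < ((p : ℤ) - q) * |y N| := by
    have h1 : (0 : ℤ) ≤ |y N| := abs_nonneg _
    nlinarith
  have ho := orb_tail hcop hqp hq y hD N hN'
  filter_upwards [ho.superlinear C] with n hn
  refine hn.trans_le ?_
  unfold complexity blocks
  refine Set.ncard_le_ncard ?_ ?_
  · rintro _ ⟨i, rfl⟩
    refine ⟨N + i, ?_⟩
    funext k
    simp only [factor]
    rw [add_assoc N i k]
  · exact blocks_finite (w := fun i => (q : ℤ) * y (i + 1) - p * y i)
      (s := Set.Icc (-(E : ℤ)) E) (Set.finite_Icc _ _) (fun n => abs_le.mp (hD n)) n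

theorem T_spec {p q : ℕ} (hq : 0 < q) (x : ℕ) :
    (q : ℤ) * (T p q x : ℕ) - p * (x : ℕ) = (-(p : ℤ) * x) % q := by
  have hq' : (0 : ℤ) < q := by exact_mod_cast hq
  have h1 : q * T p q x + (p * x + q - 1) % q = p * x + q - 1 := Nat.div_add_mod _ _
  have h2 : (p * x + q - 1) % q < q := Nat.mod_lt _ hq
  have h3 : p * x ≤ q * T p q x := by omega
  have h4 : q * T p q x < p * x + q := by omega
  symm
  have h5 : (-(p : ℤ) * x) = ((q : ℤ) * (T p q x : ℕ) - p * x) + q * (-(T p q x : ℤ)) := by ring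
  rw [h5, Int.add_mul_emod_self_left]
  refine Int.emod_eq_of_lt ?_ ?_
  · have : (p : ℤ) * x ≤ q * T p q x := by exact_mod_cast h3
    linarith
  · have : (q : ℤ) * T p q x < p * x + q := by exact_mod_cast h4
    linarith

theorem T_lt {p q : ℕ} (hqp : q < p) (hq : 0 < q) {x : ℕ} (hx : 0 < x) : x < T p q x := by
  have h1 : q * T p q x + (p * x + q - 1) % q = p * x + q - 1 := Nat.div_add_mod _ _
  have h2 : (p * x + q - 1) % q < q := Nat.mod_lt _ hq
  have h3 : p * x ≤ q * T p q x := by omega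
  have h4 : q * x < p * x := Nat.mul_lt_mul_of_pos_right hqp hx
  exact lt_of_mul_lt_mul_left (h4.trans_le h3) (Nat.zero_le q)

theorem iterate_pos {p q : ℕ} (hqp : q < p) (hq : 0 < q) {x : ℕ} (hx : 0 < x) (n : ℕ) :
    x + n ≤ (T p q)^[n] x := by
  induction n with
  | zero => simp
  | succ n ih =>
    rw [Function.iterate_succ_apply']
    have := T_lt hqp hq (x := (T p q)^[n] x) (by omega)
    omega

theorem residues_superlinear {p q : ℕ} (hcop : Nat.Coprime p q) (hqp : q < p) (hq : 1 < q)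
    {x : ℕ} (hx : 0 < x) (C : ℕ) :
    ∀ᶠ n in atTop, C * n < blocks (fun i => (T p q)^[i] x % q) n := by
  have hq0 : 0 < q := by omega
  have hq' : (0 : ℤ) < q := by exact_mod_cast hq0
  set y : ℕ → ℤ := fun n => (((T p q)^[n] x : ℕ) : ℤ) with hy
  have hsp : ∀ n, (q : ℤ) * y (n + 1) - p * y n = (-(p : ℤ) * y n) % q := by
    intro n
    simp only [hy, Function.iterate_succ_apply']
    exact T_spec hq0 _
  have hb : ∃ D : ℤ, ∀ n, |(q : ℤ) * y (n + 1) - p * y n| ≤ D := by
    refine ⟨q, fun n => ?_⟩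
    rw [hsp, abs_of_nonneg (Int.emod_nonneg _ hq'.ne')]
    exact (Int.emod_lt_of_pos _ hq').le
  have hu : ∀ B : ℤ, ∃ n, B < |y n| := by
    intro B
    refine ⟨B.toNat + 1, ?_⟩
    have h1 := iterate_pos hqp hq0 hx (B.toNat + 1)
    simp only [hy]
    rw [abs_of_nonneg (by positivity)]
    have h2 : ((x + (B.toNat + 1) : ℕ) : ℤ) ≤ ((T p q)^[B.toNat + 1] x : ℕ) := by exact_mod_cast h1
    have h3 := Int.self_le_toNat B
    push_cast at h2
    omega
  filter_upwards [blocks_superlinear hcop hqp hq y hb hu C] with n hn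
  refine hn.trans_le ?_
  have hfin : (Set.range fun i : ℕ => fun k : Fin n => (T p q)^[i + k] x % q).Finite :=
    blocks_finite (w := fun i => (T p q)^[i] x % q) (s := Set.Iio q) (Set.finite_Iio q)
      (fun n => Nat.mod_lt _ hq0) n
  unfold blocks
  refine le_trans (Set.ncard_le_ncard ?_ (hfin.image fun v : Fin n → ℕ => fun k =>
    (-(p : ℤ) * (v k : ℕ)) % q)) (Set.ncard_image_le hfin)
  rintro _ ⟨i, rfl⟩
  refine ⟨_, ⟨i, rfl⟩, ?_⟩
  funext k
  simp only
  rw [hsp]
  simp only [hy]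
  push_cast
  rw [Int.mul_emod, Int.emod_emod_of_dvd _ dvd_rfl, ← Int.mul_emod]

/-- The theorem for a word `w` with finitely many letters and an unbounded sequence `y`. -/
theorem word_superlinear {p q : ℕ} (hcop : Nat.Coprime p q) (hqp : q < p) (hq : 1 < q)
    (w y : ℕ → ℤ) (hw : (Set.range w).Finite) (hy : ∀ n, (q : ℤ) * y (n + 1) = p * y n + w n)
    (hu : (Set.range y).Infinite) (C : ℕ) :
    ∀ᶠ n : ℕ in atTop, C * n < (Set.range fun i : ℕ => fun k : Fin n => w (i + k)).ncard := by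
  have e : (fun n => (q : ℤ) * y (n + 1) - p * y n) = w := by
    funext n
    rw [hy n]
    ring
  have hb : ∃ D : ℤ, ∀ n, |(q : ℤ) * y (n + 1) - p * y n| ≤ D := by
    obtain ⟨D, hD⟩ := (hw.image abs).bddAbove
    refine ⟨D, fun n => ?_⟩
    have h1 : (q : ℤ) * y (n + 1) - p * y n = w n := congrFun e n
    rw [h1]
    exact hD ⟨w n, ⟨n, rfl⟩, rfl⟩
  have hub : ∀ B : ℤ, ∃ n, B < |y n| := by
    intro B
    by_contra hcon
    push Not at hcon
    refine hu ((Set.finite_Icc (-B) B).subset ?_)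
    rintro _ ⟨n, rfl⟩
    exact abs_le.mp (hcon n)
  have := blocks_superlinear hcop hqp hq y hb hub C
  rw [e] at this
  exact this

end Pool.Agent.Lib.MP_b27257_nt
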