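import Pool.Agent.Lib.MP_d0d59f_nt.LinCompl

/-!
The completion of the polynomials, embedded at a finite family of places.
-/

namespace Pool.Agent.Lib.MP_b27257_nt

open Module Filter Topology Pool.Agent.Lib.MP_d0d59f_nt.Lin

variable {κ 𝕂 : Type} [Field κ] [Field 𝕂] [Algebra κ 𝕂] {X : ℝ → 𝕂}
  {ι : Type} {v : ι → AbsoluteValue 𝕂 ℝ} {x : ι → ℝ}

/-- smallest exponent at all places -/
theorem famcompl_val [Nonempty ι] (h : ∀ i, MVal κ X (v i) (x i)) (hx : ∀ i, x i < 1)
    (c : ℝ →₀ κ) (hc : c ≠ 0) : ∃ s, c s ≠ 0 ∧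
      (∀ i, v i (Finsupp.linearCombination κ X c) = x i ^ s) ∧ ∀ t, c t ≠ 0 → s ≤ t := by
  obtain ⟨i₀⟩ := ‹Nonempty ι›
  obtain ⟨s, hs, -, -, hmin⟩ := compl_val (h i₀) (h i₀) (hx i₀) (hx i₀) c hc
  refine ⟨s, hs, fun i => ?_, hmin⟩
  obtain ⟨s', hs', hv, -, hmin'⟩ := compl_val (h i) (h i) (hx i) (hx i) c hc
  have e : s' = s := le_antisymm (hmin' s hs) (hmin s' hs')
  rw [hv, e]

/-- a polynomial is the sum of its lowest term and smaller terms; the inverse of the lowest term is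
a polynomial -/
theorem famcompl_lowest [Nonempty ι] (hX : Mono κ X) (h : ∀ i, MVal κ X (v i) (x i))
    (hx : ∀ i, x i < 1) {p : 𝕂} (hp : p ∈ polys κ X) (hp0 : p ≠ 0) :
    ∃ u : 𝕂, u ≠ 0 ∧ u⁻¹ ∈ polys κ X ∧ ∀ i, v i (p - u) < v i p := by
  obtain ⟨c, rfl⟩ := compl_exists_lc hp
  have hc : c ≠ 0 := by
    rintro rfl
    exact hp0 (map_zero _)
  obtain ⟨s, hs, e1, hmin⟩ := famcompl_val h hx c hc
  have hdec : Finsupp.linearCombination κ X c - c s • X s =
      Finsupp.linearCombination κ X (c.erase s) := by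
    rw [sub_eq_iff_eq_add]
    conv_lhs => rw [← Finsupp.erase_add_single s c]
    rw [map_add, Finsupp.linearCombination_single]
  refine ⟨c s • X s, smul_ne_zero hs (hX.ne s), ?_, fun i => ?_⟩
  · obtain ⟨d, -, hd⟩ := inv_X hX s
    have : (c s • X s)⁻¹ = ((c s)⁻¹ * d) • X (-s) := by
      rw [mul_smul, ← hd, Algebra.smul_def, Algebra.smul_def, mul_inv, map_inv₀]
    rw [this]
    exact (polys κ X).smul_mem _ (Submodule.subset_span ⟨_, rfl⟩)
  · rw [hdec]
    by_cases hc' : c.erase s = 0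
    · rw [hc', map_zero, map_zero, e1]
      exact Real.rpow_pos_of_pos (h i).pos _
    · obtain ⟨t, ht, e1', -⟩ := famcompl_val h hx _ hc'
      rw [e1, e1', compl_lt_iff (h i).pos (hx i)]
      have hts : t ≠ s := by
        rintro rfl
        exact ht Finsupp.erase_same
      rw [Finsupp.erase_ne hts] at ht
      exact lt_of_le_of_ne (hmin t ht) hts.symm

/-- The closure `L` of the image of the polynomials in `∏ Ω i` is a field. -/
theorem exists_famL [Fintype ι] [Nonempty ι] (hX : Mono κ X) (h : ∀ i, MVal κ X (v i) (x i))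
    (hx : ∀ i, x i < 1) {Ω : ι → Type} [∀ i, NormedField (Ω i)] [∀ i, CompleteSpace (Ω i)]
    [∀ i, IsUltrametricDist (Ω i)] (k : ∀ i, 𝕂 →+* Ω i) (hk : ∀ i z, ‖k i z‖ = v i z) :
    ∃ (L : Type) (_ : Field L) (e : ∀ i, L →+* Ω i),
      (∀ p ∈ polys κ X, ∃ a, ∀ i, e i a = k i p) ∧
      (∀ a, (fun i => e i a) ∈ closure ((fun z i => k i z) '' (polys κ X : Set 𝕂))) ∧
      (∀ (i₀ : ι) (p : ℕ → 𝕂), (∀ r, p r ∈ polys κ X) →
        Tendsto (fun r => v i₀ (p (r + 1) - p r)) atTop (𝓝 0) →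
        ∃ a : L, ∀ i, Tendsto (fun r => k i (p r)) atTop (𝓝 (e i a))) := by
  classical
  set φ : 𝕂 →+* (∀ i, Ω i) := Pi.ringHom k with hφ
  have hφa : ∀ z, φ z = fun i => k i z := fun z => rfl
  set S : Subring (∀ i, Ω i) := ((complRing hX).map φ).topologicalClosure with hS
  have hSset : (S : Set (∀ i, Ω i)) = closure (φ '' (polys κ X : Set 𝕂)) := rfl
  have hSclosed : IsClosed (S : Set (∀ i, Ω i)) := by rw [hSset]; exact isClosed_closure
  have hφS : ∀ p ∈ polys κ X, φ p ∈ S := fun p hp =>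
    show φ p ∈ (S : Set (∀ i, Ω i)) from hSset ▸ subset_closure ⟨p, hp, rfl⟩
  have hrel : ∀ z ∈ S, ∀ i j, ‖z j‖ = ‖z i‖ ^ (Real.log (x j) / Real.log (x i)) := by
    intro z hz i j
    have hc := compl_exp_pos (h i) (h j) (hx i) (hx j)
    have hcl : IsClosed {z : ∀ i, Ω i | ‖z j‖ = ‖z i‖ ^ (Real.log (x j) / Real.log (x i))} :=
      isClosed_eq ((continuous_apply j).norm)
        (((continuous_apply i).norm).rpow_const (fun _ => Or.inr hc.le))
    have hz' : z ∈ closure (φ '' (polys κ X : Set 𝕂)) := hSset ▸ hz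
    refine closure_minimal ?_ hcl hz'
    rintro _ ⟨p, hp, rfl⟩
    show ‖k j p‖ = ‖k i p‖ ^ _
    rw [hk, hk]
    exact val_eq_rpow (h i) (h j) (hx i) (hx j) hp
  have : CompleteSpace S := hSclosed.completeSpace_coe
  have hunit : ∀ z : S, z ≠ 0 → ∃ w : S, z * w = 1 := by
    rintro ⟨z, hz⟩ hne
    have hab := hrel _ hz
    have hne0 : ∀ i, z i ≠ 0 := by
      intro i hi
      apply hne
      have : z = 0 := by
        funext j
        have h1 := hab i j
        rw [hi, norm_zero, Real.zero_rpow (compl_exp_pos (h i) (h j) (hx i) (hx j)).ne',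
          norm_eq_zero] at h1
        exact h1
      exact Subtype.ext this
    have hpos : ∀ i, 0 < ‖z i‖ := fun i => norm_pos_iff.2 (hne0 i)
    have hz' : z ∈ closure (φ '' (polys κ X : Set 𝕂)) := hSset ▸ hz
    obtain ⟨m, hm, hmle⟩ : ∃ m : ℝ, 0 < m ∧ ∀ i, m ≤ ‖z i‖ := by
      obtain ⟨i, hi⟩ := Finite.exists_min fun i => ‖z i‖
      exact ⟨‖z i‖, hpos i, hi⟩
    obtain ⟨_, ⟨p, hp, rfl⟩, hdist⟩ := Metric.mem_closure_iff.1 hz' m hm
    have hd : ∀ i, ‖z i - k i p‖ < ‖z i‖ := by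
      intro i
      rw [← dist_eq_norm]
      exact lt_of_lt_of_le (lt_of_le_of_lt (dist_le_pi_dist z (φ p) i) hdist) (hmle i)
    have hp0 : p ≠ 0 := by
      rintro rfl
      obtain ⟨i⟩ := ‹Nonempty ι›
      have := hd i
      rw [map_zero, sub_zero] at this
      exact lt_irrefl _ this
    obtain ⟨u, hu0, hu, hu1⟩ := famcompl_lowest hX h hx hp hp0
    have hu1' : ∀ i, ‖k i p - k i u‖ < ‖k i p‖ := fun i => by
      rw [← map_sub, hk, hk]; exact hu1 i
    have hr1 : ∀ i, ‖1 - z i * (k i u)⁻¹‖ < 1 := fun i => compl_step (hd i) (hu1' i)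
    set w : S := ⟨φ u⁻¹, hφS _ hu⟩ with hw
    set z' : S := ⟨z, hz⟩ with hzdef
    have hr : ‖1 - z' * w‖ < 1 := by
      have e1 : ((1 - z' * w : S) : ∀ i, Ω i) = fun i => 1 - z i * (k i u)⁻¹ := by
        funext i
        have e2 : (w : ∀ i, Ω i) i = (k i u)⁻¹ := by
          show k i u⁻¹ = _
          rw [map_inv₀]
        rw [AddSubgroupClass.coe_sub, Subring.coe_mul, Pi.sub_apply, Pi.mul_apply, e2]
        rfl
      show ‖((1 - z' * w : S) : ∀ i, Ω i)‖ < 1
      rw [e1]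
      exact (pi_norm_lt_iff one_pos).mpr hr1
    have hU := (Units.oneSub (1 - z' * w) hr).mul_inv
    rw [Units.val_oneSub, sub_sub_cancel] at hU
    exact ⟨w * _, by rw [← mul_assoc]; exact hU⟩
  have hfield : IsField S :=
    { exists_pair_ne := ⟨0, 1, by
        intro h0
        obtain ⟨i⟩ := ‹Nonempty ι›
        have h' : ((0 : S) : ∀ i, Ω i) = ((1 : S) : ∀ i, Ω i) := by rw [h0]
        have h'' : (0 : Ω i) = 1 := congrFun h' i
        exact zero_ne_one h''⟩
      mul_comm := fun a b => mul_comm a b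
      mul_inv_cancel := fun {a} ha => hunit a ha }
  refine ⟨S, hfield.toField, fun i => (Pi.evalRingHom Ω i).comp S.subtype, ?_, ?_, ?_⟩
  · intro p hp
    exact ⟨⟨φ p, hφS p hp⟩, fun i => rfl⟩
  · rintro ⟨a, ha⟩
    exact hSset ▸ ha
  · intro i₀ p hp hlim
    have hcs : ∀ i, CauchySeq (fun r => k i (p r)) := by
      intro i
      have hc := compl_exp_pos (h i₀) (h i) (hx i₀) (hx i)
      have hlim2 : Tendsto (fun r => v i (p (r + 1) - p r)) atTop (𝓝 0) := by
        have e : (fun r => v i (p (r + 1) - p r)) =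
            fun r => v i₀ (p (r + 1) - p r) ^ (Real.log (x i) / Real.log (x i₀)) := by
          funext r
          exact val_eq_rpow (h i₀) (h i) (hx i₀) (hx i) ((polys κ X).sub_mem (hp _) (hp _))
        rw [e]
        have := (Real.continuousAt_rpow_const 0 _ (Or.inr hc.le)).tendsto.comp hlim
        rwa [Real.zero_rpow hc.ne'] at this
      apply NonarchimedeanAddGroup.cauchySeq_of_tendsto_sub_nhds_zero
      rw [tendsto_zero_iff_norm_tendsto_zero]
      refine hlim2.congr fun r => ?_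
      rw [← map_sub, hk]
    choose l hl using fun i => cauchySeq_tendsto_of_complete (hcs i)
    have hlφ : Tendsto (fun r => φ (p r)) atTop (𝓝 l) := tendsto_pi_nhds.mpr hl
    have hmem : l ∈ S := hSclosed.mem_of_tendsto hlφ (Eventually.of_forall fun r => hφS _ (hp r))
    exact ⟨⟨l, hmem⟩, hl⟩

end Pool.Agent.Lib.MP_b27257_nt
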