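import Pool.Agent.Lib.MP_b27257_nt.Walk
import Pool.Agent.Lib.MP_d0d59f_nt.LinDich

/-!
Row U2b: the data along a sequence of good levels.
-/

namespace Pool.Agent.Lib.MP_b27257_nt

open Filter Topology Pool.Agent.Lib.MP_d0d59f_nt.Auto Pool.Agent.Lib.MP_d0d59f_nt.Lin

/-- the data extracted from the levels `L m` -/
structure Data (p q : ℕ) (y : ℕ → ℤ) (L : ℕ → ℕ) {K : ℕ} (g : Fin K → ℕ → ℚ) (P : ℕ → ℕ → ℕ)
    (c : ℕ → Fin K → ℕ → ℚ) (α β : ℕ → ℕ → ℚ) (δ : ℝ) : Prop where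
  tend : Tendsto L atTop atTop
  pos : 0 < δ
  ht_g : ∀ a, ∃ C : ℝ, ∀ᶠ m in (hyperfilter ℕ : Filter ℕ), (ht (g a m) : ℝ) ≤ C ^ L m
  P_le : ∀ i, ∃ C : ℝ, ∀ᶠ m in (hyperfilter ℕ : Filter ℕ), (P i m : ℝ) ≤ C * L m
  P_mono : ∀ i, ∀ᶠ m in (hyperfilter ℕ : Filter ℕ), P i m ≤ P (i + 1) m
  P_gap : ∀ i, ∀ᶠ m in (hyperfilter ℕ : Filter ℕ), (P i m : ℝ) + δ * L m ≤ P (i + 2) m
  c_val : ∀ i a m, c i a m = 0 ∨ c i a m = 1
  ht_α : ∀ i, ∀ ε : ℝ, 0 < ε → ∀ᶠ m in (hyperfilter ℕ : Filter ℕ),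
    (ht (α i m) : ℝ) ≤ (1 + ε) ^ L m
  ht_β : ∀ i, ∀ ε : ℝ, 0 < ε → ∀ᶠ m in (hyperfilter ℕ : Filter ℕ),
    (ht (β i m) : ℝ) ≤ (1 + ε) ^ L m
  rec_eq : ∀ i, ∀ᶠ m in (hyperfilter ℕ : Filter ℕ), (y (P i m) : ℚ) =
    ∑ a, g a m * c i a m + α i m +
      (q : ℚ) ^ (P (i + 1) m - P i m) / p ^ (P (i + 1) m - P i m) *
        (β i m + (y (P (i + 1) m) : ℤ))


theorem data_pow {B : ℝ} (hB : 1 ≤ B) (R : ℕ) {L e : ℕ → ℕ} (hL : Tendsto L atTop atTop)
    (he : ∀ η : ℝ, 0 < η → ∀ᶠ m in (hyperfilter ℕ : Filter ℕ), (e m : ℝ) ≤ η * L m)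
    (ε : ℝ) (hε : 0 < ε) :
    ∀ᶠ m in (hyperfilter ℕ : Filter ℕ), B ^ (R * e m + 1) ≤ (1 + ε) ^ L m := by
  have hlB : 0 ≤ Real.log B := Real.log_nonneg hB
  have hB0 : 0 < B := lt_of_lt_of_le one_pos hB
  have hlε : 0 < Real.log (1 + ε) := Real.log_pos (by linarith)
  set η : ℝ := Real.log (1 + ε) / (2 * (R + 1) * (Real.log B + 1)) with hη
  have hη0 : 0 < η := by positivity
  have hlarge : ∀ᶠ m in (hyperfilter ℕ : Filter ℕ),
      2 * Real.log B / Real.log (1 + ε) ≤ (L m : ℝ) := by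
    have h1 : Tendsto (fun m => (L m : ℝ)) atTop atTop :=
      tendsto_natCast_atTop_atTop.comp hL
    exact Nat.hyperfilter_le_atTop (h1.eventually_ge_atTop _)
  filter_upwards [he η hη0, hlarge] with m h1 h2
  have h3 : Real.log B ≤ L m * Real.log (1 + ε) / 2 := by
    rw [div_le_iff₀ hlε] at h2
    linarith
  have h4 : (R * e m : ℝ) * Real.log B ≤ L m * Real.log (1 + ε) / 2 := by
    have h5 : (R * e m : ℝ) * Real.log B ≤ (R + 1) * (η * L m) * (Real.log B + 1) := by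
      have h6 : (R * e m : ℝ) ≤ (R + 1) * (η * L m) :=
        mul_le_mul (by linarith) h1 (Nat.cast_nonneg _) (by positivity)
      exact mul_le_mul h6 (by linarith) hlB (by positivity)
    have h7 : (R + 1) * (η * L m) * (Real.log B + 1) = L m * Real.log (1 + ε) / 2 := by
      rw [hη]
      field_simp
    linarith
  have h5 : Real.log (B ^ (R * e m + 1)) ≤ Real.log ((1 + ε) ^ L m) := by
    rw [Real.log_pow, Real.log_pow]
    push_cast
    linarith
  exact (Real.log_le_log_iff (by positivity) (by positivity)).mp h5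

/-- The data exist if the complexity is at most `C n` for infinitely many `n`. -/
theorem exists_data {p q D : ℕ} {w y : ℕ → ℤ} (ho : Orb p q D w y) {C : ℕ}
    (h : ∃ᶠ n in atTop, complexity w n ≤ C * n) :
    ∃ (L : ℕ → ℕ) (K : ℕ) (g : Fin K → ℕ → ℚ) (P : ℕ → ℕ → ℕ) (c : ℕ → Fin K → ℕ → ℚ)
      (α β : ℕ → ℕ → ℚ) (δ : ℝ), Data p q y L g P c α β δ := by
  classical
  obtain ⟨R, hR⟩ := exists_good_lengths ho.w_le h
  set K : ℕ := (2 * D + 1) * R + 1 with hKdef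
  have hp1 : (1 : ℝ) ≤ p := by exact_mod_cast ho.p_pos
  have hDD : (0 : ℝ) ≤ D := Nat.cast_nonneg _
  obtain ⟨L, hLm, hLp⟩ := Filter.extraction_of_frequently_atTop hR
  obtain ⟨C', B, hB, hlev⟩ := exists_level ho R
  choose jt ty hlv using fun m => hlev (L m) (hLp m).1 (hLp m).2
  have hLt : Tendsto L atTop atTop := hLm.tendsto_atTop
  -- lengths and values of the types
  have hlen : ∀ m (a : Fin K), ∃ len : ℕ, ∃ g : ℚ,
      (∀ k, ty m k = a → len = jt m (k + 1) - jt m k ∧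
        g = gval p q w (jt m k) (jt m (k + 1) - jt m k)) ∧
      (ht g : ℝ) ≤ (D + 1) * p ^ (R * L m) := by
    intro m a
    by_cases hk : ∃ k, ty m k = a
    · obtain ⟨k, hk⟩ := hk
      refine ⟨jt m (k + 1) - jt m k, gval p q w (jt m k) (jt m (k + 1) - jt m k), ?_, ?_⟩
      · intro k' hk'
        exact ⟨(hlv m).len_eq k k' (hk.trans hk'.symm), (hlv m).gval_eq k k' (hk.trans hk'.symm)⟩
      · refine (ho.ht_gval_le _ _).trans ?_
        have h1 : jt m (k + 1) - jt m k ≤ R * L m := by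
          have := (hlv m).gap k
          omega
        have h2 : (p : ℝ) ^ (jt m (k + 1) - jt m k) ≤ p ^ (R * L m) :=
          pow_le_pow_right₀ hp1 h1
        exact mul_le_mul_of_nonneg_left h2 (by linarith)
    · refine ⟨0, 0, fun k hk' => absurd ⟨k, hk'⟩ hk, ?_⟩
      have h4 : (1 : ℝ) ≤ (p : ℝ) ^ (R * L m) := one_le_pow₀ hp1
      have h5 : (ht (0 : ℚ) : ℝ) = 1 := by
        have h6 : ht (0 : ℚ) = 1 := by simp [ht]
        rw [h6]; norm_num
      rw [h5]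
      nlinarith
  choose lenT g hlg hht using hlen
  obtain ⟨S, δ, hδ, hS1, hS2⟩ := dichotomy (fun m a => (lenT m a : ℝ) / L m)
  set e : ℕ → ℕ := fun m => (Finset.univ.filter (fun a => a ∉ S)).sup (lenT m) with he
  have hle : ∀ m a, a ∉ S → lenT m a ≤ e m := by
    intro m a ha
    exact Finset.le_sup (f := lenT m) (Finset.mem_filter.mpr ⟨Finset.mem_univ _, ha⟩)
  have hL1 : ∀ᶠ m in (hyperfilter ℕ : Filter ℕ), 1 ≤ L m :=
    Nat.hyperfilter_le_atTop (hLt.eventually_ge_atTop 1)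
  have hsmall : ∀ η : ℝ, 0 < η → ∀ᶠ m in (hyperfilter ℕ : Filter ℕ), (e m : ℝ) ≤ η * L m := by
    intro η hη
    filter_upwards [hS2 η hη, hL1] with m h1 h2
    have hLpos : (0 : ℝ) < L m := by exact_mod_cast h2
    have h3 : e m ≤ ⌊η * L m⌋₊ := by
      apply Finset.sup_le
      intro a ha
      apply Nat.le_floor
      have h4 := h1 a (Finset.mem_filter.mp ha).2
      rw [div_lt_iff₀ hLpos] at h4
      exact h4.le
    exact (Nat.cast_le.mpr h3).trans (Nat.floor_le (by positivity))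
  obtain ⟨D', hD⟩ := exists_walk p q w y K R C' B hB ho.gval_eq
  let G : ℕ → Prop := fun m => 1 ≤ L m ∧ (3 * R + 3) * e m ≤ L m ∧
    ∀ a ∈ S, δ ≤ (lenT m a : ℝ) / L m
  have hG : ∀ᶠ m in (hyperfilter ℕ : Filter ℕ), G m := by
    have h0 : (0 : ℝ) < 1 / (3 * R + 3) := by positivity
    filter_upwards [hL1, hsmall _ h0, hS1] with m h1 h2 h3
    refine ⟨h1, ?_, h3⟩
    have h4 : ((3 * R + 3 : ℕ) : ℝ) * e m ≤ L m := by
      have h5 : (0 : ℝ) < 3 * R + 3 := by positivity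
      have h6 := mul_le_mul_of_nonneg_left h2 h5.le
      have h7 : (3 * R + 3 : ℝ) * (1 / (3 * R + 3) * L m) = L m := by field_simp
      rw [h7] at h6
      push_cast
      exact h6
    exact_mod_cast h4
  have key : ∀ m, ∃ (P : ℕ → ℕ) (c : ℕ → Fin K → ℚ) (α β : ℕ → ℚ),
      (∀ i a, c i a = 0 ∨ c i a = 1) ∧ (G m →
      (∀ i, (P i : ℝ) ≤ D' i * L m) ∧ (∀ i, P i ≤ P (i + 1)) ∧
      (∀ i, (P i : ℝ) + δ * L m ≤ P (i + 2)) ∧
      (∀ i, (ht (α i) : ℝ) ≤ B ^ (R * e m + 1)) ∧ (∀ i, (ht (β i) : ℝ) ≤ B ^ (R * e m + 1)) ∧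
      ∀ i, (y (P i) : ℚ) = ∑ a, g m a * c i a + α i +
        (q : ℚ) ^ (P (i + 1) - P i) / p ^ (P (i + 1) - P i) *
          (β i + (y (P (i + 1)) : ℤ))) := by
    intro m
    by_cases hGm : G m
    · obtain ⟨h1, h2, h3⟩ := hGm
      have hLpos : (0 : ℝ) < L m := by exact_mod_cast h1
      obtain ⟨P, c, α, β, q1, q2, q3, q4, q5, q6, q7⟩ := hD (hlv m) h1 S (e m) h2 δ hδ.le
        (by
          intro k hk
          have h4 := h3 _ hk
          rw [le_div_iff₀ hLpos, (hlg m _ k rfl).1] at h4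
          have h5 : jt m k ≤ jt m (k + 1) := ((hlv m).mono (Nat.lt_succ_self k)).le
          rw [Nat.cast_sub h5] at h4
          linarith)
        (by
          intro k hk
          have h4 := hle m _ hk
          rw [(hlg m _ k rfl).1] at h4
          omega) (g m) (fun k => (hlg m _ k rfl).2)
      exact ⟨P, c, α, β, q4, fun _ => ⟨q1, q2, q3, q5, q6, q7⟩⟩
    · exact ⟨fun _ => 0, fun _ _ => 0, fun _ => 0, fun _ => 0, fun _ _ => Or.inl rfl,
        fun hh => absurd hh hGm⟩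
  choose P c α β hc hrest using key
  refine ⟨L, K, fun a m => g m a, fun i m => P m i, fun m' a m => c m m' a,
    fun i m => α m i, fun i m => β m i, δ, ?_⟩
  refine ⟨hLt, hδ, ?_, ?_, ?_, ?_, ?_, ?_, ?_, ?_⟩
  · intro a
    refine ⟨(D + 1) * p ^ R, ?_⟩
    filter_upwards [hL1] with m hm
    refine (hht m a).trans ?_
    rw [mul_pow, ← pow_mul]
    have h6 : ((D : ℝ) + 1) ≤ ((D : ℝ) + 1) ^ L m :=
      le_self_pow₀ (by linarith) (by omega)
    exact mul_le_mul_of_nonneg_right h6 (by positivity)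
  · intro i
    exact ⟨D' i, hG.mono fun m hm => (hrest m hm).1 i⟩
  · intro i
    exact hG.mono fun m hm => (hrest m hm).2.1 i
  · intro i
    exact hG.mono fun m hm => (hrest m hm).2.2.1 i
  · intro i a m
    exact hc m i a
  · intro i ε hε
    filter_upwards [hG, data_pow hB R hLt hsmall ε hε] with m h1 h2
    exact ((hrest m h1).2.2.2.1 i).trans h2
  · intro i ε hε
    filter_upwards [hG, data_pow hB R hLt hsmall ε hε] with m h1 h2
    exact ((hrest m h1).2.2.2.2.1 i).trans h2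
  · intro i
    exact hG.mono fun m hm => (hrest m hm).2.2.2.2.2 i

end Pool.Agent.Lib.MP_b27257_nt
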