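import Mathlib

/-!
Words with letters in a bounded set of integers, and sequences of integers `y` with
`q y (n+1) = p y n + w n`.
-/

namespace Pool.Agent.Lib.MP_b27257_nt

open Filter Topology

/-- The factor of length `n` at position `i` of the word `w`. -/
def factor (w : ℕ → ℤ) (n i : ℕ) : Fin n → ℤ := fun k => w (i + k)

/-- The number of different factors of length `n` of the word `w`. -/
noncomputable def complexity (w : ℕ → ℤ) (n : ℕ) : ℕ := (Set.range (factor w n)).ncard

/-- `y` is a sequence of integers with `q y (n+1) = p y n + w n`, `w` is bounded by `D`, and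
`(q/p)^n y n` does not tend to zero. -/
structure Orb (p q D : ℕ) (w y : ℕ → ℤ) : Prop where
  one_lt : 1 < q
  lt : q < p
  cop : Nat.Coprime q p
  step : ∀ n, (q : ℤ) * y (n + 1) = p * y n + w n
  w_le : ∀ n, |w n| ≤ D
  inj : Function.Injective y
  lower : ∃ c : ℝ, 0 < c ∧ ∀ n, c ≤ |(q : ℝ) ^ n / p ^ n * (y n : ℝ)|

variable {p q D : ℕ} {w y : ℕ → ℤ}

theorem range_factor_finite (hw : ∀ n, |w n| ≤ D) (n : ℕ) : (Set.range (factor w n)).Finite := by
  apply (Set.Finite.pi' (fun _ : Fin n => (Set.finite_Icc (-(D : ℤ)) D))).subset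
  rintro _ ⟨i, rfl⟩
  intro k
  simp only [factor]
  exact abs_le.mp (hw _)

theorem Orb.p_pos (h : Orb p q D w y) : 0 < p := lt_trans (lt_trans one_pos h.one_lt) h.lt
theorem Orb.q_pos (h : Orb p q D w y) : 0 < q := lt_trans one_pos h.one_lt

theorem Orb.isCoprime (h : Orb p q D w y) : IsCoprime (q : ℤ) (p : ℤ) :=
  Nat.isCoprime_iff_coprime.mpr h.cop

/-- the `n`-step formula for a pair of positions with the same letters -/
theorem Orb.diff (h : Orb p q D w y) (n i j : ℕ) (hw : ∀ k < n, w (i + k) = w (j + k)) :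
    (q : ℤ) ^ n * (y (i + n) - y (j + n)) = (p : ℤ) ^ n * (y i - y j) := by
  induction n with
  | zero => simp
  | succ n ih =>
    have h1 := h.step (i + n)
    have h2 := h.step (j + n)
    have h3 := ih fun k hk => hw k (by omega)
    have h4 := hw n (by omega)
    have e : (q : ℤ) * (y (i + (n + 1)) - y (j + (n + 1))) = p * (y (i + n) - y (j + n)) := by
      rw [← add_assoc, ← add_assoc]
      rw [h4] at h1
      linear_combination h1 - h2
    calc (q : ℤ) ^ (n + 1) * (y (i + (n + 1)) - y (j + (n + 1)))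
        = q ^ n * (q * (y (i + (n + 1)) - y (j + (n + 1)))) := by ring
      _ = p * (q ^ n * (y (i + n) - y (j + n))) := by rw [e]; ring
      _ = (p : ℤ) ^ (n + 1) * (y i - y j) := by rw [h3]; ring

/-- Two integers whose first `n` letters agree are congruent modulo `q ^ n`. -/
theorem Orb.dvd (h : Orb p q D w y) (n i j : ℕ) (hw : ∀ k < n, w (i + k) = w (j + k)) :
    (q : ℤ) ^ n ∣ y i - y j := by
  have h1 : (q : ℤ) ^ n ∣ (p : ℤ) ^ n * (y i - y j) := ⟨_, (h.diff n i j hw).symm⟩
  exact (IsCoprime.pow h.isCoprime).dvd_of_dvd_mul_left h1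

/-- if all letters agree then the integers agree -/
theorem Orb.eq_of_all (h : Orb p q D w y) (i j : ℕ) (hw : ∀ k, w (i + k) = w (j + k)) : i = j := by
  apply h.inj
  have hdvd : ∀ N : ℕ, (q : ℤ) ^ N ∣ y i - y j := fun N => h.dvd N i j fun k _ => hw k
  have hz : y i - y j = 0 := by
    apply Int.eq_zero_of_abs_lt_dvd (hdvd (y i - y j).natAbs)
    rw [Int.abs_eq_natAbs]
    exact_mod_cast Nat.lt_pow_self h.one_lt
  omega

/-- growth -/
theorem Orb.abs_le (h : Orb p q D w y) (n : ℕ) : |(y n : ℝ)| ≤ p ^ n * (|(y 0 : ℝ)| + D) := by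
  have key : ∀ n : ℕ, |(y n : ℝ)| + D ≤ p ^ n * (|(y 0 : ℝ)| + D) := by
    intro n
    induction n with
    | zero => simp
    | succ n ih =>
      have h1 := h.step n
      have h2 := h.w_le n
      have hq : (2 : ℝ) ≤ q := by exact_mod_cast h.one_lt
      have hp : (3 : ℝ) ≤ p := by
        have := h.lt; have := h.one_lt
        exact_mod_cast (by omega : 3 ≤ p)
      have h1' : (q : ℝ) * y (n + 1) = p * y n + w n := by exact_mod_cast h1
      have h2' : |(w n : ℝ)| ≤ D := by exact_mod_cast h2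
      have h3 : (q : ℝ) * |(y (n + 1) : ℝ)| ≤ p * |(y n : ℝ)| + D := by
        calc (q : ℝ) * |(y (n + 1) : ℝ)| = |(q : ℝ) * y (n + 1)| := by
              rw [abs_mul, abs_of_pos (by linarith : (0 : ℝ) < q)]
          _ = |(p : ℝ) * y n + w n| := by rw [h1']
          _ ≤ |(p : ℝ) * y n| + |(w n : ℝ)| := abs_add_le _ _
          _ ≤ p * |(y n : ℝ)| + D := by
              rw [abs_mul, abs_of_pos (by linarith : (0 : ℝ) < p)]
              linarith
      have h4 : (0 : ℝ) ≤ |(y (n + 1) : ℝ)| := abs_nonneg _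
      have h5 : (0 : ℝ) ≤ |(y n : ℝ)| := abs_nonneg _
      have hD : (0 : ℝ) ≤ D := Nat.cast_nonneg _
      have h6 : 2 * |(y (n + 1) : ℝ)| ≤ q * |(y (n + 1) : ℝ)| :=
        mul_le_mul_of_nonneg_right hq h4
      have h7 : |(y (n + 1) : ℝ)| + D ≤ p * (|(y n : ℝ)| + D) := by
        have h8 : 3 * (D : ℝ) ≤ p * D := mul_le_mul_of_nonneg_right hp hD
        have h9 : 0 ≤ (p : ℝ) * |(y n : ℝ)| := by positivity
        nlinarith
      calc |(y (n + 1) : ℝ)| + D ≤ p * (|(y n : ℝ)| + D) := h7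
        _ ≤ p * (p ^ n * (|(y 0 : ℝ)| + D)) := mul_le_mul_of_nonneg_left ih (by linarith)
        _ = p ^ (n + 1) * (|(y 0 : ℝ)| + D) := by ring
  have := key n
  have hD : (0 : ℝ) ≤ D := Nat.cast_nonneg _
  linarith

end Pool.Agent.Lib.MP_b27257_nt
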