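import Pool.Agent.Lib.MP_d0d59f_nt.AutoDet

/-!
The determinant estimate for a family of absolute values.
-/

namespace Pool.Agent.Lib.MP_b27257_nt

open Module Pool.Agent.Lib.MP_d0d59f_nt.Auto

/-- Let `γ` be a vector in `∏_{i ∈ V} Ω i` of length `H` whose `𝕂`-span has dimension `s`. If `s`
vectors over `O` have linearly independent values then these values cannot all be small. -/
theorem det_bound {ι : Type} [Fintype ι] [DecidableEq ι] {𝕂 : Type} {Ω : ι → Type} [Field 𝕂]
    [∀ i, NormedField (Ω i)] [∀ i, IsUltrametricDist (Ω i)] [∀ i, Algebra 𝕂 (Ω i)]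
    (v : ι → AbsoluteValue 𝕂 ℝ) (hv : ∀ i a b, v i (a + b) ≤ max (v i a) (v i b))
    (hΩ : ∀ i z, ‖algebraMap 𝕂 (Ω i) z‖ = v i z)
    (O : Subring 𝕂) (hfrac : ∀ z : 𝕂, ∃ D ∈ O, D ≠ 0 ∧ D * z ∈ O)
    (hL : ∀ z ∈ O, z ≠ 0 → 1 ≤ ∏ i, v i z)
    (V : Finset ι) (hV : V.Nonempty)
    {H s : ℕ} (γ : Fin H → ∀ i : V, Ω i) (hγ : ∀ i : V, ∃ l, γ l i ≠ 0)
    (hs : finrank 𝕂 (Submodule.span 𝕂 (Set.range γ)) = s) :
    ∃ C : ℝ, 0 < C ∧ ∀ (w : Fin s → Fin H → 𝕂) (a : ι → Fin s → ℝ) (ε : ι → ℝ),
      (∀ j l, w j l ∈ O) → (∀ i j l, v i (w j l) ≤ a i j) →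
      LinearIndependent 𝕂 (fun j => ∑ l, w j l • γ l) →
      (∀ (i : V) j, ‖(∑ l, w j l • γ l) i‖ ≤ ε i * a i j) →
      1 ≤ C * (∏ i ∈ V, ε i) * ∏ i, ∏ j, a i j := by
  classical
  set φ : (Fin H → 𝕂) →ₗ[𝕂] (∀ i : V, Ω i) := Fintype.linearCombination 𝕂 γ with hφ
  have hφa : ∀ c : Fin H → 𝕂, φ c = ∑ i, c i • γ i := fun c => by
    rw [hφ, Fintype.linearCombination_apply]
  set r := finrank 𝕂 (LinearMap.ker φ) with hr
  have hrs : r + s = H := by
    have h1 := LinearMap.finrank_range_add_finrank_ker φ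
    rw [hφ, Fintype.range_linearCombination, hs, ← hφ, ← hr, Module.finrank_fin_fun] at h1
    omega
  set B := Module.finBasis 𝕂 (LinearMap.ker φ) with hB
  -- the fixed relations, scaled into `O`
  have hsc : ∀ j : Fin r, ∃ D : 𝕂, D ≠ 0 ∧ ∀ i, D * (B j : Fin H → 𝕂) i ∈ O := fun j =>
    ad_scale O hfrac _
  choose D hD0 hDO using hsc
  set c : Fin r → Fin H → 𝕂 := fun j i => D j * (B j : Fin H → 𝕂) i with hc
  have hcφ : ∀ j, φ (c j) = 0 := by
    intro j
    have h1 : c j = D j • (B j : Fin H → 𝕂) := by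
      funext i
      rfl
    rw [h1, map_smul, LinearMap.mem_ker.mp (B j).2, smul_zero]
  have hcli : LinearIndependent 𝕂 c := by
    have h1 : LinearIndependent 𝕂 (fun j => (B j : Fin H → 𝕂)) :=
      B.linearIndependent.map' (LinearMap.ker φ).subtype (Submodule.ker_subtype _)
    have h2 := h1.units_smul fun j => Units.mk0 (D j) (hD0 j)
    exact h2
  -- bounds for the relations
  have hMc : ∀ i : ι, ∃ Mc : ℝ, 1 ≤ Mc ∧ ∀ j l, v i (c j l) ≤ Mc := by
    intro i
    refine ⟨1 + ∑ j, ∑ l, v i (c j l), ?_, fun j l => ?_⟩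
    · have : 0 ≤ ∑ j, ∑ l, v i (c j l) :=
        Finset.sum_nonneg fun j _ => Finset.sum_nonneg fun l _ => (v i).nonneg _
      linarith
    · have h1 : v i (c j l) ≤ ∑ l, v i (c j l) :=
        Finset.single_le_sum (f := fun l => v i (c j l)) (fun l _ => (v i).nonneg _)
          (Finset.mem_univ l)
      have h2 : ∑ l, v i (c j l) ≤ ∑ j, ∑ l, v i (c j l) :=
        Finset.single_le_sum (f := fun j => ∑ l, v i (c j l))
          (fun j _ => Finset.sum_nonneg fun l _ => (v i).nonneg _) (Finset.mem_univ j)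
      linarith
  choose Mc hMc1 hMc using hMc
  choose i0 hi0 using hγ
  have hγ0 : ∀ i : V, 0 < ‖γ (i0 i) i‖ := fun i => norm_pos_iff.mpr (hi0 i)
  -- the constant
  let g : ι → ℝ := fun i => if h : i ∈ V then ‖γ (i0 ⟨i, h⟩) ⟨i, h⟩‖ else 1
  have hg0 : ∀ i, 0 < g i := by
    intro i
    by_cases h : i ∈ V
    · simp only [g, dif_pos h]
      exact hγ0 ⟨i, h⟩
    · simp only [g, dif_neg h]
      exact one_pos
  have hMpos : ∀ i, 0 < Mc i := fun i => lt_of_lt_of_le one_pos (hMc1 i)
  refine ⟨∏ i, (Mc i ^ r / g i),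
    Finset.prod_pos fun i _ => div_pos (pow_pos (hMpos i) r) (hg0 i), ?_⟩
  intro w a ε hwO hwa hwli hwε
  set e : Fin r ⊕ Fin s ≃ Fin H := finSumFinEquiv.trans (finCongr hrs) with he
  set A : Matrix (Fin H) (Fin H) 𝕂 := fun i k => Sum.elim c w (e.symm i) k with hA
  have hAc : ∀ j, A (e (Sum.inl j)) = c j := fun j => by
    funext k
    simp [hA]
  have hAv : ∀ j, A (e (Sum.inr j)) = w j := fun j => by
    funext k
    simp [hA]
  have hAO : ∀ i k, A i k ∈ O := by
    intro i k
    obtain ⟨x, rfl⟩ := e.surjective i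
    rcases x with j | j
    · rw [hAc]
      exact hDO j k
    · rw [hAv]
      exact hwO j k
  obtain ⟨i1, hi1⟩ := hV
  have ha0 : ∀ i j, 0 ≤ a i j := fun i j =>
    ((v i).nonneg _).trans (hwa i j (i0 ⟨i1, hi1⟩))
  -- the determinant does not vanish
  have hdet : A.det ≠ 0 := by
    intro h0
    obtain ⟨x, hx0, hx⟩ := Matrix.exists_vecMul_eq_zero_iff.mpr h0
    have h1 : ∑ i, x i • A i = 0 := by
      funext k
      have := congrFun hx k
      simpa [Matrix.vecMul, dotProduct] using this
    have h2 : ∑ j, x (e (Sum.inl j)) • c j + ∑ j, x (e (Sum.inr j)) • w j = 0 := by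
      rw [← e.sum_comp, Fintype.sum_sum_type] at h1
      simpa only [hAc, hAv] using h1
    have h3 : ∑ j, x (e (Sum.inr j)) • (∑ i, w j i • γ i) = 0 := by
      have := congrArg φ h2
      rw [map_add, map_sum, map_sum, map_zero] at this
      simp only [map_smul, hcφ, smul_zero, Finset.sum_const_zero, zero_add] at this
      simpa only [hφa] using this
    have h4 := Fintype.linearIndependent_iff.mp hwli _ h3
    have h5 : ∑ j, x (e (Sum.inl j)) • c j = 0 := by
      simpa only [h4, zero_smul, Finset.sum_const_zero, add_zero] using h2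
    have h6 := Fintype.linearIndependent_iff.mp hcli _ h5
    apply hx0
    funext i
    obtain ⟨y, rfl⟩ := e.surjective i
    rcases y with j | j
    · exact h6 j
    · exact h4 j
  have hdetO : A.det ∈ O := by
    rw [Matrix.det_apply]
    refine O.sum_mem fun σ _ => ?_
    rcases Int.units_eq_one_or (Equiv.Perm.sign σ) with hs' | hs'
    · rw [hs', one_smul]
      exact O.prod_mem fun i _ => hAO _ _
    · rw [hs', Units.neg_smul, one_smul]
      exact O.neg_mem (O.prod_mem fun i _ => hAO _ _)
  have hprod : ∀ (M : ℝ) (u : Fin s → ℝ), ∏ i, Sum.elim (fun _ : Fin r => M) u (e.symm i)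
      = M ^ r * ∏ j, u j := by
    intro M u
    rw [← e.prod_comp]
    simp only [Equiv.symm_apply_apply]
    rw [Fintype.prod_sum_type]
    simp
  -- trivial bound
  have htriv : ∀ i, v i A.det ≤ Mc i ^ r * ∏ j, a i j := by
    intro i
    rw [← hprod]
    refine ad_det_le (v i) (hv i) A _ ?_ ?_
    · intro k
      obtain ⟨x, rfl⟩ := e.surjective k
      rcases x with j | j
      · simp only [Equiv.symm_apply_apply, Sum.elim_inl]
        linarith [hMc1 i]
      · simp only [Equiv.symm_apply_apply, Sum.elim_inr]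
        exact ha0 i j
    · intro k l
      obtain ⟨x, rfl⟩ := e.surjective k
      rcases x with j | j
      · simp only [Equiv.symm_apply_apply, Sum.elim_inl]
        rw [hAc]
        exact hMc i j l
      · simp only [Equiv.symm_apply_apply, Sum.elim_inr]
        rw [hAv]
        exact hwa i j l
  -- adjugate
  have hadj : ∀ (i : ι) (l0 : Fin H) (j : Fin s), v i (A.adjugate l0 (e (Sum.inr j)))
      ≤ Mc i ^ r * ∏ l ∈ Finset.univ.erase j, a i l := by
    intro i l0 j
    have h1 : Mc i ^ r * ∏ l ∈ Finset.univ.erase j, a i l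
        = ∏ k, Sum.elim (fun _ : Fin r => Mc i) (Function.update (a i) j 1) (e.symm k) := by
      rw [hprod, ← Finset.mul_prod_erase Finset.univ _ (Finset.mem_univ j),
        Function.update_self, one_mul]
      congr 1
      refine Finset.prod_congr rfl fun l hl => ?_
      rw [Function.update_of_ne (Finset.ne_of_mem_erase hl)]
    rw [h1, Matrix.adjugate_apply]
    refine ad_det_le (v i) (hv i) _ _ ?_ ?_
    · intro k
      obtain ⟨x, rfl⟩ := e.surjective k
      rcases x with l | l
      · simp only [Equiv.symm_apply_apply, Sum.elim_inl]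
        linarith [hMc1 i]
      · simp only [Equiv.symm_apply_apply, Sum.elim_inr]
        by_cases hl : l = j
        · subst hl
          rw [Function.update_self]
          exact zero_le_one
        · rw [Function.update_of_ne hl]
          exact ha0 i l
    · intro k m
      obtain ⟨x, rfl⟩ := e.surjective k
      rcases x with l | l
      · simp only [Equiv.symm_apply_apply, Sum.elim_inl]
        rw [Matrix.updateRow_ne (by simp), hAc]
        exact hMc i l m
      · simp only [Equiv.symm_apply_apply, Sum.elim_inr]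
        by_cases hl : l = j
        · subst hl
          rw [Function.update_self, Matrix.updateRow_self]
          by_cases hk : m = l0
          · subst hk
            rw [Pi.single_eq_same, map_one]
          · rw [Pi.single_eq_of_ne hk, map_zero]
            exact zero_le_one
        · rw [Function.update_of_ne hl, Matrix.updateRow_ne (by simpa using hl), hAv]
          exact hwa i l m
  have hid : ∀ l0, A.det • γ l0 = ∑ j : Fin s, A.adjugate l0 (e (Sum.inr j)) • (∑ k, w j k • γ k) := by
    intro l0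
    have h1 : ∀ k, ∑ j, A.adjugate l0 j * A j k = if l0 = k then A.det else 0 := by
      intro k
      have := congrFun (congrFun (Matrix.adjugate_mul A) l0) k
      rw [Matrix.mul_apply] at this
      rw [this]
      simp [Matrix.one_apply]
    have h2 : ∑ j, A.adjugate l0 j • (∑ k, A j k • γ k) = A.det • γ l0 := by
      simp only [Finset.smul_sum, smul_smul]
      rw [Finset.sum_comm]
      simp only [← Finset.sum_smul, h1]
      simp
    rw [← h2, ← e.sum_comp, Fintype.sum_sum_type]
    have h3 : ∀ j : Fin r, A.adjugate l0 (e (Sum.inl j)) • (∑ k, A (e (Sum.inl j)) k • γ k) = 0 := by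
      intro j
      rw [hAc, ← hφa, hcφ, smul_zero]
    simp only [h3, Finset.sum_const_zero, zero_add, hAv]
  have hs0 : 0 < s := by
    rcases Nat.eq_zero_or_pos s with h0 | h0
    · exfalso
      subst h0
      have h7 := hid (i0 ⟨i1, hi1⟩)
      rw [Finset.univ_eq_empty, Finset.sum_empty] at h7
      have h8 := congrFun h7 ⟨i1, hi1⟩
      rw [Pi.smul_apply, Pi.zero_apply] at h8
      rcases smul_eq_zero.mp h8 with h | h
      · exact hdet h
      · exact hi0 _ h
    · exact h0
  have hnorm : ∀ i : V, v i A.det ≤ Mc i ^ r / g i * (ε i * ∏ l, a i l) := by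
    intro i
    have hterm : ∀ j : Fin s,
        ‖(A.adjugate (i0 i) (e (Sum.inr j)) • (∑ k, w j k • γ k)) i‖
        ≤ Mc i ^ r * (ε i * ∏ l, a i l) := by
      intro j
      rw [Pi.smul_apply, Algebra.smul_def, norm_mul, hΩ]
      calc v i (A.adjugate (i0 i) (e (Sum.inr j))) * ‖(∑ k, w j k • γ k) i‖
          ≤ (Mc i ^ r * ∏ l ∈ Finset.univ.erase j, a i l) * (ε i * a i j) := by
            refine mul_le_mul (hadj i _ j) (hwε i j) (norm_nonneg _) ?_
            have : 0 ≤ ∏ l ∈ Finset.univ.erase j, a i l := Finset.prod_nonneg fun l _ => ha0 i l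
            have := hMpos i
            positivity
        _ = Mc i ^ r * (ε i * ∏ l, a i l) := by
            rw [← Finset.mul_prod_erase Finset.univ _ (Finset.mem_univ j)]
            ring
    have h9 : v i A.det * ‖γ (i0 i) i‖ ≤ Mc i ^ r * (ε i * ∏ l, a i l) := by
      rw [← hΩ, ← norm_mul, ← Algebra.smul_def, ← Pi.smul_apply, hid, Finset.sum_apply]
      have : Nonempty (Fin s) := ⟨⟨0, hs0⟩⟩
      obtain ⟨j, _, hj⟩ := IsUltrametricDist.exists_norm_finsetSum_le_of_nonempty
        (Finset.univ_nonempty (α := Fin s))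
        (fun j : Fin s => (A.adjugate (i0 i) (e (Sum.inr j)) • (∑ k, w j k • γ k)) i)
      exact hj.trans (hterm j)
    have hgi : g i = ‖γ (i0 i) i‖ := by
      simp only [g, dif_pos i.2]
    rw [hgi, div_mul_eq_mul_div, le_div_iff₀ (hγ0 i)]
    exact h9
  have hall : ∀ i, v i A.det ≤ (Mc i ^ r / g i) * ((if i ∈ V then ε i else 1) * ∏ l, a i l) := by
    intro i
    by_cases h : i ∈ V
    · rw [if_pos h]
      exact hnorm ⟨i, h⟩
    · rw [if_neg h, one_mul]
      simp only [g, dif_neg h, div_one]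
      exact htriv i
  calc (1 : ℝ) ≤ ∏ i, v i A.det := hL _ hdetO hdet
    _ ≤ ∏ i, ((Mc i ^ r / g i) * ((if i ∈ V then ε i else 1) * ∏ l, a i l)) :=
        Finset.prod_le_prod (fun i _ => (v i).nonneg _) fun i _ => hall i
    _ = (∏ i, (Mc i ^ r / g i)) * (∏ i ∈ V, ε i) * ∏ i, ∏ j, a i j := by
        rw [Finset.prod_mul_distrib, Finset.prod_mul_distrib, mul_assoc]
        congr 2
        rw [← Finset.prod_filter]
        congr 1
        ext i
        simp

end Pool.Agent.Lib.MP_b27257_nt
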