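import Pool.Agent.Lib.MP_d0d59f_nt.LinPade
import Pool.Agent.Lib.MP_d0d59f_nt.LinDenom

/-!
Families of absolute values on a field with monomials.
-/

namespace Pool.Agent.Lib.MP_b27257_nt

open Module Filter Topology Pool.Agent.Lib.MP_d0d59f_nt Pool.Agent.Lib.MP_d0d59f_nt.Lin

/-- A finite family of non-archimedean absolute values, all small at `X 1`, such that the product of
the values of a nonzero integer is at least one. -/
structure Fam (κ : Type) {𝕂 : Type} [Field κ] [Field 𝕂] [Algebra κ 𝕂] (X : ℝ → 𝕂)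
    (O : Subring 𝕂) (T : ℕ → 𝕂) {ι : Type} [Fintype ι] (v : ι → AbsoluteValue 𝕂 ℝ) (x : ι → ℝ)
    (τ : ℝ) : Prop where
  mval : ∀ i, MVal κ X (v i) (x i)
  lt_one : ∀ i, x i < 1
  liouville : ∀ z ∈ O, z ≠ 0 → 1 ≤ ∏ i, v i z
  tau : ∀ j : ℕ, ∏ i, v i (T j) = τ ^ (j + 1)

variable {κ 𝕂 : Type} [Field κ] [Field 𝕂] [Algebra κ 𝕂] {X : ℝ → 𝕂} {O : Subring 𝕂} {T : ℕ → 𝕂}
  {ι : Type} [Fintype ι] {v : ι → AbsoluteValue 𝕂 ℝ} {x : ι → ℝ} {τ : ℝ}

theorem Fam.one_le_tau (hI : IntData κ X O T) (h : Fam κ X O T v x τ) : 1 ≤ τ := by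
  have h1 := h.liouville (T 0) (hI.T_mem 0) (hI.T_ne 0)
  rw [h.tau 0] at h1
  simpa using h1

end Pool.Agent.Lib.MP_b27257_nt
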