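import Pool.Agent.Lib.MP_b27257_nt.GermM
import Pool.Agent.Lib.MP_b27257_nt.Fam

/-!
The family of the absolute values at the primes dividing `q` and at infinity.
-/

namespace Pool.Agent.Lib.MP_b27257_nt

open Filter Topology Pool.Agent.Lib.MP_d0d59f_nt.Auto Pool.Agent.Lib.MP_d0d59f_nt.Lin

attribute [local instance] sqAlg

/-- the places: the primes dividing `q`, and infinity -/
abbrev Pl (q : ℕ) : Type := Option {l // l ∈ q.primeFactors}

/-- the absolute values of `ℚ` -/
noncomputable def plAbs (q : ℕ) : Pl q → AbsoluteValue ℚ ℝ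
  | none => Rat.AbsoluteValue.real
  | some l => @Rat.AbsoluteValue.padic l ⟨Nat.prime_of_mem_primeFactors l.2⟩

/-- the part of `q` at a place -/
def plPart (q : ℕ) : Pl q → ℕ
  | none => 1
  | some l => (l : ℕ) ^ q.factorization l

/-- the value of `q / p` -/
noncomputable def plX (p q : ℕ) : Pl q → ℝ
  | none => (q : ℝ) / p
  | some l => (((l : ℕ) ^ q.factorization l : ℕ) : ℝ)⁻¹

theorem plAbs_htBound (q : ℕ) (i : Pl q) : HtBound (plAbs q i) := by
  rcases i with _ | l
  · exact htBound_real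
  · exact @htBound_prime l ⟨Nat.prime_of_mem_primeFactors l.2⟩

variable {p q : ℕ}

theorem pl_not_dvd (hc : Nat.Coprime q p) (l : {l // l ∈ q.primeFactors}) : ¬ (l : ℕ) ∣ p := by
  intro h
  have h1 := Nat.dvd_of_mem_primeFactors l.2
  have h2 := Nat.dvd_gcd h1 h
  rw [hc] at h2
  exact (Nat.prime_of_mem_primeFactors l.2).one_lt.ne' (Nat.dvd_one.mp h2)

theorem plAbs_p (hc : Nat.Coprime q p) (i : Pl q) : plAbs q i p = if i = none then (p : ℝ) else 1 := by
  rcases i with _ | l
  · simp only [plAbs, if_true]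
    exact real_nat p
  · simp only [plAbs, reduceCtorEq, if_false]
    exact @padic_coprime l ⟨Nat.prime_of_mem_primeFactors l.2⟩ p (pl_not_dvd hc l)

theorem plAbs_q (hq : 0 < q) (i : Pl q) :
    plAbs q i q = if i = none then (q : ℝ) else (plPart q i : ℝ)⁻¹ := by
  rcases i with _ | l
  · simp only [plAbs, if_true]
    exact real_nat q
  · simp only [plAbs, plPart, reduceCtorEq, if_false]
    rw [@padic_nat l ⟨Nat.prime_of_mem_primeFactors l.2⟩ q hq.ne']
    push_cast
    rfl

theorem plX_eq (hq : 0 < q) (hc : Nat.Coprime q p) (i : Pl q) :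
    plAbs q i q / plAbs q i p = plX p q i := by
  rw [plAbs_p hc, plAbs_q hq]
  rcases i with _ | l
  · simp [plX]
  · simp [plX, plPart]

theorem plPart_pos (i : Pl q) : 0 < plPart q i := by
  rcases i with _ | l
  · exact one_pos
  · exact pow_pos (Nat.prime_of_mem_primeFactors l.2).pos _

theorem plPart_dvd (q : ℕ) (i : Pl q) : plPart q i ∣ q := by
  rcases i with _ | l
  · exact one_dvd q
  · exact Nat.ordProj_dvd q l

theorem plPart_gt (hq : 0 < q) (l : {l // l ∈ q.primeFactors}) : 1 < plPart q (some l) := by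
  have hp := Nat.prime_of_mem_primeFactors l.2
  have h1 : 0 < q.factorization l :=
    hp.factorization_pos_of_dvd hq.ne' (Nat.dvd_of_mem_primeFactors l.2)
  exact Nat.one_lt_pow h1.ne' hp.one_lt

theorem plX_lt_one (hq : 0 < q) (hqp : q < p) (i : Pl q) : plX p q i < 1 := by
  rcases i with _ | l
  · simp only [plX]
    rw [div_lt_one (by exact_mod_cast (by omega : 0 < p))]
    exact_mod_cast hqp
  · simp only [plX]
    apply inv_lt_one_of_one_lt₀
    exact_mod_cast plPart_gt hq l

theorem prod_plPart (hq : 0 < q) : ∏ l : {l // l ∈ q.primeFactors}, plPart q (some l) = q := by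
  have h1 : ∏ l : {l // l ∈ q.primeFactors}, plPart q (some l) =
      ∏ l ∈ q.primeFactors, l ^ q.factorization l :=
    Finset.prod_coe_sort q.primeFactors (fun l => l ^ q.factorization l)
  rw [h1]
  exact Nat.prod_factorization_pow_eq_self hq.ne'

/-- the product formula inequality for nonzero integers -/
theorem pl_int (q : ℕ) (z : ℤ) (hz : z ≠ 0) : 1 ≤ ∏ i, plAbs q i (z : ℚ) := by
  have hn : z.natAbs ≠ 0 := Int.natAbs_ne_zero.mpr hz
  rw [Fintype.prod_option]
  have h0 : plAbs q none (z : ℚ) = (z.natAbs : ℝ) := by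
    simp only [plAbs]
    rw [Rat.AbsoluteValue.real_eq_abs]
    push_cast
    rw [Nat.cast_natAbs]
    push_cast
    rfl
  have h1 : ∀ l : {l // l ∈ q.primeFactors}, plAbs q (some l) (z : ℚ) =
      ((((l : ℕ) ^ z.natAbs.factorization l : ℕ) : ℝ))⁻¹ := by
    intro l
    have hl : Fact (l : ℕ).Prime := ⟨Nat.prime_of_mem_primeFactors l.2⟩
    simp only [plAbs]
    have h2 := padic_nat (l : ℕ) hn
    have h3 : Rat.AbsoluteValue.padic (l : ℕ) (z : ℚ) =
        Rat.AbsoluteValue.padic (l : ℕ) ((z.natAbs : ℕ) : ℚ) := by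
      obtain ⟨n, rfl | rfl⟩ := Int.eq_nat_or_neg z
      · rw [Int.natAbs_natCast, Int.cast_natCast]
      · rw [Int.natAbs_neg, Int.natAbs_natCast, Int.cast_neg, Int.cast_natCast,
          AbsoluteValue.map_neg]
    rw [h3, h2]
    push_cast
    rfl
  rw [h0, Finset.prod_congr rfl fun l _ => h1 l, Finset.prod_inv_distrib, ← Nat.cast_prod,
    ← div_eq_mul_inv, one_le_div₀]
  · have hdvd : (∏ l : {l // l ∈ q.primeFactors}, (l : ℕ) ^ z.natAbs.factorization l) ∣ z.natAbs := by
      have h5 : (∏ l : {l // l ∈ q.primeFactors}, (l : ℕ) ^ z.natAbs.factorization l) =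
          ∏ l ∈ q.primeFactors, l ^ z.natAbs.factorization l :=
        Finset.prod_coe_sort q.primeFactors (fun l => l ^ z.natAbs.factorization l)
      rw [h5]
      apply Finset.prod_dvd_of_isRelPrime
      · intro a ha b hb hab
        show IsRelPrime (a ^ z.natAbs.factorization a) (b ^ z.natAbs.factorization b)
        rw [← Nat.coprime_iff_isRelPrime]
        apply Nat.Coprime.pow
        exact (Nat.coprime_primes (Nat.prime_of_mem_primeFactors ha)
          (Nat.prime_of_mem_primeFactors hb)).mpr hab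
      · intro a _
        exact Nat.ordProj_dvd _ _
    exact_mod_cast Nat.le_of_dvd (Nat.pos_of_ne_zero hn) hdvd
  · have : 0 < ∏ l : {l // l ∈ q.primeFactors}, (l : ℕ) ^ z.natAbs.factorization l :=
      Finset.prod_pos fun l _ => pow_pos (Nat.prime_of_mem_primeFactors l.2).pos _
    exact_mod_cast this

theorem plX_log (hq : 0 < q) (hqp : q < p) :
    ∑ i, Real.log (1 / plX p q i) = Real.log p := by
  rw [Fintype.sum_option]
  have hqR : (0 : ℝ) < q := by exact_mod_cast hq
  have hpR : (0 : ℝ) < p := by exact_mod_cast (by omega : 0 < p)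
  have h1 : ∀ l : {l // l ∈ q.primeFactors}, Real.log (1 / plX p q (some l)) =
      Real.log (plPart q (some l) : ℝ) := by
    intro l
    simp only [plX, plPart]
    rw [one_div, inv_inv]
  rw [Finset.sum_congr rfl fun l _ => h1 l,
    ← Real.log_prod (fun l _ => by exact_mod_cast (plPart_pos (some l)).ne'), ← Nat.cast_prod,
    prod_plPart hq]
  simp only [plX]
  rw [one_div_div, Real.log_div hpR.ne' hqR.ne']
  ring

/-- logarithms of coprime numbers -/
theorem irr_log {m p : ℕ} (hm : 1 < m) (hp : 1 < p) (hc : Nat.Coprime m p) :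
    Irrational (Real.log m / Real.log p) := by
  rintro ⟨a, ha⟩
  have hlm : 0 < Real.log m := Real.log_pos (by exact_mod_cast hm)
  have hlp : 0 < Real.log p := Real.log_pos (by exact_mod_cast hp)
  have ha0 : (0 : ℝ) < a := by rw [ha]; exact div_pos hlm hlp
  have ha1 : 0 < a := by exact_mod_cast ha0
  have hnum : 0 < a.num := Rat.num_pos.mpr ha1
  have h1 : (a.num : ℝ) * Real.log p = a.den * Real.log m := by
    have h2 : (a : ℝ) = a.num / a.den := by exact_mod_cast (Rat.num_div_den a).symm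
    have hd : (a.den : ℝ) ≠ 0 := by exact_mod_cast a.den_ne_zero
    rw [h2] at ha
    field_simp at ha
    linarith
  obtain ⟨u, hu⟩ := Int.eq_ofNat_of_zero_le hnum.le
  have hu' : (a.num : ℝ) = (u : ℝ) := by rw [hu]; push_cast; rfl
  rw [hu', ← Real.log_pow, ← Real.log_pow] at h1
  have hpp : (0 : ℝ) < (p : ℝ) ^ u := by positivity
  have hmm : (0 : ℝ) < (m : ℝ) ^ a.den := by positivity
  have h3 : (p : ℝ) ^ u = (m : ℝ) ^ a.den := Real.log_injOn_pos hpp hmm h1
  have h4 : p ^ u = m ^ a.den := by exact_mod_cast h3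
  have h5 : Nat.Coprime (m ^ a.den) (p ^ u) := Nat.Coprime.pow _ _ hc
  rw [h4, Nat.coprime_self] at h5
  have h6 : 1 < m ^ a.den := Nat.one_lt_pow a.den_ne_zero hm
  omega

theorem pl_irr_aux (hq : 0 < q) (hqp : q < p) (hq1 : 1 < q) (hc : Nat.Coprime q p)
    (W : Finset (Pl q)) (hW : W.Nonempty) (hn : none ∉ W) :
    Irrational (∑ i ∈ W, Real.log (1 / plX p q i) / Real.log p) := by
  rw [← Finset.sum_div]
  have h1 : ∑ i ∈ W, Real.log (1 / plX p q i) = Real.log ((∏ i ∈ W, plPart q i : ℕ) : ℝ) := by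
    rw [Nat.cast_prod, Real.log_prod (fun i _ => by exact_mod_cast (plPart_pos i).ne')]
    refine Finset.sum_congr rfl fun i hi => ?_
    rcases i with _ | l
    · exact absurd hi hn
    · simp only [plX, plPart]
      rw [one_div, inv_inv]
  rw [h1]
  apply irr_log _ (by omega)
  · exact Nat.Coprime.prod_left fun i _ => Nat.Coprime.coprime_dvd_left (plPart_dvd q i) hc
  · obtain ⟨i, hi⟩ := hW
    have h2 : plPart q i ∣ ∏ i ∈ W, plPart q i := Finset.dvd_prod_of_mem _ hi
    have h3 : 0 < ∏ i ∈ W, plPart q i := Finset.prod_pos fun i _ => plPart_pos i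
    rcases i with _ | l
    · exact absurd hi hn
    · exact lt_of_lt_of_le (plPart_gt hq l) (Nat.le_of_dvd h3 h2)

theorem pl_irr (hqp : q < p) (hq1 : 1 < q) (hc : Nat.Coprime q p)
    (V : Finset (Pl q)) (hV : V.Nonempty) (hVu : V ≠ Finset.univ) :
    Irrational (∑ i ∈ V, Real.log (1 / plX p q i) / Real.log p) := by
  have hq : 0 < q := by omega
  by_cases hn : none ∈ V
  · have hVc : Vᶜ.Nonempty := by
      rw [Finset.nonempty_iff_ne_empty]
      intro h
      exact hVu ((Finset.compl_eq_empty_iff V).mp h)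
    have h1 := pl_irr_aux hq hqp hq1 hc Vᶜ hVc (by simpa using hn)
    have hlp : 0 < Real.log p := Real.log_pos (by exact_mod_cast (by omega : 1 < p))
    have h2 : ∑ i ∈ V, Real.log (1 / plX p q i) / Real.log p =
        ((1 : ℕ) : ℝ) - ∑ i ∈ Vᶜ, Real.log (1 / plX p q i) / Real.log p := by
      rw [eq_sub_iff_add_eq, Finset.sum_add_sum_compl, ← Finset.sum_div, plX_log hq hqp,
        div_self hlp.ne']
      norm_num
    rw [h2]
    exact h1.natCast_sub 1
  · exact pl_irr_aux hq hqp hq1 hc V hV hn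

variable {L : ℕ → ℕ} {hL : Tendsto L atTop atTop}

/-- The family of limit absolute values. -/
theorem fam_qX (hq : 0 < q) (hqp : q < p) (hc : Nat.Coprime q p)
    {v : Pl q → AbsoluteValue (bigField L hL) ℝ}
    (hna : ∀ i a b, v i (a + b) ≤ max (v i a) (v i b)) (hv : ∀ i, IsLimAbs (plAbs q i) (v i)) :
    Fam (smallField L hL) (qX p q hq hqp.le L hL) (sqO L hL) (qT p q hq hqp.le L hL) v (plX p q)
      (p : ℝ) := by
  refine ⟨fun i => ?_, plX_lt_one hq hqp, fun z hz hz0 => ?_, fun j => ?_⟩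
  · exact mVal_qX hq hqp (plAbs_htBound q i) (hna i) (hv i) (plX_eq hq hc i)
      (plX_lt_one hq hqp i).ne
  · obtain ⟨f, hf⟩ := hz
    have h1 : Tendsto (fun m => ∏ i, plAbs q i ((f m : ℤ) : ℚ) ^ ((1 : ℝ) / L m)) (hyperfilter ℕ)
        (𝓝 (∏ i, v i z)) := tendsto_finsetProd _ fun i _ => hv i _ z hf
    refine ge_of_tendsto h1 ?_
    have hne : ∀ᶠ m in (hyperfilter ℕ : Filter ℕ), ((f m : ℤ) : ℚ) ≠ 0 := by
      apply sq_germ_ne_zero (f := fun m => ((f m : ℤ) : ℚ))
      rw [hf]
      exact fun h => hz0 (Subtype.ext h)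
    filter_upwards [hne] with m hm
    rw [Real.finsetProd_rpow _ _ (fun i _ => AbsoluteValue.nonneg _ _)]
    apply Real.one_le_rpow _ (by positivity)
    exact pl_int q (f m) (by exact_mod_cast hm)
  · have h1 : ∀ i, v i (qT p q hq hqp.le L hL j) = (if i = none then (p : ℝ) else 1) ^ (j + 1) := by
      intro i
      rw [qT_val hq hqp (hv i), plAbs_p hc]
    rw [Finset.prod_congr rfl fun i _ => h1 i, Finset.prod_pow, Fintype.prod_option]
    simp

end Pool.Agent.Lib.MP_b27257_nt
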