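import Pool.Agent.Lib.MP_b27257_nt.Seq

/-!
The main theorem on the complexity.
-/

namespace Pool.Agent.Lib.MP_b27257_nt

open Filter Topology Pool.Agent.Lib.MP_d0d59f_nt.Auto

variable {p q D : ℕ} {w y : ℕ → ℤ} {L : ℕ → ℕ} {K : ℕ} {g : Fin K → ℕ → ℚ} {P : ℕ → ℕ → ℕ}
  {c : ℕ → Fin K → ℕ → ℚ} {α β : ℕ → ℕ → ℚ} {δ : ℝ}

theorem final_ht_coef (h : Data p q y L g P c α β δ) (t : ℕ) (a : Fin (K + 1)) (ε : ℝ)
    (hε : 0 < ε) :
    ∀ᶠ m in (hyperfilter ℕ : Filter ℕ), (ht (coef c α β t a m) : ℝ) ≤ (1 + ε) ^ L m := by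
  have h1 : ∀ m, (1 : ℝ) ≤ (1 + ε) ^ L m := fun m => one_le_pow₀ (by linarith)
  unfold coef
  split_ifs with ht2
  · refine Fin.lastCases ?_ (fun b => ?_) a
    · simp only [Fin.snoc_last]
      exact h.ht_α _ ε hε
    · simp only [Fin.snoc_castSucc]
      refine Eventually.of_forall fun m => ?_
      rcases h.c_val (t / 2) b m with h0 | h0
      · rw [h0, ah_zero]; simpa using h1 m
      · rw [h0, ah_one]; simpa using h1 m
  · refine Fin.lastCases ?_ (fun b => ?_) a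
    · simp only [Fin.snoc_last]
      exact h.ht_β _ ε hε
    · simp only [Fin.snoc_castSucc]
      refine Eventually.of_forall fun m => ?_
      rw [ah_zero]; simpa using h1 m

theorem final_ht_gOne (h : Data p q y L g P c α β δ) (a : Fin (K + 1)) :
    ∃ C : ℝ, ∀ᶠ m in (hyperfilter ℕ : Filter ℕ), (ht (gOne g a m) : ℝ) ≤ C ^ L m := by
  unfold gOne
  refine Fin.lastCases ?_ (fun b => ?_) a
  · refine ⟨1, Eventually.of_forall fun m => ?_⟩
    simp only [Fin.snoc_last]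
    rw [ah_one]; simp
  · simp only [Fin.snoc_castSucc]
    exact h.ht_g b

theorem final_ht_x (ho : Orb p q D w y) (h : Data p q y L g P c α β δ) :
    ∃ C : ℝ, ∀ᶠ m in (hyperfilter ℕ : Filter ℕ),
      (ht ((y (P 0 m) : ℤ) : ℚ) : ℝ) ≤ C ^ L m := by
  have hp1 : (1 : ℝ) ≤ p := by exact_mod_cast ho.p_pos
  obtain ⟨C0, hC0⟩ := h.P_le 0
  obtain ⟨C, hC⟩ := exists_nat_ge C0
  refine ⟨p ^ C * (|(y 0 : ℝ)| + D + 1), ?_⟩
  filter_upwards [hC0, Nat.hyperfilter_le_atTop (h.tend.eventually_ge_atTop 1)] with m hPm hm1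
  have hiC : P 0 m ≤ C * L m := by
    have : (P 0 m : ℝ) ≤ C * L m :=
      hPm.trans (mul_le_mul_of_nonneg_right hC (Nat.cast_nonneg _))
    exact_mod_cast this
  have h3 := ho.abs_le (P 0 m)
  have h4 : (p : ℝ) ^ P 0 m ≤ p ^ (C * L m) := pow_le_pow_right₀ hp1 hiC
  have hD : (0 : ℝ) ≤ D := Nat.cast_nonneg _
  have hy0 : (0 : ℝ) ≤ |(y 0 : ℝ)| := abs_nonneg _
  have h6 : |(y (P 0 m) : ℝ)| ≤ p ^ (C * L m) * (|(y 0 : ℝ)| + D) :=
    h3.trans (mul_le_mul_of_nonneg_right h4 (by linarith))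
  have h7 : (1 : ℝ) ≤ p ^ (C * L m) := one_le_pow₀ hp1
  have h8 : |(y 0 : ℝ)| + D + 1 ≤ (|(y 0 : ℝ)| + D + 1) ^ L m :=
    le_self_pow₀ (by linarith) (by omega)
  have h9 : (ht ((y (P 0 m) : ℤ) : ℚ) : ℝ) ≤ max |(y (P 0 m) : ℝ)| 1 := by
    unfold ht
    rw [Rat.num_intCast, Rat.den_intCast, Nat.cast_max, Nat.cast_natAbs, Int.cast_abs]
    simp
  rw [mul_pow, ← pow_mul]
  refine h9.trans (max_le ?_ ?_)
  · refine h6.trans ?_
    have h10 : |(y 0 : ℝ)| + D ≤ (|(y 0 : ℝ)| + D + 1) ^ L m := by linarith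
    exact mul_le_mul_of_nonneg_left h10 (by positivity)
  · have h10 : (1 : ℝ) ≤ (|(y 0 : ℝ)| + D + 1) ^ L m := one_le_pow₀ (by linarith)
    have := mul_le_mul h7 h10 zero_le_one (by linarith)
    simpa using this

/-- `l`-adic norm of the error -/
theorem final_padic (hq : 0 < q) (hc : Nat.Coprime q p) (l : {l // l ∈ q.primeFactors})
    (N : ℕ) (z : ℤ) :
    plAbs q (some l) ((q : ℚ) ^ N / (p : ℚ) ^ N * (z : ℚ)) ≤ (1 / 2 : ℝ) ^ N := by
  have e2 : plAbs q (some l) (q : ℚ) ≤ 1 / 2 := by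
    rw [plAbs_q hq]
    simp only [reduceCtorEq, if_false]
    have h1 : (2 : ℝ) ≤ plPart q (some l) := by exact_mod_cast plPart_gt hq l
    rw [one_div]
    exact inv_anti₀ (by norm_num) h1
  have e3 : plAbs q (some l) (p : ℚ) = 1 := by
    rw [plAbs_p hc]
    simp
  have e4 : plAbs q (some l) (z : ℚ) ≤ 1 :=
    @germB_int_le l ⟨Nat.prime_of_mem_primeFactors l.2⟩ z
  rw [map_mul, map_div₀, map_pow, map_pow, e3, one_pow, div_one]
  calc plAbs q (some l) (q : ℚ) ^ N * plAbs q (some l) (z : ℚ)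
      ≤ (1 / 2) ^ N * 1 := mul_le_mul (pow_le_pow_left₀ (AbsoluteValue.nonneg _ _) e2 N) e4
        (AbsoluteValue.nonneg _ _) (by positivity)
    _ = (1 / 2) ^ N := mul_one _

/-- lower bound for the error -/
theorem final_lower (ho : Orb p q D w y) {c₀ : ℝ}
    (hlow : ∀ n : ℕ, c₀ ≤ |(q : ℝ) ^ n / p ^ n * (y n : ℝ)|) {a b : ℕ} (hab : a ≤ b) :
    c₀ ≤ |(((q : ℚ) ^ (b - a) / (p : ℚ) ^ (b - a) * (y b : ℤ) : ℚ) : ℝ)| := by
  have hp0 : (0 : ℝ) < p := by exact_mod_cast ho.p_pos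
  have hq0 : (0 : ℝ) < q := by exact_mod_cast ho.q_pos
  have h5 := hlow b
  have h7 : |(((q : ℚ) ^ (b - a) / (p : ℚ) ^ (b - a) * (y b : ℤ) : ℚ) : ℝ)|
      = |(q : ℝ) ^ b / p ^ b * (y b : ℝ)| * (p ^ a / q ^ a) := by
    have h8 : (0 : ℝ) ≤ p ^ a / q ^ a := by positivity
    rw [← abs_of_nonneg h8, ← abs_mul]
    congr 1
    have hb : (q : ℝ) ^ b = q ^ a * q ^ (b - a) := by
      rw [← pow_add, Nat.add_sub_cancel' hab]
    have hb' : (p : ℝ) ^ b = p ^ a * p ^ (b - a) := by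
      rw [← pow_add, Nat.add_sub_cancel' hab]
    rw [hb, hb']
    push_cast
    field_simp
  rw [h7]
  have h8 : (1 : ℝ) ≤ p ^ a / q ^ a := by
    rw [one_le_div (by positivity)]
    exact pow_le_pow_left₀ hq0.le (by exact_mod_cast ho.lt.le) a
  exact h5.trans (le_mul_of_one_le_right (abs_nonneg _) h8)

theorem Data.false (ho : Orb p q D w y) (h : Data p q y L g P c α β δ) : False := by
  obtain ⟨u, hu, hut⟩ := h.exists_lim
  obtain ⟨c₀, hc₀, hlow⟩ := ho.lower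
  have hL := h.tend
  have hidx : Tendsto (fun t : ℕ => (t + 1) / 2) atTop atTop := by
    refine tendsto_atTop_atTop.mpr fun b => ⟨2 * b, fun a ha => ?_⟩
    omega
  have hs : Tendsto (fun t : ℕ => u ((t + 1) / 2) - u 0) atTop atTop :=
    tendsto_atTop_add_const_right _ (-(u 0)) (hut.comp hidx)
  have hA : ∀ t, Tendsto (fun m => (expA P t m : ℝ) / L m) (hyperfilter ℕ)
      (𝓝 (u ((t + 1) / 2) - u 0)) := by
    intro t
    refine ((hu ((t + 1) / 2)).sub (hu 0)).congr' ?_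
    filter_upwards [h.zero_le ((t + 1) / 2)] with m hm
    rw [expA, Nat.cast_sub hm, sub_div]
  -- a prime dividing `q`
  have hmf : q.minFac ∈ q.primeFactors :=
    Nat.mem_primeFactors.mpr ⟨Nat.minFac_prime ho.one_lt.ne', Nat.minFac_dvd q, ho.q_pos.ne'⟩
  set l : {l // l ∈ q.primeFactors} := ⟨q.minFac, hmf⟩ with hl
  have h2 : ∀ σ : ℕ, ∃ r, σ ≤ r ∧ ∀ᶠ m in (hyperfilter ℕ : Filter ℕ),
      plAbs q (some l) (err p q (expA P) (coef c α β) (gOne g)
        (fun m => (y (P 0 m) : ℤ)) r m) ≤ (1 / 2 : ℝ) ^ (σ * L m) := by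
    intro σ
    obtain ⟨i, hi, hiσ⟩ := ((eventually_ge_atTop σ).and
      (hut.eventually_gt_atTop (u 0 + σ))).exists
    refine ⟨2 * i, by omega, ?_⟩
    have hlim : Tendsto (fun m => (P i m : ℝ) / L m - (P 0 m : ℝ) / L m) (hyperfilter ℕ)
        (𝓝 (u i - u 0)) := (hu i).sub (hu 0)
    have hev := hlim.eventually (lt_mem_nhds (show (σ : ℝ) < u i - u 0 by linarith))
    filter_upwards [hev, h.zero_le i, err_eq ho.p_pos.ne' h i,
      Nat.hyperfilter_le_atTop (hL.eventually_ge_atTop 1)] with m h3 h4 h5 h6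
    have hLm : (0 : ℝ) < L m := by exact_mod_cast h6
    rw [← sub_div, lt_div_iff₀ hLm] at h3
    have h7 : σ * L m ≤ P i m - P 0 m := by
      have : (σ * L m : ℝ) ≤ ((P i m - P 0 m : ℕ) : ℝ) := by
        rw [Nat.cast_sub h4]; exact h3.le
      exact_mod_cast this
    rw [h5]
    exact (final_padic ho.q_pos ho.cop l _ _).trans
      (pow_le_pow_of_le_one (by norm_num) (by norm_num) h7)
  obtain ⟨r0, hr0⟩ := transfer_germs ho.one_lt ho.lt ho.cop hL (expA P) _ hs hA (coef c α β)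
    (fun t a ε hε => final_ht_coef h t a ε hε) (gOne g) (final_ht_gOne h)
    (fun m => (y (P 0 m) : ℤ)) (final_ht_x ho h) l h2 (δ := 1 / 2) (by norm_num)
  have h4 : Tendsto (fun m => (2 : ℝ) ^ (L m)) atTop atTop :=
    (tendsto_pow_atTop_atTop_of_one_lt (by norm_num : (1 : ℝ) < 2)).comp hL
  have hfin : ∀ᶠ m in (hyperfilter ℕ : Filter ℕ), False := by
    filter_upwards [hr0 (2 * r0) (by omega), err_eq ho.p_pos.ne' h r0, h.zero_le r0,
      Nat.hyperfilter_le_atTop (h4.eventually_gt_atTop c₀⁻¹)] with m e1 e2 e3 e5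
    have e6 := final_lower ho hlow e3
    rw [e2] at e1
    have h11 : (1 / 2 : ℝ) ^ L m < c₀ := by
      rw [one_div, inv_pow, inv_lt_comm₀ (by positivity) hc₀]
      exact e5
    linarith
  exact hfin.exists.elim fun _ h => h

/-- The main theorem for orbits: the complexity is superlinear. -/
theorem Orb.superlinear (ho : Orb p q D w y) (C : ℕ) :
    ∀ᶠ n in atTop, C * n < complexity w n := by
  by_contra hcon
  have h : ∃ᶠ n in atTop, complexity w n ≤ C * n := by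
    rw [Filter.not_eventually] at hcon
    exact hcon.mono fun n hn => not_lt.mp hn
  obtain ⟨L, K, g, P, c, α, β, δ, hD⟩ := exists_data ho h
  exact Data.false ho hD

end Pool.Agent.Lib.MP_b27257_nt
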