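import Pool.Agent.Lib.MP_b27257_nt.BranchA

/-!
Row W2b: blocks between branching positions.
-/

namespace Pool.Agent.Lib.MP_b27257_nt

open Filter Topology

variable {D : ℕ} {w : ℕ → ℤ}

theorem gapB_tail {w : ℕ → ℤ} {n i j : ℕ} (h : factor w (n + 1) i = factor w (n + 1) j) :
    factor w n (i + 1) = factor w n (j + 1) := by
  funext k
  have := congrFun h ⟨k.1 + 1, by omega⟩
  simp only [factor] at this ⊢
  have e1 : i + 1 + (k : ℕ) = i + (k.1 + 1) := by omega
  have e2 : j + 1 + (k : ℕ) = j + (k.1 + 1) := by omega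
  rw [e1, e2]
  exact this

theorem gapB_head {w : ℕ → ℤ} {n i j : ℕ} (h : factor w (n + 1) i = factor w (n + 1) j) :
    w (i) = w (j) := by
  have := congrFun h ⟨0, by omega⟩
  simpa only [factor, Nat.add_zero] using this

theorem gapB_step {n : ℕ} {jt : ℕ → ℕ} (hjt : StrictMono jt)
    (hnb : ∀ k t, jt k < t → t < jt (k + 1) → ¬ Branch w n t) {k k' : ℕ}
    (h : factor w (n + 1) (jt k) = factor w (n + 1) (jt k')) (t : ℕ) :
    jt k + t < jt (k + 1) → jt k' + t < jt (k' + 1) →
      factor w (n + 1) (jt k + t) = factor w (n + 1) (jt k' + t) := by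
  induction t with
  | zero => intro _ _; simpa using h
  | succ t ih =>
    intro h1 h2
    have h3 := ih (by omega) (by omega)
    have h4 : factor w n (jt k + (t + 1)) = factor w n (jt k' + (t + 1)) := gapB_tail h3
    by_contra hne
    exact hnb k (jt k + (t + 1)) (by omega) h1 ⟨jt k' + (t + 1), h4.symm, fun h5 => hne h5.symm⟩

theorem gapB_le {n : ℕ} {jt : ℕ → ℕ} (hjt : StrictMono jt) (hb : ∀ k, Branch w n (jt k))
    (hnb : ∀ k t, jt k < t → t < jt (k + 1) → ¬ Branch w n t) {k k' : ℕ}
    (h : factor w (n + 1) (jt k) = factor w (n + 1) (jt k')) :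
    jt (k' + 1) - jt k' ≤ jt (k + 1) - jt k := by
  by_contra hlt
  push Not at hlt
  have hk := hjt (Nat.lt_succ_self k)
  have hk' := hjt (Nat.lt_succ_self k')
  simp only [Nat.succ_eq_add_one] at hk hk'
  have h1 := gapB_step hjt hnb h (jt (k + 1) - jt k - 1) (by omega) (by omega)
  have h2 := gapB_tail h1
  have e1 : jt k + (jt (k + 1) - jt k - 1) + 1 = jt (k + 1) := by omega
  rw [e1] at h2
  exact hnb k' _ (by omega) (by omega) (branch_congr h2 (hb (k + 1)))

/-- Two blocks which begin with the same factor of length `n + 1` are equal. Proof: by induction on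
`t`, `1 ≤ t ≤ len` and `1 ≤ t ≤ len'`: `factor n (jt k + t) = factor n (jt k' + t)` (`t = 1`: from the
factors of length `n + 1`; step: `jt k + t` is not branching, so the factors of length `n + 1` agree
too). If `len < len'` then `jt k + len` is branching and `jt k' + len` is not, contradiction. -/
theorem block_eq {n : ℕ} {jt : ℕ → ℕ} (hjt : StrictMono jt) (hb : ∀ k, Branch w n (jt k))
    (hnb : ∀ k t, jt k < t → t < jt (k + 1) → ¬ Branch w n t) {k k' : ℕ}
    (h : factor w (n + 1) (jt k) = factor w (n + 1) (jt k')) :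
    jt (k + 1) - jt k = jt (k' + 1) - jt k' ∧
      ∀ t, t < jt (k + 1) - jt k → w (jt k + t) = w (jt k' + t) := by
  have hlen : jt (k + 1) - jt k = jt (k' + 1) - jt k' :=
    le_antisymm (gapB_le hjt hb hnb h.symm) (gapB_le hjt hb hnb h)
  refine ⟨hlen, ?_⟩
  intro t ht
  exact gapB_head (gapB_step hjt hnb h t (by omega) (by omega))

/-- Among `R + 1` consecutive branching positions two have the same factor of length `n`. -/
theorem exists_same_branch (hw : ∀ n, |w n| ≤ D) {n R : ℕ} (hR : (branchSet w n).ncard ≤ R) {jt : ℕ → ℕ}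
    (hb : ∀ k, Branch w n (jt k)) (c : ℕ) :
    ∃ a b, c ≤ a ∧ a < b ∧ b ≤ c + R ∧
      ∀ t < n, w (jt a + t) = w (jt b + t) := by
  classical
  have hfin : (branchSet w n).Finite := by
    apply (range_factor_finite hw n).subset
    rintro _ ⟨i, -, rfl⟩
    exact ⟨i, rfl⟩
  have hmaps : Set.MapsTo (fun a => factor w n (jt a)) (Finset.Icc c (c + R) : Set ℕ)
      (hfin.toFinset : Set (Fin n → ℤ)) := by
    intro a _
    simp only [Set.Finite.coe_toFinset]
    exact ⟨jt a, hb a, rfl⟩
  have hcard : hfin.toFinset.card < (Finset.Icc c (c + R)).card := by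
    rw [Nat.card_Icc, ← Set.ncard_eq_toFinset_card _ hfin]
    omega
  obtain ⟨a, ha, b, hb', hab, he⟩ := Finset.exists_ne_map_eq_of_card_lt_of_maps_to hcard hmaps
  rw [Finset.mem_Icc] at ha hb'
  have key : ∀ a b : ℕ, factor w n (jt a) = factor w n (jt b) →
      ∀ t < n, w (jt a + t) = w (jt b + t) := by
    intro a b h t ht
    have := congrFun h ⟨t, ht⟩
    simpa only [factor] using this
  rcases lt_or_gt_of_ne hab with h' | h'
  · exact ⟨a, b, ha.1, h', hb'.2, key a b he⟩
  · exact ⟨b, a, hb'.1, h', ha.2, key b a he.symm⟩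

end Pool.Agent.Lib.MP_b27257_nt
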