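import Pool.Agent.Lib.MP_d0d59f_nt.LinMonA

/-!
Germs of sequences `q ^ a m / p ^ b m`.
-/

namespace Pool.Agent.Lib.MP_b27257_nt

open Filter Topology Pool.Agent.Lib.MP_d0d59f_nt.Auto Pool.Agent.Lib.MP_d0d59f_nt.Lin

/-- `q ^ a / p ^ b` -/
noncomputable def qmon (p q : ℕ) (a b : ℤ) : ℚ := (q : ℚ) ^ a / (p : ℚ) ^ b

variable {p q : ℕ}

theorem qmon_ne_zero (hp : 0 < p) (hq : 0 < q) (a b : ℤ) : qmon p q a b ≠ 0 := by
  have h1 : (0 : ℚ) < p := by exact_mod_cast hp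
  have h2 : (0 : ℚ) < q := by exact_mod_cast hq
  unfold qmon
  positivity

theorem qmon_mul (hp : 0 < p) (hq : 0 < q) (a b a' b' : ℤ) :
    qmon p q a b * qmon p q a' b' = qmon p q (a + a') (b + b') := by
  have h1 : (p : ℚ) ≠ 0 := by exact_mod_cast hp.ne'
  have h2 : (q : ℚ) ≠ 0 := by exact_mod_cast hq.ne'
  unfold qmon
  rw [zpow_add₀ h2, zpow_add₀ h1]
  ring

theorem ht_qmon_le (hq : 0 < q) (hqp : q ≤ p) (a b : ℤ) :
    (ht (qmon p q a b) : ℝ) ≤ (p : ℝ) ^ (|(a : ℝ)| + |(b : ℝ)|) := by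
  have hp : 0 < p := by omega
  have h1 : ht (qmon p q a b) ≤ q ^ a.natAbs * p ^ b.natAbs := by
    unfold qmon
    rw [div_eq_mul_inv]
    refine (ht_mul_le _ _).trans ?_
    refine Nat.mul_le_mul (lga_ht_zpow q hq a) ((ht_inv_le _).trans (lga_ht_zpow p hp b))
  have h2 : (ht (qmon p q a b) : ℝ) ≤ q ^ a.natAbs * p ^ b.natAbs := by exact_mod_cast h1
  refine h2.trans ?_
  have hpR : (0 : ℝ) < p := by exact_mod_cast hp
  have h3 : (q : ℝ) ^ a.natAbs ≤ p ^ a.natAbs :=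
    pow_le_pow_left₀ (Nat.cast_nonneg _) (by exact_mod_cast hqp) _
  have h4 : (q : ℝ) ^ a.natAbs * p ^ b.natAbs ≤ p ^ a.natAbs * p ^ b.natAbs :=
    mul_le_mul_of_nonneg_right h3 (by positivity)
  refine h4.trans (le_of_eq ?_)
  rw [Real.rpow_add hpR]
  have h5 : ∀ c : ℤ, (p : ℝ) ^ c.natAbs = p ^ |(c : ℝ)| := by
    intro c
    rw [← Real.rpow_natCast, Nat.cast_natAbs, Int.cast_abs]
  rw [h5, h5]

variable {L : ℕ → ℕ} {hL : Tendsto L atTop atTop}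

theorem qmon_mem_big (hq : 0 < q) (hqp : q ≤ p) (a b : ℕ → ℤ)
    (ha : ∃ C : ℝ, ∀ᶠ m in (hyperfilter ℕ : Filter ℕ), |(a m : ℝ)| ≤ C * L m)
    (hb : ∃ C : ℝ, ∀ᶠ m in (hyperfilter ℕ : Filter ℕ), |(b m : ℝ)| ≤ C * L m) :
    (((fun m => qmon p q (a m) (b m)) : ℕ → ℚ) : QU) ∈ bigField L hL := by
  have hpR : (0 : ℝ) < p := by exact_mod_cast (by omega : 0 < p)
  have hp1 : (1 : ℝ) ≤ p := by exact_mod_cast (by omega : 1 ≤ p)
  obtain ⟨C, hC⟩ := ha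
  obtain ⟨D, hD⟩ := hb
  refine ⟨fun m => qmon p q (a m) (b m), rfl, (p : ℝ) ^ (C + D), ?_⟩
  filter_upwards [hC, hD] with m h1 h2
  refine (ht_qmon_le hq hqp _ _).trans ?_
  rw [← Real.rpow_natCast, ← Real.rpow_mul hpR.le]
  refine Real.rpow_le_rpow_of_exponent_le hp1 ?_
  calc |((a m : ℤ) : ℝ)| + |((b m : ℤ) : ℝ)| ≤ C * L m + D * L m := add_le_add h1 h2
    _ = (C + D) * L m := by ring

/-- `p ^ (2 δ) ≤ 1 + ε` for some `δ > 0`. -/
theorem qmon_mem_small (hq : 0 < q) (hqp : q ≤ p) (hp2 : 1 < p) (a b : ℕ → ℤ)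
    (ha : Tendsto (fun m => (a m : ℝ) / L m) (hyperfilter ℕ) (𝓝 0))
    (hb : Tendsto (fun m => (b m : ℝ) / L m) (hyperfilter ℕ) (𝓝 0)) :
    (((fun m => qmon p q (a m) (b m)) : ℕ → ℚ) : QU) ∈ smallField L hL := by
  have hpR : (0 : ℝ) < p := by exact_mod_cast (by omega : 0 < p)
  have hp1 : (1 : ℝ) < p := by exact_mod_cast hp2
  refine ⟨fun m => qmon p q (a m) (b m), rfl, fun ε hε => ?_⟩
  obtain ⟨δ, hδ, hδε⟩ : ∃ δ : ℝ, 0 < δ ∧ (p : ℝ) ^ (δ + δ) ≤ 1 + ε := by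
    have hl3 : 0 < Real.log p := Real.log_pos hp1
    have hle : 0 < Real.log (1 + ε) := Real.log_pos (by linarith)
    refine ⟨Real.log (1 + ε) / (2 * Real.log p), by positivity, le_of_eq ?_⟩
    rw [Real.rpow_def_of_pos hpR]
    have : Real.log p * (Real.log (1 + ε) / (2 * Real.log p) + Real.log (1 + ε) / (2 * Real.log p))
        = Real.log (1 + ε) := by
      field_simp
      ring
    rw [this, Real.exp_log (by linarith)]
  have h1 : ∀ᶠ m in (hyperfilter ℕ : Filter ℕ), |(a m : ℝ) / L m| < δ := by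
    have := ha.abs
    rw [abs_zero] at this
    exact this.eventually_lt_const hδ
  have h2 : ∀ᶠ m in (hyperfilter ℕ : Filter ℕ), |(b m : ℝ) / L m| < δ := by
    have := hb.abs
    rw [abs_zero] at this
    exact this.eventually_lt_const hδ
  filter_upwards [h1, h2, sq_L_pos hL] with m h1 h2 hm
  have hm' : (0 : ℝ) < L m := by exact_mod_cast hm
  refine (ht_qmon_le hq hqp _ _).trans ?_
  have h3 : |((a m : ℤ) : ℝ)| ≤ δ * L m := by
    rw [abs_div, abs_of_pos hm', div_lt_iff₀ hm'] at h1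
    exact h1.le
  have h4 : |((b m : ℤ) : ℝ)| ≤ δ * L m := by
    rw [abs_div, abs_of_pos hm', div_lt_iff₀ hm'] at h2
    exact h2.le
  calc (p : ℝ) ^ (|((a m : ℤ) : ℝ)| + |((b m : ℤ) : ℝ)|) ≤ (p : ℝ) ^ ((δ + δ) * L m) := by
        refine Real.rpow_le_rpow_of_exponent_le hp1.le ?_
        linarith
    _ = ((p : ℝ) ^ (δ + δ)) ^ L m := by
        rw [← Real.rpow_natCast, ← Real.rpow_mul hpR.le]
    _ ≤ (1 + ε) ^ L m := pow_le_pow_left₀ (by positivity) hδε _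

/-- `n (qmon a b) ^ (1 / L) = n q ^ (a / L) / n p ^ (b / L)` if `L > 0`. -/
theorem limAbs_qmon (hp : 0 < p) (hq : 0 < q) {n : AbsoluteValue ℚ ℝ}
    {v : AbsoluteValue (bigField L hL) ℝ}
    (hv : IsLimAbs n v) {z : bigField L hL} {a b : ℕ → ℤ}
    (hz : (((fun m => qmon p q (a m) (b m)) : ℕ → ℚ) : QU) = (z : QU)) {α β : ℝ}
    (ha : Tendsto (fun m => (a m : ℝ) / L m) (hyperfilter ℕ) (𝓝 α))
    (hb : Tendsto (fun m => (b m : ℝ) / L m) (hyperfilter ℕ) (𝓝 β)) :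
    v z = n q ^ α / n p ^ β := by
  refine sq_val_eq hv hz ?_
  have p2 : 0 < n q := n.pos (by exact_mod_cast hq.ne')
  have p3 : 0 < n p := n.pos (by exact_mod_cast hp.ne')
  have h1 : Tendsto (fun m => n q ^ ((a m : ℝ) / L m)) (hyperfilter ℕ) (𝓝 (n q ^ α)) :=
    ((Real.continuousAt_const_rpow p2.ne').tendsto).comp ha
  have h2 : Tendsto (fun m => n p ^ ((b m : ℝ) / L m)) (hyperfilter ℕ) (𝓝 (n p ^ β)) :=
    ((Real.continuousAt_const_rpow p3.ne').tendsto).comp hb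
  have h3 := h1.div h2 (Real.rpow_pos_of_pos p3 _).ne'
  refine h3.congr fun m => ?_
  simp only [Pi.div_apply]
  unfold qmon
  rw [map_div₀, map_zpow₀, map_zpow₀, Real.div_rpow (by positivity) (by positivity)]
  congr 1
  · rw [← Real.rpow_intCast, ← Real.rpow_mul p2.le]
    congr 1
    ring
  · rw [← Real.rpow_intCast, ← Real.rpow_mul p3.le]
    congr 1
    ring

end Pool.Agent.Lib.MP_b27257_nt
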