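import Pool.Agent.Lib.MP_d0d59f_nt.AutoLim

/-!
The absolute values of `q` and `p`; the `l`-adic absolute value.
-/

namespace Pool.Agent.Lib.MP_b27257_nt

open Filter Topology Pool.Agent.Lib.MP_d0d59f_nt.Auto

variable (l : ℕ) [Fact l.Prime]

theorem germB_int (z : ℤ) (hz : z ≠ 0) :
    (1 : ℝ) ≤ Rat.AbsoluteValue.padic l (z : ℚ) * |(z : ℝ)| := by
  have hl : (0 : ℝ) < l := by exact_mod_cast (Fact.out : l.Prime).pos
  have h1 : (l : ℤ) ^ padicValInt l z ∣ z := padicValInt_dvd z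
  have h2 : (l : ℤ) ^ padicValInt l z ≤ |z| :=
    Int.le_of_dvd (abs_pos.mpr hz) ((dvd_abs _ _).mpr h1)
  have h3 : (l : ℝ) ^ padicValInt l z ≤ |(z : ℝ)| := by exact_mod_cast h2
  have h4 : Rat.AbsoluteValue.padic l (z : ℚ) = ((l : ℝ) ^ padicValInt l z)⁻¹ := by
    rw [Rat.AbsoluteValue.padic_eq_padicNorm, padicNorm.eq_zpow_of_nonzero (by exact_mod_cast hz),
      padicValRat.of_int]
    push_cast
    rw [zpow_neg, zpow_natCast]
  rw [h4, ← div_eq_inv_mul, le_div_iff₀ (by positivity), one_mul]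
  exact h3

theorem germB_int_le (z : ℤ) : Rat.AbsoluteValue.padic l (z : ℚ) ≤ 1 := by
  rw [Rat.AbsoluteValue.padic_eq_padicNorm]
  exact_mod_cast padicNorm.of_int (p := l) z

/-- `HtBound` for the prime `l` -/
theorem htBound_prime : HtBound (Rat.AbsoluteValue.padic l) := by
  have hdiv : ∀ q : ℚ, Rat.AbsoluteValue.padic l q * Rat.AbsoluteValue.padic l ((q.den : ℤ) : ℚ) =
      Rat.AbsoluteValue.padic l (q.num : ℚ) := by
    intro q
    rw [← map_mul]
    congr 1
    push_cast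
    exact Rat.mul_den_eq_num q
  have hd : ∀ q : ℚ, (1 : ℝ) ≤ q.den := fun q => by exact_mod_cast q.pos
  refine ⟨fun q => ?_, fun q hq => ?_⟩
  · have h1 := germB_int l (q.den : ℤ) (by exact_mod_cast q.den_ne_zero)
    have h2 := hdiv q
    have h3 := germB_int_le l q.num
    have h4 : |(((q.den : ℤ)) : ℝ)| = q.den := by
      push_cast
      exact abs_of_nonneg (by positivity)
    rw [h4] at h1
    calc Rat.AbsoluteValue.padic l q = Rat.AbsoluteValue.padic l q * 1 := (mul_one _).symm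
      _ ≤ Rat.AbsoluteValue.padic l q * (Rat.AbsoluteValue.padic l ((q.den : ℤ) : ℚ) * q.den) :=
        mul_le_mul_of_nonneg_left h1 (AbsoluteValue.nonneg _ _)
      _ = Rat.AbsoluteValue.padic l (q.num : ℚ) * q.den := by rw [← mul_assoc, h2]
      _ ≤ 1 * q.den := mul_le_mul_of_nonneg_right h3 (by positivity)
      _ ≤ ht q := by rw [one_mul]; exact al_den_le q
  · have h1 := germB_int l q.num (Rat.num_ne_zero.mpr hq)
    have h2 := hdiv q
    have h3 := germB_int_le l (q.den : ℤ)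
    calc (1 : ℝ) ≤ Rat.AbsoluteValue.padic l (q.num : ℚ) * |(q.num : ℝ)| := h1
      _ ≤ Rat.AbsoluteValue.padic l (q.num : ℚ) * ht q :=
        mul_le_mul_of_nonneg_left (al_num_le q) (AbsoluteValue.nonneg _ _)
      _ = Rat.AbsoluteValue.padic l q * Rat.AbsoluteValue.padic l ((q.den : ℤ) : ℚ) * ht q := by
        rw [h2]
      _ ≤ Rat.AbsoluteValue.padic l q * 1 * ht q := by
        gcongr
      _ = Rat.AbsoluteValue.padic l q * ht q := by rw [mul_one]

/-- value at a number not divisible by `l` -/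
theorem padic_coprime {n : ℕ} (h : ¬ l ∣ n) : Rat.AbsoluteValue.padic l (n : ℚ) = 1 := by
  rw [Rat.AbsoluteValue.padic_eq_padicNorm, (padicNorm.nat_eq_one_iff (p := l) n).mpr h]
  norm_num

/-- value at a nonzero natural number -/
theorem padic_nat {n : ℕ} (h : n ≠ 0) :
    Rat.AbsoluteValue.padic l (n : ℚ) = ((l : ℝ) ^ n.factorization l)⁻¹ := by
  have h1 : padicNorm l (n : ℚ) = ((l : ℚ) ^ padicValNat l n)⁻¹ := by
    rw [padicNorm.eq_zpow_of_nonzero (by exact_mod_cast h), padicValRat.of_nat, zpow_neg,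
      zpow_natCast]
  rw [Rat.AbsoluteValue.padic_eq_padicNorm, h1, Nat.factorization_def n (Fact.out : l.Prime)]
  push_cast
  rfl

theorem real_nat (n : ℕ) : Rat.AbsoluteValue.real (n : ℚ) = n := by
  rw [Rat.AbsoluteValue.real_eq_abs]
  simp

end Pool.Agent.Lib.MP_b27257_nt
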