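import Pool.Agent.Lib.MP_d0d59f_nt.LinDefs
import Pool.Agent.Lib.MP_b27257_nt.GermA
import Pool.Agent.Lib.MP_b27257_nt.GermB

/-!
The monomials `X s` = germ of `(q / p) ^ ⌊s L⌋`.
-/

namespace Pool.Agent.Lib.MP_b27257_nt

open Filter Topology Pool.Agent.Lib.MP_d0d59f_nt.Auto Pool.Agent.Lib.MP_d0d59f_nt.Lin

attribute [local instance] sqAlg

variable {p q : ℕ} {L : ℕ → ℕ} {hL : Tendsto L atTop atTop}

/-- the sequence `q ^ ⌊s L⌋ / p ^ ⌊s L⌋` -/
noncomputable def qseqX (p q : ℕ) (L : ℕ → ℕ) (s : ℝ) (m : ℕ) : ℚ := qmon p q ⌊s * L m⌋ ⌊s * L m⌋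

/-- the sequence `p ^ ⌊(i + 1) L⌋` -/
noncomputable def qseqT (p q : ℕ) (L : ℕ → ℕ) (i m : ℕ) : ℚ := qmon p q 0 (-⌊((i : ℝ) + 1) * L m⌋)

theorem qmon_germ_ne (hp : 0 < p) (hq : 0 < q) (a b : ℕ → ℤ) :
    (((fun m => qmon p q (a m) (b m)) : ℕ → ℚ) : QU) ≠ 0 := by
  intro h
  have h1 : (((fun m => qmon p q (a m) (b m)) : ℕ → ℚ) : QU) = ((0 : ℕ → ℚ) : QU) := h
  obtain ⟨m, hm⟩ := (Germ.coe_eq.mp h1).exists
  exact qmon_ne_zero hp hq _ _ hm

theorem qseqX_mem (hq : 0 < q) (hqp : q ≤ p) (L : ℕ → ℕ) (hL : Tendsto L atTop atTop) (s : ℝ) :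
    ((qseqX p q L s : ℕ → ℚ) : QU) ∈ bigField L hL :=
  qmon_mem_big hq hqp _ _ (monA_bound hL (tendsto_floor hL s)) (monA_bound hL (tendsto_floor hL s))

theorem qseqT_mem (hq : 0 < q) (hqp : q ≤ p) (L : ℕ → ℕ) (hL : Tendsto L atTop atTop) (i : ℕ) :
    ((qseqT p q L i : ℕ → ℚ) : QU) ∈ bigField L hL := by
  obtain ⟨C, hC⟩ := monA_bound hL (tendsto_floor hL ((i : ℝ) + 1))
  refine qmon_mem_big hq hqp (fun _ => 0) (fun m => -⌊((i : ℝ) + 1) * L m⌋) ⟨0, ?_⟩ ⟨C, ?_⟩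
  · exact Eventually.of_forall fun m => by simp
  · filter_upwards [hC] with m hm
    push_cast
    rw [abs_neg]
    exact hm

noncomputable def qX (p q : ℕ) (hq : 0 < q) (hqp : q ≤ p) (L : ℕ → ℕ)
    (hL : Tendsto L atTop atTop) (s : ℝ) : bigField L hL :=
  ⟨_, qseqX_mem hq hqp L hL s⟩

noncomputable def qT (p q : ℕ) (hq : 0 < q) (hqp : q ≤ p) (L : ℕ → ℕ)
    (hL : Tendsto L atTop atTop) (i : ℕ) : bigField L hL :=
  ⟨_, qseqT_mem hq hqp L hL i⟩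

/-- Main lemma: if `a / L → s` then the germ of `q ^ a / p ^ a` is a nonzero constant of
`smallField` times `qX s`. -/
theorem qgerm_eq (hq : 0 < q) (hqp : q < p) {s : ℝ} (a b : ℕ → ℤ)
    (ha : Tendsto (fun m => (a m : ℝ) / L m) (hyperfilter ℕ) (𝓝 s))
    (hb : Tendsto (fun m => (b m : ℝ) / L m) (hyperfilter ℕ) (𝓝 s)) :
    ∃ c : smallField L hL, c ≠ 0 ∧ ((c • qX p q hq hqp.le L hL s : bigField L hL) : QU) =
      (((fun m => qmon p q (a m) (b m)) : ℕ → ℚ) : QU) := by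
  have hp : 0 < p := by omega
  have h1 : Tendsto (fun m => ((a m - ⌊s * L m⌋ : ℤ) : ℝ) / L m) (hyperfilter ℕ) (𝓝 0) := by
    have h := ha.sub (tendsto_floor hL s)
    rw [sub_self] at h
    refine h.congr fun m => ?_
    push_cast
    rw [sub_div]
  have h2 : Tendsto (fun m => ((b m - ⌊s * L m⌋ : ℤ) : ℝ) / L m) (hyperfilter ℕ) (𝓝 0) := by
    have h := hb.sub (tendsto_floor hL s)
    rw [sub_self] at h
    refine h.congr fun m => ?_
    push_cast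
    rw [sub_div]
  have hc := qmon_mem_small (hL := hL) hq hqp.le (by omega) _ _ h1 h2
  refine ⟨⟨_, hc⟩, ?_, ?_⟩
  · intro h
    exact qmon_germ_ne hp hq _ _ (congrArg Subtype.val h)
  · rw [Algebra.smul_def, Subfield.coe_mul]
    change (((fun m => qmon p q (a m - ⌊s * L m⌋) (b m - ⌊s * L m⌋)) : ℕ → ℚ) : QU) *
      ((qseqX p q L s : ℕ → ℚ) : QU) = _
    rw [← Germ.coe_mul]
    congr 1
    funext m
    rw [Pi.mul_apply, qseqX, qmon_mul hp hq]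
    congr 1 <;> ring

theorem mono_qX (hq : 0 < q) (hqp : q < p) : Mono (smallField L hL) (qX p q hq hqp.le L hL) where
  ne s := by
    intro h
    exact qmon_germ_ne (by omega) hq (fun m => ⌊s * L m⌋) (fun m => ⌊s * L m⌋)
      (congrArg Subtype.val h)
  mul s t := by
    have hp : 0 < p := by omega
    have h1 : Tendsto (fun m => ((⌊s * L m⌋ + ⌊t * L m⌋ : ℤ) : ℝ) / L m) (hyperfilter ℕ)
        (𝓝 (s + t)) := by
      refine ((tendsto_floor hL s).add (tendsto_floor hL t)).congr fun m => ?_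
      push_cast
      rw [add_div]
    obtain ⟨c, hc, he⟩ := qgerm_eq (hL := hL) hq hqp (s := s + t) _ _ h1 h1
    refine ⟨c, hc, ?_⟩
    apply Subtype.ext
    rw [he, Subfield.coe_mul]
    change ((qseqX p q L s : ℕ → ℚ) : QU) * ((qseqX p q L t : ℕ → ℚ) : QU) = _
    rw [← Germ.coe_mul]
    congr 1
    funext m
    rw [Pi.mul_apply, qseqX, qseqX, qmon_mul hp hq]
  zero := by
    refine ⟨1, one_ne_zero, ?_⟩
    rw [map_one]
    apply Subtype.ext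
    change ((qseqX p q L 0 : ℕ → ℚ) : QU) = 1
    rw [← Germ.coe_one]
    congr 1
    funext m
    simp [qseqX, qmon]

/-- the value of a monomial -/
theorem qX_val (hq : 0 < q) (hqp : q < p) {n : AbsoluteValue ℚ ℝ}
    {v : AbsoluteValue (bigField L hL) ℝ}
    (hv : IsLimAbs n v) (s : ℝ) : v (qX p q hq hqp.le L hL s) = (n q / n p) ^ s := by
  have h := limAbs_qmon (L := L) (hL := hL) (by omega) hq hv (z := qX p q hq hqp.le L hL s)
    (a := fun m => ⌊s * L m⌋) (b := fun m => ⌊s * L m⌋) rfl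
    (tendsto_floor hL s) (tendsto_floor hL s)
  rw [h, Real.div_rpow (n.nonneg _) (n.nonneg _)]

/-- the value of `T i` -/
theorem qT_val (hq : 0 < q) (hqp : q < p) {n : AbsoluteValue ℚ ℝ}
    {v : AbsoluteValue (bigField L hL) ℝ}
    (hv : IsLimAbs n v) (i : ℕ) : v (qT p q hq hqp.le L hL i) = (n p) ^ (i + 1) := by
  have h1 : Tendsto (fun m => (((-⌊((i : ℝ) + 1) * L m⌋ : ℤ)) : ℝ) / L m) (hyperfilter ℕ)
      (𝓝 (-((i : ℝ) + 1))) := by
    refine (tendsto_floor hL ((i : ℝ) + 1)).neg.congr fun m => ?_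
    push_cast
    ring
  have h0 : Tendsto (fun m => (((0 : ℤ)) : ℝ) / L m) (hyperfilter ℕ) (𝓝 0) := by
    simp
  have h := limAbs_qmon (L := L) (hL := hL) (by omega) hq hv (z := qT p q hq hqp.le L hL i)
    (a := fun _ => (0 : ℤ)) (b := fun m => -⌊((i : ℝ) + 1) * L m⌋) rfl h0 h1
  rw [h, Real.rpow_zero, Real.rpow_neg (n.nonneg _), one_div, inv_inv]
  have h2 : ((i : ℝ) + 1) = ((i + 1 : ℕ) : ℝ) := by push_cast; ring
  rw [h2, Real.rpow_natCast]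

theorem mVal_qX (hq : 0 < q) (hqp : q < p) {n : AbsoluteValue ℚ ℝ} (hn : HtBound n)
    {v : AbsoluteValue (bigField L hL) ℝ} (hna : ∀ a b, v (a + b) ≤ max (v a) (v b))
    (hv : IsLimAbs n v) {x : ℝ} (hx : n q / n p = x) (hx1 : x ≠ 1) :
    MVal (smallField L hL) (qX p q hq hqp.le L hL) v x := by
  refine ⟨?_, hx1, hna, fun c hc => sq_const hn hv c hc, fun s => ?_⟩
  · rw [← hx]
    have h2 : 0 < n q := n.pos (by exact_mod_cast hq.ne')
    have h3 : 0 < n p := n.pos (by exact_mod_cast (by omega : p ≠ 0))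
    exact div_pos h2 h3
  · rw [qX_val hq hqp hv, hx]

/-- nonnegative exponents give integers -/
theorem qmon_int {a b : ℤ} (ha : 0 ≤ a) (hb : 0 ≤ b) :
    ((((q : ℤ) ^ a.toNat * (p : ℤ) ^ b.toNat : ℤ)) : ℚ) = qmon p q a (-b) := by
  unfold qmon
  obtain ⟨a', rfl⟩ := Int.eq_ofNat_of_zero_le ha
  obtain ⟨b', rfl⟩ := Int.eq_ofNat_of_zero_le hb
  simp only [Int.toNat_natCast, zpow_neg, zpow_natCast]
  push_cast
  rw [div_inv_eq_mul]

theorem intData_qX (hq : 0 < q) (hqp : q < p) :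
    IntData (smallField L hL) (qX p q hq hqp.le L hL) (sqO L hL) (qT p q hq hqp.le L hL) := by
  have hp : 0 < p := by omega
  refine ⟨sq_frac, sq_frac_const, fun i h => ?_, fun i => ?_, fun i s hs0 hs1 => ?_⟩
  · have h1 : ((qseqT p q L i : ℕ → ℚ) : QU) = 0 := congrArg Subtype.val h
    obtain ⟨m, hm⟩ := (sq_germ_zero h1).exists
    exact qmon_ne_zero hp hq _ _ hm
  · refine ⟨fun m => (q : ℤ) ^ (0 : ℤ).toNat * (p : ℤ) ^ (⌊((i : ℝ) + 1) * L m⌋).toNat, ?_⟩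
    show _ = ((qseqT p q L i : ℕ → ℚ) : QU)
    congr 1
    funext m
    have hb : 0 ≤ ⌊((i : ℝ) + 1) * L m⌋ := Int.floor_nonneg.2 (by positivity)
    exact qmon_int le_rfl hb
  · refine ⟨fun m => (q : ℤ) ^ (⌊s * L m⌋).toNat *
      (p : ℤ) ^ (⌊((i : ℝ) + 1) * L m⌋ - ⌊s * L m⌋).toNat, ?_⟩
    rw [Subfield.coe_mul]
    show _ = ((qseqT p q L i : ℕ → ℚ) : QU) * ((qseqX p q L s : ℕ → ℚ) : QU)
    rw [← Germ.coe_mul]
    congr 1
    funext m
    have ha : 0 ≤ ⌊s * L m⌋ := Int.floor_nonneg.2 (by positivity)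
    have hb : 0 ≤ ⌊((i : ℝ) + 1) * L m⌋ - ⌊s * L m⌋ := by
      rw [sub_nonneg]
      apply Int.floor_le_floor
      exact mul_le_mul_of_nonneg_right hs1.le (by positivity)
    show ((((q : ℤ) ^ (⌊s * L m⌋).toNat *
      (p : ℤ) ^ (⌊((i : ℝ) + 1) * L m⌋ - ⌊s * L m⌋).toNat : ℤ)) : ℚ)
      = qseqT p q L i m * qseqX p q L s m
    rw [qmon_int ha hb, qseqT, qseqX, qmon_mul hp hq]
    congr 1
    · ring
    · ring

end Pool.Agent.Lib.MP_b27257_nt
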