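import Pool.Agent.Lib.MP_b27257_nt.LimA

/-!
The series for `y (P 0 m)`.
-/

namespace Pool.Agent.Lib.MP_b27257_nt

open Filter Topology Pool.Agent.Lib.MP_d0d59f_nt.Auto

variable {p q : ℕ} {y : ℕ → ℤ} {L : ℕ → ℕ} {K : ℕ} {g : Fin K → ℕ → ℚ} {P : ℕ → ℕ → ℕ}
  {c : ℕ → Fin K → ℕ → ℚ} {α β : ℕ → ℕ → ℚ} {δ : ℝ}

/-- the error at level `m` of the approximation of order `r` of `x` -/
noncomputable def err (p q : ℕ) (A : ℕ → ℕ → ℕ) {K : ℕ} (c : ℕ → Fin K → ℕ → ℚ)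
    (g : Fin K → ℕ → ℚ) (x : ℕ → ℚ) (r m : ℕ) : ℚ :=
  x m - ∑ a, g a m * ∑ t ∈ Finset.range r, c t a m * ((q : ℚ) ^ A t m / p ^ A t m)

/-- exponents: `P i m - P 0 m` for `t = 2 i` and for `t = 2 i - 1` -/
def expA (P : ℕ → ℕ → ℕ) (t m : ℕ) : ℕ := P ((t + 1) / 2) m - P 0 m

/-- coefficients, with one more coordinate -/
def coef (c : ℕ → Fin K → ℕ → ℚ) (α β : ℕ → ℕ → ℚ) (t : ℕ) (a : Fin (K + 1)) (m : ℕ) : ℚ :=
  if t % 2 = 0 then (Fin.snoc (fun b => c (t / 2) b m) (α (t / 2) m) : Fin (K + 1) → ℚ) a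
  else (Fin.snoc (fun _ => 0) (β (t / 2) m) : Fin (K + 1) → ℚ) a

/-- the block constants and `1` -/
def gOne (g : Fin K → ℕ → ℚ) (a : Fin (K + 1)) (m : ℕ) : ℚ :=
  (Fin.snoc (fun b => g b m) 1 : Fin (K + 1) → ℚ) a

theorem ident_sum_snoc {K : ℕ} (g : Fin K → ℕ → ℚ) (u : Fin K → ℚ) (w : ℚ) (m : ℕ) :
    ∑ a : Fin (K + 1), gOne g a m * (Fin.snoc u w : Fin (K + 1) → ℚ) a =
      ∑ b, g b m * u b + w := by
  rw [Fin.sum_univ_castSucc]
  simp [gOne]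

theorem ident_coef_even (c : ℕ → Fin K → ℕ → ℚ) (α β : ℕ → ℕ → ℚ) (i : ℕ) (a : Fin (K + 1))
    (m : ℕ) : coef c α β (2 * i) a m = (Fin.snoc (fun b => c i b m) (α i m) : Fin (K + 1) → ℚ) a := by
  unfold coef
  rw [if_pos (by omega)]
  have h : 2 * i / 2 = i := by omega
  rw [h]

theorem ident_coef_odd (c : ℕ → Fin K → ℕ → ℚ) (α β : ℕ → ℕ → ℚ) (i : ℕ) (a : Fin (K + 1))
    (m : ℕ) : coef c α β (2 * i + 1) a m = (Fin.snoc (fun _ => 0) (β i m) : Fin (K + 1) → ℚ) a := by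
  unfold coef
  rw [if_neg (by omega)]
  have h : (2 * i + 1) / 2 = i := by omega
  rw [h]

theorem ident_err_step (p q : ℕ) (P : ℕ → ℕ → ℕ) (c : ℕ → Fin K → ℕ → ℚ) (α β : ℕ → ℕ → ℚ)
    (g : Fin K → ℕ → ℚ) (y : ℕ → ℚ) (i m : ℕ) :
    err p q (expA P) (coef c α β) (gOne g) y (2 * (i + 1)) m =
      err p q (expA P) (coef c α β) (gOne g) y (2 * i) m -
        (∑ b, g b m * c i b m + α i m) *
          ((q : ℚ) ^ (P i m - P 0 m) / p ^ (P i m - P 0 m)) -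
        β i m * ((q : ℚ) ^ (P (i + 1) m - P 0 m) / p ^ (P (i + 1) m - P 0 m)) := by
  have e1 : (2 * i + 1) / 2 = i := by omega
  have e2 : (2 * i + 1 + 1) / 2 = i + 1 := by omega
  have key : ∀ a : Fin (K + 1), gOne g a m * ∑ t ∈ Finset.range (2 * (i + 1)),
      coef c α β t a m * ((q : ℚ) ^ expA P t m / p ^ expA P t m) =
      gOne g a m * ∑ t ∈ Finset.range (2 * i),
        coef c α β t a m * ((q : ℚ) ^ expA P t m / p ^ expA P t m) +
      (gOne g a m * (Fin.snoc (fun b => c i b m) (α i m) : Fin (K + 1) → ℚ) a) *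
        ((q : ℚ) ^ (P i m - P 0 m) / p ^ (P i m - P 0 m)) +
      (gOne g a m * (Fin.snoc (fun _ => 0) (β i m) : Fin (K + 1) → ℚ) a) *
        ((q : ℚ) ^ (P (i + 1) m - P 0 m) / p ^ (P (i + 1) m - P 0 m)) := by
    intro a
    rw [show 2 * (i + 1) = 2 * i + 1 + 1 by ring, Finset.sum_range_succ, Finset.sum_range_succ,
      ident_coef_even, ident_coef_odd]
    simp only [expA, e1, e2]
    ring
  unfold err
  rw [Finset.sum_congr rfl fun a _ => key a, Finset.sum_add_distrib, Finset.sum_add_distrib,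
    ← Finset.sum_mul, ← Finset.sum_mul, ident_sum_snoc, ident_sum_snoc]
  simp only [mul_zero, Finset.sum_const_zero, zero_add]
  ring

/-- By induction on `i`: the error of order `2 i` is `(q/p) ^ (P i - P 0) * y (P i)`. -/
theorem err_eq (hp : p ≠ 0) (h : Data p q y L g P c α β δ) (i : ℕ) :
    ∀ᶠ m in (hyperfilter ℕ : Filter ℕ),
      err p q (expA P) (coef c α β) (gOne g) (fun m => (y (P 0 m) : ℤ)) (2 * i) m =
        (q : ℚ) ^ (P i m - P 0 m) / p ^ (P i m - P 0 m) * (y (P i m) : ℤ) := by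
  induction i with
  | zero =>
    refine Eventually.of_forall fun m => ?_
    simp [err]
  | succ i ih =>
    filter_upwards [ih, h.rec_eq i, h.zero_le i, h.P_mono i] with m h1 h2 h3 h4
    rw [ident_err_step, h1]
    have e1 : P (i + 1) m - P 0 m = (P i m - P 0 m) + (P (i + 1) m - P i m) := by omega
    rw [e1, pow_add, pow_add]
    have hpQ : (p : ℚ) ≠ 0 := by exact_mod_cast hp
    have n1 : (p : ℚ) ^ (P i m - P 0 m) ≠ 0 := pow_ne_zero _ hpQ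
    have n2 : (p : ℚ) ^ (P (i + 1) m - P i m) ≠ 0 := pow_ne_zero _ hpQ
    rw [h2]
    field_simp
    ring

end Pool.Agent.Lib.MP_b27257_nt
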