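import Pool.Agent.Lib.MP_b27257_nt.Defs

/-!
The length of periodic pieces of the word.
-/

namespace Pool.Agent.Lib.MP_b27257_nt

open Filter Topology

variable {p q D : ℕ} {w y : ℕ → ℤ}

/-- A periodic piece of length `N` and period `r` which begins at position `i` has
`N ≤ C (i + r) + C`: `q ^ N` divides `y i - y (i + r) ≠ 0`, and the
absolute value of this difference is at most `2 * p ^ (i + r) * (|y 0| + D)`. -/
theorem run_bound (h : Orb p q D w y) :
    ∃ C : ℕ, ∀ i N r : ℕ, 0 < r →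
      (∀ t < N, w (i + t) = w (i + t + r)) → N ≤ C * (i + r) + C := by
  set K : ℕ := 2 * ((y 0).natAbs + D) with hK
  refine ⟨p + K, ?_⟩
  intro i N r hr hper
  have h1 : (q : ℤ) ^ N ∣ y i - y (i + r) := by
    apply h.dvd
    intro k hk
    rw [hper k hk]
    congr 1
    omega
  have hne : y i - y (i + r) ≠ 0 := by
    intro h0
    have := h.inj (show y i = y (i + r) by linarith)
    omega
  have h2 : (q : ℤ) ^ N ≤ |y i - y (i + r)| :=
    Int.le_of_dvd (abs_pos.mpr hne) ((dvd_abs _ _).mpr h1)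
  have h2' : (q : ℝ) ^ N ≤ |(y i : ℝ) - (y (i + r) : ℝ)| := by
    exact_mod_cast h2
  have hA := h.abs_le i
  have hB := h.abs_le (i + r)
  have hKr : 2 * (|(y 0 : ℝ)| + (D : ℝ)) = K := by
    rw [hK]
    push_cast
    rw [Nat.cast_natAbs]
    push_cast
    ring
  have hp1 : (1 : ℝ) ≤ p := by exact_mod_cast h.p_pos
  have h3 : (p : ℝ) ^ i ≤ p ^ (i + r) := pow_le_pow_right₀ hp1 (by omega)
  have h4 : |(y i : ℝ) - (y (i + r) : ℝ)| ≤ p ^ (i + r) * K := by
    have h5 := abs_sub (y i : ℝ) (y (i + r) : ℝ)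
    have h6 : (0 : ℝ) ≤ |(y 0 : ℝ)| + (D : ℝ) := by positivity
    have h7 : (p : ℝ) ^ i * (|(y 0 : ℝ)| + (D : ℝ)) ≤ p ^ (i + r) * (|(y 0 : ℝ)| + (D : ℝ)) :=
      mul_le_mul_of_nonneg_right h3 h6
    rw [← hKr]
    linarith
  have h8 : (2 : ℝ) ^ N ≤ 2 ^ (p * (i + r) + K) := by
    have h9 : (p : ℝ) ^ (i + r) ≤ 2 ^ (p * (i + r)) := by
      rw [pow_mul]
      refine pow_le_pow_left₀ (by linarith) ?_ _
      exact_mod_cast (Nat.lt_two_pow_self (n := p)).le
    have h10 : (K : ℝ) ≤ 2 ^ K := by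
      exact_mod_cast (Nat.lt_two_pow_self (n := K)).le
    have hq : (2 : ℝ) ≤ q := by exact_mod_cast h.one_lt
    rw [pow_add]
    calc (2 : ℝ) ^ N ≤ q ^ N := pow_le_pow_left₀ (by norm_num) hq _
      _ ≤ p ^ (i + r) * K := h2'.trans h4
      _ ≤ 2 ^ (p * (i + r)) * 2 ^ K := mul_le_mul h9 h10 (by positivity) (by positivity)
  have h11 : N ≤ p * (i + r) + K := (pow_le_pow_iff_right₀ (by norm_num : (1 : ℝ) < 2)).mp h8
  nlinarith [Nat.zero_le (K * (i + r))]

end Pool.Agent.Lib.MP_b27257_nt
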