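import Pool.Agent.Lib.MP_b27257_nt.BranchB
import Pool.Agent.Lib.MP_b27257_nt.GapA
import Pool.Agent.Lib.MP_b27257_nt.GapB
import Pool.Agent.Lib.MP_d0d59f_nt.LinRun
import Pool.Agent.Lib.MP_b27257_nt.RunBound
import Pool.Agent.Lib.MP_b27257_nt.Affine

/-!
The structure of the orbit at one level `n`.
-/

namespace Pool.Agent.Lib.MP_b27257_nt

open Filter Topology Pool.Agent.Lib.MP_d0d59f_nt.Auto

variable {p q D : ℕ} {w y : ℕ → ℤ}

/-- the structure of the orbit at level `n`: positions `jt`, types `ty` of the blocks -/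
structure Level (p q : ℕ) (w y : ℕ → ℤ) (K R : ℕ) (C : ℕ) (B : ℝ) (n : ℕ) (jt : ℕ → ℕ)
    (ty : ℕ → Fin K) : Prop where
  mono : StrictMono jt
  zero_le : jt 0 ≤ R * n
  gap : ∀ k, jt (k + 1) ≤ jt k + R * n
  len_eq : ∀ k k', ty k = ty k' → jt (k + 1) - jt k = jt (k' + 1) - jt k'
  gval_eq : ∀ k k', ty k = ty k' →
    gval p q w (jt k) (jt (k + 1) - jt k) = gval p q w (jt k') (jt (k' + 1) - jt k')
  run_le : ∀ ε k k', (3 * R + 3) * ε ≤ n → k ≤ k' →
    (∀ i, k ≤ i → i < k' → jt (i + 1) ≤ jt i + ε) → jt k' ≤ C * (jt k + n) + C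
  run_form : ∀ ε k k', (3 * R + 3) * ε ≤ n → k ≤ k' →
    (∀ i, k ≤ i → i < k' → jt (i + 1) ≤ jt i + ε) →
    ∃ α β : ℚ, (ht α : ℝ) ≤ B ^ (R * ε + 1) ∧ (ht β : ℝ) ≤ B ^ (R * ε + 1) ∧
      (y (jt k) : ℚ) = α + (q : ℚ) ^ (jt k' - jt k) / p ^ (jt k' - jt k) *
        (β + (y (jt k') : ℤ))

theorem level_add_le {jt : ℕ → ℕ} {ε k : ℕ} (m : ℕ)
    (h : ∀ i, k ≤ i → i < k + m → jt (i + 1) ≤ jt i + ε) : jt (k + m) ≤ jt k + m * ε := by
  induction m with
  | zero => simp
  | succ m ih =>
    have h1 := ih fun i hi hi' => h i hi (by omega)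
    have h2 := h (k + m) (by omega) (by omega)
    rw [show k + (m + 1) = k + m + 1 by ring]
    have h3 : (m + 1) * ε = m * ε + ε := by ring
    omega

theorem level_jt_le {jt : ℕ → ℕ} {ε k a k' R : ℕ} (hka : k ≤ a) (haR : a ≤ k + R) (hak : a ≤ k')
    (h : ∀ i, k ≤ i → i < k' → jt (i + 1) ≤ jt i + ε) : jt a ≤ jt k + R * ε := by
  obtain ⟨m, rfl⟩ := Nat.exists_eq_add_of_le hka
  have h1 := level_add_le (jt := jt) (ε := ε) (k := k) m fun i hi hi' => h i hi (by omega)
  have h2 : m * ε ≤ R * ε := Nat.mul_le_mul_right _ (by omega)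
  omega

theorem exists_level (ho : Orb p q D w y) (R : ℕ) : ∃ (C : ℕ) (B : ℝ), 1 ≤ B ∧
    ∀ n, (branchSet w n).ncard ≤ R → complexity w n ≤ R * n →
      ∃ jt ty, Level p q w y ((2 * D + 1) * R + 1) R C B n jt ty := by
  obtain ⟨C₀, hC₀⟩ := run_bound ho
  obtain ⟨B₁, hB₁, haff⟩ := affine_periodic ho
  have hp1 : (1 : ℝ) ≤ p := by exact_mod_cast ho.p_pos
  set E : ℝ := (D : ℝ) + 1 with hE
  have hE1 : 1 ≤ E := by
    have : (0 : ℝ) ≤ D := Nat.cast_nonneg _
    linarith
  have hp2 : (1 : ℝ) ≤ (p : ℝ) ^ 2 := one_le_pow₀ hp1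
  have hEp : (1 : ℝ) ≤ E * p ^ 2 := by nlinarith
  have hEpB : (1 : ℝ) ≤ E * p ^ 2 * B₁ := by nlinarith
  have hBB : (1 : ℝ) ≤ 2 * E * p ^ 2 * B₁ := by nlinarith
  refine ⟨C₀ + 1, 2 * E * p ^ 2 * B₁, hBB, ?_⟩
  intro n hR hcn
  obtain ⟨jt, hmono, hbr, hnb, hz, hgap⟩ := exists_positions ho n
  obtain ⟨ty0, hty0⟩ := exists_types ho.w_le hR
  have hblock : ∀ k k', ty0 (jt k) = ty0 (jt k') → _ := fun k k' h =>
    block_eq hmono hbr hnb (hty0 _ _ (hbr k) (hbr k') h)
  have hrep := exists_same_branch ho.w_le hR hbr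
  refine ⟨jt, fun k => ty0 (jt k), ⟨hmono, hz.trans hcn, fun k => (hgap k).trans (by omega),
    fun k k' h => (hblock k k' h).1, ?_, ?_, ?_⟩⟩
  · intro k k' h
    obtain ⟨h1, h2⟩ := hblock k k' h
    rw [← h1]
    exact gval_congr _ h2
  · intro ε k k' hε hkk hshort
    have h0 : (3 * R + 3) * ε = 3 * (R * ε) + 3 * ε := by ring
    rcases lt_or_ge k' (k + R) with hlt | hge
    · have h1 := level_jt_le (R := R) hkk (by omega) le_rfl hshort
      nlinarith [Nat.zero_le (C₀ * (jt k + n))]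
    · obtain ⟨a, r, hka, haR, hr, hrR, hper⟩ :=
        Pool.Agent.Lib.MP_d0d59f_nt.Lin.run_periodic (w := w) hmono hrep hε hge hshort
      have hak : a ≤ k' := by omega
      have h1 := level_jt_le (R := R) hka haR hak hshort
      have h2 := hC₀ (jt a) (jt k' - jt a) r hr (by
        intro t ht
        exact hper (jt a + t) (by omega) (by omega))
      have h3 : jt a ≤ jt k' := hmono.monotone hak
      have h4 : C₀ * (jt a + r) ≤ C₀ * (jt k + n) := Nat.mul_le_mul_left _ (by omega)
      have h5 : (C₀ + 1) * (jt k + n) = C₀ * (jt k + n) + (jt k + n) := by ring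
      omega
  · intro ε k k' hε hkk hshort
    have h0 : (3 * R + 3) * ε = 3 * (R * ε) + 3 * ε := by ring
    rcases lt_or_ge k' (k + R) with hlt | hge
    · have h1 := level_jt_le (R := R) hkk (by omega) le_rfl hshort
      have h3 : jt k ≤ jt k' := hmono.monotone hkk
      refine ⟨gval p q w (jt k) (jt k' - jt k), 0, ?_, ?_, ?_⟩
      · refine (ho.ht_gval_le _ _).trans ?_
        rw [← hE]
        calc E * (p : ℝ) ^ (jt k' - jt k) ≤ E * p ^ (R * ε) := by
              gcongr
              omega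
          _ ≤ E ^ (R * ε + 1) * p ^ (R * ε + 1) := by
              gcongr
              · exact le_self_pow₀ hE1 (by omega)
              · omega
          _ = (E * p) ^ (R * ε + 1) := by rw [mul_pow]
          _ ≤ (2 * E * p ^ 2 * B₁) ^ (R * ε + 1) := by
              refine pow_le_pow_left₀ (by positivity) ?_ _
              have e1 : E * (p : ℝ) ≤ E * p ^ 2 := by
                refine mul_le_mul_of_nonneg_left ?_ (by linarith)
                nlinarith
              have e2 : E * (p : ℝ) ^ 2 ≤ E * p ^ 2 * B₁ := by nlinarith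
              nlinarith
      · rw [ah_zero]
        push_cast
        exact one_le_pow₀ hBB
      · have h4 := ho.gval_eq (jt k) (jt k' - jt k)
        have h5 : jt k + (jt k' - jt k) = jt k' := by omega
        rw [h5] at h4
        rw [h4]
        ring
    · obtain ⟨a, r, hka, haR, hr, hrR, hper⟩ :=
        Pool.Agent.Lib.MP_d0d59f_nt.Lin.run_periodic (w := w) hmono hrep hε hge hshort
      have hak : a ≤ k' := by omega
      have h1 := level_jt_le (R := R) hka haR hak hshort
      have h3 : jt a ≤ jt k' := hmono.monotone hak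
      have h6 : jt k ≤ jt a := hmono.monotone hka
      obtain ⟨α', β, hα', hβ, hform⟩ := haff (jt a) (jt k' - jt a) r hr (by
        intro t ht
        exact hper (jt a + t) (by omega) (by omega))
      set L := jt a - jt k with hL
      have hLR : L ≤ R * ε := by omega
      have hT : jt k + L = jt a := by omega
      have hT' : jt a + (jt k' - jt a) = jt k' := by omega
      have hB₁p : B₁ ^ r ≤ B₁ ^ (R * ε + 1) := pow_le_pow_right₀ hB₁ (by omega)
      refine ⟨gval p q w (jt k) L + (q : ℚ) ^ L / p ^ L * α', β, ?_, ?_, ?_⟩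
      · have e1 : (ht (gval p q w (jt k) L + (q : ℚ) ^ L / p ^ L * α') : ℝ) ≤
            2 * (ht (gval p q w (jt k) L) * (ht ((q : ℚ) ^ L / p ^ L) * ht α')) := by
          have := ht_add_le (gval p q w (jt k) L) ((q : ℚ) ^ L / p ^ L * α')
          have h' := ht_mul_le ((q : ℚ) ^ L / p ^ L) α'
          have : ht (gval p q w (jt k) L + (q : ℚ) ^ L / p ^ L * α') ≤
            2 * (ht (gval p q w (jt k) L) * (ht ((q : ℚ) ^ L / p ^ L) * ht α')) := by
            refine this.trans ?_
            gcongr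
          exact_mod_cast this
        have e2 := ho.ht_gval_le (jt k) L
        have e3 := ho.ht_pow L
        rw [← hE] at e2
        calc (ht (gval p q w (jt k) L + (q : ℚ) ^ L / p ^ L * α') : ℝ)
            ≤ 2 * (ht (gval p q w (jt k) L) * (ht ((q : ℚ) ^ L / p ^ L) * ht α')) := e1
          _ ≤ 2 * ((E * p ^ (R * ε)) * (p ^ (R * ε) * B₁ ^ (R * ε + 1))) := by
              gcongr
              · exact e2.trans (by gcongr)
              · exact e3.trans (by gcongr)
              · exact hα'.trans hB₁p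
          _ = (2 * E) * ((p ^ 2) ^ (R * ε) * B₁ ^ (R * ε + 1)) := by
              rw [show ((p : ℝ) ^ 2) = p * p by ring, mul_pow]
              ring
          _ ≤ (2 * E) ^ (R * ε + 1) * ((p ^ 2) ^ (R * ε + 1) * B₁ ^ (R * ε + 1)) := by
              gcongr
              · exact le_self_pow₀ (by linarith) (by omega)
              · omega
          _ = (2 * E * p ^ 2 * B₁) ^ (R * ε + 1) := by
              rw [← mul_pow, ← mul_pow]
              congr 1
              ring
      · refine (hβ.trans hB₁p).trans ?_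
        refine pow_le_pow_left₀ (by linarith) ?_ _
        nlinarith
      · have h4 := ho.gval_eq (jt k) L
        rw [hT] at h4
        rw [hT'] at hform
        have h7 : jt k' - jt k = L + (jt k' - jt a) := by omega
        rw [h7, pow_add, pow_add]
        rw [h4]
        have h8 : (y (jt k) : ℚ) = y (jt k) - (q : ℚ) ^ L / p ^ L * ((y (jt a) : ℤ) : ℚ) +
          (q : ℚ) ^ L / p ^ L * ((y (jt a) : ℤ) : ℚ) := by ring
        rw [h8]
        nth_rewrite 3 [hform]
        have hpQ : (p : ℚ) ≠ 0 := by exact_mod_cast ho.p_pos.ne'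
        have h9 : (p : ℚ) ^ L ≠ 0 := pow_ne_zero _ hpQ
        have h10 : (p : ℚ) ^ (jt k' - jt a) ≠ 0 := pow_ne_zero _ hpQ
        field_simp
        ring

end Pool.Agent.Lib.MP_b27257_nt
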