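import Pool.Agent.Lib.MP_d0d59f_nt.AutoRk

/-!
Transfer of slope inequalities along simple field extensions; values in a commutative ring.
-/

namespace Pool.Agent.Lib.MP_b27257_nt

open Module Polynomial

open Pool.Agent.Lib.MP_d0d59f_nt.Auto (rk_indep_pow rk_common_denom)

/-- dimension of the span of a finite family over the field `F` acting through `j` -/
noncomputable def rk {F Ω : Type*} [Field F] [CommRing Ω] (j : F →+* Ω) {n : ℕ} (v : Fin n → Ω) : ℕ :=
  letI := j.toAlgebra
  finrank F (Submodule.span F (Set.range v))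

/-- slope inequality: families of `L` which are independent over `A` have values of large rank -/
def SlopeIneq {L F Ω : Type*} [Field L] [Field F] [CommRing Ω] (A : Subfield L) (j : F →+* Ω)
    (e : L →+* Ω) (w : ℝ) : Prop :=
  ∀ (n : ℕ) (G : Fin n → L), LinearIndependent A G → w * n ≤ rk j (fun l => e (G l))

variable {L F F' Ω : Type*} [Field L] [Field F] [Field F'] [CommRing Ω] [Nontrivial Ω]

/-- upper bound for the rank of a family contained, up to a factor, in the span of a family -/
theorem rk_le_card (j : F →+* Ω) {n : ℕ} (v : Fin n → Ω) {σ : Type*} [Fintype σ] (u : σ → Ω)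
    (c : Ω) (hc : IsUnit c) (h : ∀ k, ∃ a : σ → F, c * v k = ∑ s, j (a s) * u s) :
    rk j v ≤ Fintype.card σ := by
  let := j.toAlgebra
  show finrank F (Submodule.span F (Set.range v)) ≤ _
  have hfu : FiniteDimensional F (Submodule.span F (Set.range u)) :=
    FiniteDimensional.span_of_finite F (Set.finite_range u)
  have h1 : (Submodule.span F (Set.range v)).map (LinearMap.mulLeft F c) ≤
      Submodule.span F (Set.range u) := by
    rw [Submodule.map_span, Submodule.span_le]
    rintro _ ⟨_, ⟨k, rfl⟩, rfl⟩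
    obtain ⟨a, ha⟩ := h k
    rw [SetLike.mem_coe, LinearMap.mulLeft_apply, ha]
    refine Submodule.sum_mem _ fun s _ => ?_
    have : j (a s) * u s = a s • u s := (Algebra.smul_def (a s) (u s)).symm
    rw [this]
    exact Submodule.smul_mem _ _ (Submodule.subset_span ⟨s, rfl⟩)
  have hinj : Function.Injective (LinearMap.mulLeft F c) := by
    intro x y hxy
    exact hc.mul_left_cancel hxy
  calc finrank F (Submodule.span F (Set.range v))
      = finrank F ((Submodule.span F (Set.range v)).map (LinearMap.mulLeft F c)) :=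
        (LinearEquiv.finrank_eq (Submodule.equivMapOfInjective _ hinj _))
    _ ≤ finrank F (Submodule.span F (Set.range u)) := Submodule.finrank_mono h1
    _ ≤ Fintype.card σ := finrank_range_le_card u

/-- a family is expressed by `rk` elements -/
theorem rk_exists_repr (j : F →+* Ω) {n : ℕ} (v : Fin n → Ω) :
    ∃ (b : Fin (rk j v) → Ω) (z : Fin n → Fin (rk j v) → F), ∀ k, v k = ∑ l, j (z k l) * b l := by
  let := j.toAlgebra
  have hf : FiniteDimensional F (Submodule.span F (Set.range v)) :=
    FiniteDimensional.span_of_finite F (Set.finite_range v)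
  let B : Basis (Fin (rk j v)) F (Submodule.span F (Set.range v)) :=
    Module.finBasis F (Submodule.span F (Set.range v))
  refine ⟨fun l => (B l : Ω), fun k l => B.repr ⟨v k, Submodule.subset_span ⟨k, rfl⟩⟩ l, fun k => ?_⟩
  have h := congrArg (Submodule.subtype _)
    (B.sum_repr ⟨v k, Submodule.subset_span ⟨k, rfl⟩⟩)
  rw [map_sum] at h
  simp only [map_smul, Submodule.subtype_apply] at h
  rw [← h]
  refine Finset.sum_congr rfl fun l _ => ?_
  exact Algebra.smul_def _ _

/-- the value of a transcendental element is transcendental -/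
theorem value_transcendental {A : Subfield L} {j : F →+* Ω} {e : L →+* Ω} {w : ℝ} (hw : 0 < w)
    (hs : SlopeIneq A j e w) {f : L} (hf : Transcendental A f) (p : F[X])
    (hp : p.eval₂ j (e f) = 0) : p = 0 := by
  by_contra hp0
  obtain ⟨N, hN⟩ := exists_nat_gt ((p.natDegree : ℝ) / w)
  have hind : LinearIndependent A fun i : Fin N => f ^ (i : ℕ) := by
    have h1 : LinearIndependent A fun x : Fin N × Fin 1 => f ^ (x.1 : ℕ) * (1 : L) := by
      have h2 : LinearIndependent (⊤ : Subfield L) fun _ : Fin 1 => (1 : L) := by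
        rw [Fintype.linearIndependent_iff]
        intro g hg i
        rw [Fin.sum_univ_one, Subfield.smul_def, smul_eq_mul, mul_one] at hg
        rw [Subsingleton.elim i 0]
        exact Subtype.ext hg
      exact rk_indep_pow hf (A' := ⊤) le_top (Subfield.mem_top f) h2 N
    have h3 := h1.comp (fun i : Fin N => (i, (0 : Fin 1)))
      (fun a b hab => by simpa using hab)
    simpa [Function.comp_def] using h3
  have h1 := hs N _ hind
  have h2 : rk j (fun l : Fin N => e (f ^ (l : ℕ))) ≤ p.natDegree := by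
    have h3 := rk_le_card j (fun l : Fin N => e (f ^ (l : ℕ)))
      (fun s : Fin p.natDegree => (e f) ^ (s : ℕ)) 1 isUnit_one ?_
    · simpa using h3
    · intro k
      have hdeg : 0 < p.natDegree := by
        rcases Nat.eq_zero_or_pos p.natDegree with h0 | h0
        · exfalso
          rw [natDegree_eq_zero] at h0
          obtain ⟨c, rfl⟩ := h0
          rw [eval₂_C, map_eq_zero] at hp
          exact hp0 (by rw [hp, C_0])
        · exact h0
      refine ⟨fun s => ((X : F[X]) ^ (k : ℕ) % p).coeff s, ?_⟩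
      have hd : ((X : F[X]) ^ (k : ℕ) % p).natDegree < p.natDegree := by
        by_cases hz : (X : F[X]) ^ (k : ℕ) % p = 0
        · rw [hz, natDegree_zero]; exact hdeg
        · exact natDegree_lt_natDegree hz (EuclideanDomain.mod_lt _ hp0)
      have h5 : eval₂ j (e f) ((X : F[X]) ^ (k : ℕ) % p) = (e f) ^ (k : ℕ) := by
        have h6 := congrArg (eval₂ j (e f)) (EuclideanDomain.div_add_mod ((X : F[X]) ^ (k : ℕ)) p)
        rw [eval₂_add, eval₂_mul, hp, zero_mul, zero_add, eval₂_X_pow] at h6
        exact h6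
      rw [one_mul, map_pow, ← h5, eval₂_eq_sum_range' j hd, Finset.sum_range]
  have h3 : w * N ≤ p.natDegree := h1.trans (by exact_mod_cast h2)
  rw [div_lt_iff₀ hw] at hN
  linarith

/-- the slope inequality over `A(f)`, `f` transcendental -/
theorem slope_transcendental {A : Subfield L} {j : F →+* Ω} {e : L →+* Ω} {w : ℝ}
    (hs : SlopeIneq A j e w) {f : L} (hf : Transcendental A f)
    (ι : F →+* F') (j' : F' →+* Ω) (hι : ∀ z, j' (ι z) = j z) (x' : F') (hx' : j' x' = e f)
    (hgen : ∀ z : F', ∃ p q : F[X], q.eval₂ ι x' ≠ 0 ∧ z * q.eval₂ ι x' = p.eval₂ ι x')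
    (A' : Subfield L) (hA : A ≤ A') (hfA : f ∈ A') : SlopeIneq A' j' e w := by
  intro n G hG
  obtain ⟨s, hsdef, b, z, hz⟩ : ∃ s, rk j' (fun l => e (G l)) = s ∧
      ∃ (b : Fin s → Ω) (z : Fin n → Fin s → F'), ∀ k, e (G k) = ∑ l, j' (z k l) * b l :=
    ⟨_, rfl, rk_exists_repr j' (fun l => e (G l))⟩
  rw [hsdef]
  obtain ⟨Q, P, hQ, hP⟩ := rk_common_denom ι x' hgen (fun t : Fin n × Fin s => z t.1 t.2)
  set D := (Finset.univ.sup fun t => (P t).natDegree) + 1 with hD
  have hPD : ∀ t, (P t).natDegree < D := fun t =>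
    Nat.lt_succ_of_le (Finset.le_sup (f := fun t => (P t).natDegree) (Finset.mem_univ t))
  have hev : ∀ r : F[X], j' (r.eval₂ ι x') = r.eval₂ j (e f) := by
    intro r
    rw [hom_eval₂, hx']
    congr 1
    ext y
    exact hι y
  have main : ∀ N : ℕ, w * ((N * n : ℕ) : ℝ) ≤ ((N + D) * s : ℕ) := by
    intro N
    have h1 := (rk_indep_pow hf hA hfA hG N).comp (finProdFinEquiv (m := N) (n := n)).symm
      (finProdFinEquiv (m := N) (n := n)).symm.injective
    have h2 := hs (N * n) _ h1
    refine h2.trans ?_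
    have h3 := rk_le_card j (fun l => e (((fun x : Fin N × Fin n => f ^ (x.1 : ℕ) * G x.2) ∘
      (finProdFinEquiv (m := N) (n := n)).symm) l))
      (fun t : Fin (N + D) × Fin s => (e f) ^ (t.1 : ℕ) * b t.2) (j' (Q.eval₂ ι x'))
      ((isUnit_iff_ne_zero.mpr hQ).map j') ?_
    · rw [Fintype.card_prod, Fintype.card_fin, Fintype.card_fin] at h3
      exact_mod_cast h3
    · intro t
      obtain ⟨⟨i, k⟩, rfl⟩ := (finProdFinEquiv (m := N) (n := n)).surjective t
      refine ⟨fun m => ((X : F[X]) ^ (i : ℕ) * P (k, m.2)).coeff m.1, ?_⟩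
      simp only [Function.comp_apply, Equiv.symm_apply_apply]
      rw [map_mul, map_pow, hz k, Fintype.sum_prod_type_right, Finset.mul_sum, Finset.mul_sum]
      refine Finset.sum_congr rfl fun l _ => ?_
      have hdeg : ((X : F[X]) ^ (i : ℕ) * P (k, l)).natDegree < N + D := by
        refine lt_of_le_of_lt natDegree_mul_le ?_
        have h4 := hPD (k, l)
        have h5 := i.2
        rw [natDegree_X_pow]
        omega
      have h6 : ((X : F[X]) ^ (i : ℕ) * P (k, l)).eval₂ j (e f) =
          (e f) ^ (i : ℕ) * j' (z k l * Q.eval₂ ι x') := by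
        rw [eval₂_mul, eval₂_X_pow, ← hev (P (k, l)), hP (k, l)]
      have h7 : ∑ m : Fin (N + D), j (((X : F[X]) ^ (i : ℕ) * P (k, l)).coeff m) *
          ((e f) ^ (m : ℕ) * b l) = ((X : F[X]) ^ (i : ℕ) * P (k, l)).eval₂ j (e f) * b l := by
        rw [eval₂_eq_sum_range' j hdeg, Finset.sum_range, Finset.sum_mul]
        refine Finset.sum_congr rfl fun m _ => ?_
        rw [mul_assoc]
      rw [h7, h6, map_mul]
      ring
  by_contra hlt
  push Not at hlt
  obtain ⟨N, hN⟩ := exists_nat_gt ((D : ℝ) * s / (w * n - s))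
  have hpos : 0 < w * n - s := by linarith
  rw [div_lt_iff₀ hpos] at hN
  have := main N
  push_cast at this
  nlinarith


/-- `rk` is at most the cardinality of a family which spans the values -/
theorem rk_le_card_alg (j : F →+* Ω) {n : ℕ} (v : Fin n → Ω) {κ : Type*} [Fintype κ] (b : κ → Ω)
    (h : ∀ l, ∃ c : κ → F, v l = ∑ m, j (c m) * b m) : rk j v ≤ Fintype.card κ := by
  let _ := j.toAlgebra
  have h1 : Submodule.span F (Set.range v) ≤ Submodule.span F (Set.range b) := by
    rw [Submodule.span_le]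
    rintro _ ⟨l, rfl⟩
    obtain ⟨c, hc⟩ := h l
    rw [hc]
    refine Submodule.sum_mem _ fun m _ => ?_
    have h2 : j (c m) * b m = c m • b m := (Algebra.smul_def (c m) (b m)).symm
    rw [h2]
    exact Submodule.smul_mem _ _ (Submodule.subset_span ⟨m, rfl⟩)
  have h3 : FiniteDimensional F (Submodule.span F (Set.range b)) :=
    FiniteDimensional.span_of_finite F (Set.finite_range b)
  exact (Submodule.finrank_mono h1).trans (finrank_range_le_card b)

/-- a basis of the span of the values -/
theorem exists_rk_basis_alg (j : F →+* Ω) {n : ℕ} (v : Fin n → Ω) :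
    ∃ b : Fin (rk j v) → Ω, ∀ l, ∃ c : Fin (rk j v) → F, v l = ∑ m, j (c m) * b m := by
  let _ := j.toAlgebra
  have h3 : FiniteDimensional F (Submodule.span F (Set.range v)) :=
    FiniteDimensional.span_of_finite F (Set.finite_range v)
  let B := finBasis F (Submodule.span F (Set.range v))
  refine ⟨fun m => (B m : Ω), fun l => ⟨fun m => B.repr ⟨v l, Submodule.subset_span ⟨l, rfl⟩⟩ m, ?_⟩⟩
  have h4 := congrArg (fun z : Submodule.span F (Set.range v) => (z : Ω))
    (B.sum_repr ⟨v l, Submodule.subset_span ⟨l, rfl⟩⟩)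
  simp only [Submodule.coe_sum, Submodule.coe_smul] at h4
  refine h4.symm.trans ?_
  exact Finset.sum_congr rfl fun m _ => Algebra.smul_def _ _

/-- the value of a polynomial of degree less than `N` -/
theorem eval₂_eq_sum_fin (j : F →+* Ω) (y : Ω) (p : F[X]) {N : ℕ} (hp : p.natDegree < N) :
    p.eval₂ j y = ∑ m : Fin N, j (p.coeff m) * y ^ (m : ℕ) := by
  rw [eval₂_eq_sum_range' j hp y, Finset.sum_range fun m => j (p.coeff m) * y ^ m]

/-- the degree of the value of an algebraic element -/
theorem value_degree {A : Subfield L} {i : A →+* F} {j : F →+* Ω} {e : L →+* Ω} {w : ℝ}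
    (hij : ∀ a, j (i a) = e a) (hs : SlopeIneq A j e w) {f : L} (hf : IsIntegral A f)
    (μ : F[X]) (hμ : μ.Monic) (hμ0 : μ.eval₂ j (e f) = 0) :
    w * (minpoly A f).natDegree ≤ μ.natDegree := by
  have h1 := hs _ _ (linearIndependent_pow (K := A) f)
  refine h1.trans ?_
  have hμ1 : μ ≠ 1 := by
    rintro rfl
    rw [eval₂_one] at hμ0
    exact one_ne_zero hμ0
  have h2 : rk j (fun l : Fin (minpoly A f).natDegree => e (f ^ (l : ℕ))) ≤
      Fintype.card (Fin μ.natDegree) := by
    refine rk_le_card_alg j _ (fun m : Fin μ.natDegree => e f ^ (m : ℕ)) fun l => ?_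
    refine ⟨fun m => (X ^ (l : ℕ) %ₘ μ : F[X]).coeff m, ?_⟩
    rw [← eval₂_eq_sum_fin j (e f) _ (natDegree_modByMonic_lt _ hμ hμ1)]
    have h3 := congrArg (eval₂ j (e f)) (modByMonic_add_div (X ^ (l : ℕ) : F[X]) μ)
    rw [eval₂_add, eval₂_mul, hμ0, zero_mul, add_zero, eval₂_X_pow] at h3
    rw [h3, map_pow]
  rw [Fintype.card_fin] at h2
  exact_mod_cast h2

/-- the slope inequality over `A(f)`, `f` algebraic -/
theorem slope_algebraic {A : Subfield L} {j : F →+* Ω} {e : L →+* Ω} {w : ℝ}
    (hs : SlopeIneq A j e w) {f : L} (hf : IsIntegral A f)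
    (ι : F →+* F') (j' : F' →+* Ω) (hι : ∀ z, j' (ι z) = j z) (x' : F') (hx' : j' x' = e f)
    (hgen : ∀ z : F', ∃ p : F[X], p.natDegree < (minpoly A f).natDegree ∧ z = p.eval₂ ι x')
    (A' : Subfield L) (hA : A ≤ A') (hfA : f ∈ A') : SlopeIneq A' j' e w := by
  intro n G hG
  set δ := (minpoly A f).natDegree with hδ
  have hδ0 : 0 < δ := minpoly.natDegree_pos hf
  -- the products are independent over `A`
  have hind : LinearIndependent A (fun p : Fin δ × Fin n => f ^ (p.1 : ℕ) * G p.2) := by
    rw [Fintype.linearIndependent_iff]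
    intro a ha
    rw [Fintype.linearIndependent_iff] at hG
    have hpow := linearIndependent_pow (K := A) f
    rw [Fintype.linearIndependent_iff] at hpow
    have hmem : ∀ k : Fin n, ∑ i : Fin δ, (a (i, k) : L) * f ^ (i : ℕ) ∈ A' := fun k =>
      A'.sum_mem fun i _ => A'.mul_mem (hA (a (i, k)).2) (A'.pow_mem hfA _)
    have h1 := hG (fun k => ⟨∑ i : Fin δ, (a (i, k) : L) * f ^ (i : ℕ), hmem k⟩) (by
      rw [← ha, Fintype.sum_prod_type_right]
      refine Finset.sum_congr rfl fun k _ => ?_
      rw [Subfield.smul_def, smul_eq_mul, Finset.sum_mul]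
      refine Finset.sum_congr rfl fun i _ => ?_
      rw [Subfield.smul_def, smul_eq_mul]
      ring)
    rintro ⟨i, k⟩
    have h2 := congrArg Subtype.val (h1 k)
    refine hpow (fun i => a (i, k)) ?_ i
    refine Eq.trans ?_ (h2.trans (ZeroMemClass.coe_zero A'))
    exact Finset.sum_congr rfl fun i _ => by rw [Subfield.smul_def, smul_eq_mul]
  -- slope inequality over `A`
  have hind' : LinearIndependent A
      (fun l : Fin (δ * n) => f ^ ((finProdFinEquiv.symm l).1 : ℕ) * G (finProdFinEquiv.symm l).2) :=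
    hind.comp _ finProdFinEquiv.symm.injective
  have h1 := hs _ _ hind'
  -- upper bound
  obtain ⟨b, hb⟩ := exists_rk_basis_alg j' (fun l => e (G l))
  have h2 : rk j (fun l : Fin (δ * n) =>
      e (f ^ ((finProdFinEquiv.symm l).1 : ℕ) * G (finProdFinEquiv.symm l).2)) ≤
      Fintype.card (Fin δ × Fin (rk j' (fun l => e (G l)))) := by
    refine rk_le_card_alg j _ (fun m => e f ^ (m.1 : ℕ) * b m.2) fun l => ?_
    obtain ⟨c, hc⟩ := hb (finProdFinEquiv.symm l).2
    choose p hp1 hp2 using fun m => hgen (x' ^ ((finProdFinEquiv.symm l).1 : ℕ) * c m)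
    refine ⟨fun m => (p m.2).coeff m.1, ?_⟩
    rw [map_mul, hc, Finset.mul_sum, Fintype.sum_prod_type_right]
    refine Finset.sum_congr rfl fun m _ => ?_
    have h3 := congrArg j' (hp2 m)
    rw [map_mul, map_pow, hx', hom_eval₂, hx'] at h3
    have h4 : j'.comp ι = j := RingHom.ext fun z => hι z
    rw [h4, eval₂_eq_sum_fin j (e f) _ (hp1 m)] at h3
    rw [map_pow, ← mul_assoc, h3, Finset.sum_mul]
    exact Finset.sum_congr rfl fun i _ => by ring
  rw [Fintype.card_prod, Fintype.card_fin, Fintype.card_fin] at h2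
  have h3 : w * ((δ * n : ℕ) : ℝ) ≤ ((δ * rk j' (fun l => e (G l)) : ℕ) : ℝ) :=
    h1.trans (by exact_mod_cast h2)
  push_cast at h3
  have h4 : (0 : ℝ) < δ := by exact_mod_cast hδ0
  have h5 : (δ : ℝ) * (w * n) ≤ δ * (rk j' (fun l => e (G l)) : ℕ) := by
    calc (δ : ℝ) * (w * n) = w * (δ * n) := by ring
      _ ≤ _ := h3
  exact le_of_mul_le_mul_left h5 h4

end Pool.Agent.Lib.MP_b27257_nt
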