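import Pool.Agent.Lib.MP_b27257_nt.Rk
import Pool.Agent.Lib.MP_d0d59f_nt.AutoStep

/-!
Adjoining one element to a stage, for a finite family of places.
-/

namespace Pool.Agent.Lib.MP_b27257_nt

open Module Polynomial

open Pool.Agent.Lib.MP_d0d59f_nt.Auto (exists_ratFunc_lift exists_minpoly)

variable {ι : Type} {𝕂 L : Type} {Ω : ι → Type} [Field 𝕂] [Field L] [∀ i, Field (Ω i)]

/-- the values at the places of `V` -/
def onV {F : Type} [Field F] (V : Finset ι) (j : ∀ i, F →+* Ω i) : F →+* (∀ i : V, Ω i) :=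
  Pi.ringHom fun i : V => j i

theorem onV_apply {F : Type} [Field F] (V : Finset ι) (j : ∀ i, F →+* Ω i) (z : F) (i : V) :
    onV V j z i = j i z := rfl

theorem onV_nontrivial {V : Finset ι} (hV : V.Nonempty) : Nontrivial (∀ i : V, Ω i) := by
  obtain ⟨v, hv⟩ := hV
  exact ⟨⟨0, 1, fun h => zero_ne_one (congrFun h ⟨v, hv⟩ : (0 : Ω v) = 1)⟩⟩

theorem onV_eval₂ {F : Type} [Field F] (V : Finset ι) (j : ∀ i, F →+* Ω i) (e : ∀ i, L →+* Ω i)
    (p : F[X]) (f : L) : p.eval₂ (onV V j) (onV V e f) = fun i : V => p.eval₂ (j i) (e i f) := by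
  funext i
  have h := hom_eval₂ p (onV V j) (Pi.evalRingHom (fun i : V => Ω i) i) (onV V e f)
  exact h

/-- there is a field `F` containing `𝕂` and `A` which embeds, compatibly with the values of the elements
of `A`, into all `Ω i`, and the slope inequalities hold over `A` for all sets of places -/
def IsStage (e : ∀ i, L →+* Ω i) (k : ∀ i, 𝕂 →+* Ω i) (w : ι → ℝ) (A : Subfield L) : Prop :=
  ∃ (F : Type) (_ : Field F) (j : ∀ i, F →+* Ω i) (i : A →+* F) (k' : 𝕂 →+* F),
    (∀ v a, j v (i a) = e v a) ∧ (∀ v z, j v (k' z) = k v z) ∧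
    ∀ V : Finset ι, V.Nonempty → SlopeIneq A (onV V j) (onV V e) (∑ v ∈ V, w v)

variable {e : ∀ i, L →+* Ω i} {k : ∀ i, 𝕂 →+* Ω i} {w : ι → ℝ}

/-- extension of an embedding of `A` to `A(f)` -/
theorem exists_extend [Nonempty ι] {F' : Type} [Field F'] {A : Subfield L} (f : L) (i : A →+* F')
    (j : ∀ v, F' →+* Ω v) (h : ∀ v a, j v (i a) = e v a) (x : F') (hx : ∀ v, j v x = e v f) :
    ∃ i' : (A ⊔ Subfield.closure {f} : Subfield L) →+* F', ∀ v a, j v (i' a) = e v a := by
  let S : Subfield L :=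
    { carrier := {a | ∃ z : F', ∀ v, j v z = e v a}
      mul_mem' := by
        rintro a b ⟨z, hz⟩ ⟨y, hy⟩
        exact ⟨z * y, fun v => by rw [map_mul, map_mul, hz, hy]⟩
      one_mem' := ⟨1, fun v => by rw [map_one, map_one]⟩
      add_mem' := by
        rintro a b ⟨z, hz⟩ ⟨y, hy⟩
        exact ⟨z + y, fun v => by rw [map_add, map_add, hz, hy]⟩
      zero_mem' := ⟨0, fun v => by rw [map_zero, map_zero]⟩
      neg_mem' := by
        rintro a ⟨z, hz⟩
        exact ⟨-z, fun v => by rw [map_neg, map_neg, hz]⟩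
      inv_mem' := by
        rintro a ⟨z, hz⟩
        exact ⟨z⁻¹, fun v => by rw [map_inv₀, map_inv₀, hz]⟩ }
  have hS : (A ⊔ Subfield.closure {f} : Subfield L) ≤ S := by
    apply sup_le
    · intro a ha
      exact ⟨i ⟨a, ha⟩, fun v => h v ⟨a, ha⟩⟩
    · rw [Subfield.closure_le]
      intro a ha
      rw [Set.mem_singleton_iff] at ha
      rw [ha]
      exact ⟨x, hx⟩
  have hS' : ∀ a : (A ⊔ Subfield.closure {f} : Subfield L), ∃ z : F', ∀ v, j v z = e v a :=
    fun a => hS a.2
  choose g hg using hS'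
  obtain ⟨v₀⟩ := ‹Nonempty ι›
  refine ⟨{ toFun := g, map_one' := ?_, map_mul' := ?_, map_zero' := ?_, map_add' := ?_ },
    fun v a => hg a v⟩
  · apply (j v₀).injective
    rw [hg, map_one]
    exact map_one (e v₀)
  · intro a b
    apply (j v₀).injective
    rw [hg, map_mul, hg, hg]
    exact map_mul (e v₀) _ _
  · apply (j v₀).injective
    rw [hg, map_zero]
    exact map_zero (e v₀)
  · intro a b
    apply (j v₀).injective
    rw [hg, map_add, hg, hg]
    exact map_add (e v₀) _ _

/-- Adjoining one element to a stage. -/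
theorem stage_adjoin [Fintype ι] [DecidableEq ι] [Nonempty ι] (hw : ∀ v, 0 < w v)
    (hsum : ∑ v, w v = 1)
    (hirr : ∀ V : Finset ι, V.Nonempty → V ≠ Finset.univ → Irrational (∑ v ∈ V, w v))
    {A : Subfield L} (hA : IsStage e k w A) (f : L) :
    IsStage e k w (A ⊔ Subfield.closure {f}) := by
  classical
  obtain ⟨F, _, j, i, k', hi, hk, hs⟩ := hA
  have hfA : f ∈ (A ⊔ Subfield.closure {f} : Subfield L) :=
    (le_sup_right : Subfield.closure _ ≤ _) (Subfield.subset_closure rfl)
  have hAA : A ≤ A ⊔ Subfield.closure {f} := le_sup_left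
  have hwpos : ∀ V : Finset ι, V.Nonempty → 0 < ∑ v ∈ V, w v := fun V hV =>
    Finset.sum_pos (fun v _ => hw v) hV
  by_cases hf : Transcendental A f
  · -- transcendental case
    have htr : ∀ v, ∀ p : F[X], p.eval₂ (j v) (e v f) = 0 → p = 0 := by
      intro v p hp
      have hne : ({v} : Finset ι).Nonempty := Finset.singleton_nonempty v
      have := onV_nontrivial (Ω := Ω) hne
      refine value_transcendental (hwpos {v} hne) (hs {v} hne) hf p ?_
      rw [onV_eval₂]
      funext u
      obtain ⟨u, hu⟩ := u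
      rw [Finset.mem_singleton] at hu
      subst hu
      exact hp
    choose j' hj hx using fun v => exists_ratFunc_lift (j v) (e v f) (htr v)
    have hgen : ∀ z : RatFunc F, ∃ p q : F[X],
        q.eval₂ (algebraMap F (RatFunc F)) RatFunc.X ≠ 0 ∧
        z * q.eval₂ (algebraMap F (RatFunc F)) RatFunc.X =
          p.eval₂ (algebraMap F (RatFunc F)) RatFunc.X := by
      have hev : ∀ p : F[X], p.eval₂ (algebraMap F (RatFunc F)) RatFunc.X =
          algebraMap F[X] (RatFunc F) p := by
        intro p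
        have := aeval_algebraMap_apply (RatFunc F) (X : F[X]) p
        rw [aeval_X_left_apply, RatFunc.algebraMap_X] at this
        exact this
      intro z
      refine ⟨z.num, z.denom, ?_, ?_⟩
      · rw [hev]
        exact RatFunc.algebraMap_ne_zero z.denom_ne_zero
      · rw [hev, hev]
        have h3 := RatFunc.num_div_denom z
        rw [div_eq_iff (RatFunc.algebraMap_ne_zero z.denom_ne_zero)] at h3
        exact h3.symm
    obtain ⟨i', hi'⟩ := exists_extend (e := e) f
      ((algebraMap F (RatFunc F)).comp i) j'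
      (fun v a => by rw [RingHom.comp_apply, hj, hi]) RatFunc.X hx
    refine ⟨RatFunc F, inferInstance, j', i', (algebraMap F (RatFunc F)).comp k', hi',
      fun v z => by rw [RingHom.comp_apply, hj, hk], fun V hV => ?_⟩
    have := onV_nontrivial (Ω := Ω) hV
    exact slope_transcendental (hs V hV) hf (algebraMap F (RatFunc F)) (onV V j')
      (fun z => by funext u; exact hj u z) RatFunc.X (by funext u; exact hx u) hgen _ hAA hfA
  · -- algebraic case
    have hfi : IsIntegral A f := by
      rw [Transcendental, not_not] at hf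
      exact hf.isIntegral
    set m := minpoly A f with hm
    have hmm : m.Monic := minpoly.monic hfi
    have hmi : (m.map i).Monic := hmm.map i
    have hev : ∀ v, (m.map i).eval₂ (j v) (e v f) = 0 := by
      intro v
      rw [eval₂_map]
      have h3 : (j v).comp i = (e v).comp A.subtype := RingHom.ext fun a => hi v a
      rw [h3]
      have h4 : m.eval₂ A.subtype f = 0 := minpoly.aeval A f
      rw [← hom_eval₂, h4, map_zero]
    choose μ hμm hμirr hμ hμd using fun v => exists_minpoly (j v) (e v f) (m.map i) hmi (hev v)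
    have hδ : 0 < m.natDegree := minpoly.natDegree_pos hfi
    have heq : ∀ v₁ v₂, μ v₁ = μ v₂ := by
      intro v₁ v₂
      by_contra hne
      set V : Finset ι := Finset.univ.filter fun v => μ v = μ v₁ with hV
      have hV1 : V.Nonempty := ⟨v₁, by simp [hV]⟩
      have hV2 : Vᶜ.Nonempty := ⟨v₂, by
        simp only [hV, Finset.mem_compl, Finset.mem_filter, Finset.mem_univ, true_and]
        exact fun h => hne h.symm⟩
      have hVu : V ≠ Finset.univ := by
        intro h
        rw [h, Finset.compl_univ] at hV2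
        exact Finset.not_nonempty_empty hV2
      obtain ⟨ν, hν⟩ := hμd v₁
      have hνm : ν.Monic := Monic.of_mul_monic_left (hμm v₁) (hν ▸ hmi)
      have hν0 : ∀ v, μ v ≠ μ v₁ → ν.eval₂ (j v) (e v f) = 0 := by
        intro v hv
        have h1 := hev v
        rw [hν, eval₂_mul] at h1
        rcases mul_eq_zero.mp h1 with h2 | h2
        · exfalso
          rcases (EuclideanDomain.dvd_or_coprime (μ v) (μ v₁) (hμirr v)) with h | h
          · apply hv
            have h5 : Associated (μ v) (μ v₁) := (hμirr v).associated_of_dvd (hμirr v₁) h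
            exact eq_of_monic_of_associated (hμm v) (hμm v₁) h5
          · obtain ⟨a, b, hab⟩ := h
            have h3 := congrArg (eval₂ (j v) (e v f)) hab
            rw [eval₂_add, eval₂_mul, eval₂_mul, hμ v, h2, mul_zero, mul_zero, add_zero,
              eval₂_one] at h3
            exact zero_ne_one h3
        · exact h2
      have := onV_nontrivial (Ω := Ω) hV1
      have := onV_nontrivial (Ω := Ω) hV2
      have hd1 := value_degree (j := onV V j) (fun a => by funext u; exact hi u a)
        (hs V hV1) hfi (μ v₁) (hμm v₁) (by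
          rw [onV_eval₂]
          funext u
          have hu : μ u = μ v₁ := by
            exact (Finset.mem_filter.mp u.2).2
          show (μ v₁).eval₂ (j u) (e u f) = 0
          rw [← hu]
          exact hμ u)
      have hd2 := value_degree (j := onV Vᶜ j) (fun a => by funext u; exact hi u a)
        (hs Vᶜ hV2) hfi ν hνm (by
          rw [onV_eval₂]
          funext u
          have hu : μ u ≠ μ v₁ := by
            exact fun h => Finset.mem_compl.mp u.2 (Finset.mem_filter.mpr ⟨Finset.mem_univ _, h⟩)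
          exact hν0 u hu)
      rw [← hm] at hd1 hd2
      have hdeg : (μ v₁).natDegree + ν.natDegree = m.natDegree := by
        rw [← natDegree_mul (hμm v₁).ne_zero hνm.ne_zero, ← hν, hmm.natDegree_map]
      have hdeg' : ((μ v₁).natDegree : ℝ) + ν.natDegree = m.natDegree := by exact_mod_cast hdeg
      have hsplit : ∑ v ∈ V, w v + ∑ v ∈ Vᶜ, w v = 1 := by
        rw [Finset.sum_add_sum_compl, hsum]
      have h6 : (∑ v ∈ V, w v) * m.natDegree + (∑ v ∈ Vᶜ, w v) * m.natDegree = m.natDegree := by
        rw [← add_mul, hsplit, one_mul]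
      have h7 : (∑ v ∈ V, w v) * m.natDegree = (μ v₁).natDegree := by linarith
      have h8 : (m.natDegree : ℝ) ≠ 0 := by exact_mod_cast hδ.ne'
      apply hirr V hV1 hVu
      refine ⟨((μ v₁).natDegree : ℚ) / (m.natDegree : ℚ), ?_⟩
      push_cast
      rw [← h7]
      field_simp
    obtain ⟨v₀⟩ := ‹Nonempty ι›
    have : Fact (Irreducible (μ v₀)) := ⟨hμirr v₀⟩
    have hμ' : ∀ v, (μ v₀).eval₂ (j v) (e v f) = 0 := fun v => by rw [heq v₀ v]; exact hμ v
    have hle : (μ v₀).natDegree ≤ m.natDegree := by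
      have := natDegree_le_of_dvd (hμd v₀) hmi.ne_zero
      rwa [hmm.natDegree_map] at this
    have hgen : ∀ z : AdjoinRoot (μ v₀), ∃ p : F[X], p.natDegree < (minpoly A f).natDegree ∧
        z = p.eval₂ (AdjoinRoot.of (μ v₀)) (AdjoinRoot.root (μ v₀)) := by
      intro z
      obtain ⟨p, rfl⟩ := AdjoinRoot.mk_surjective z
      refine ⟨p %ₘ (μ v₀), ?_, ?_⟩
      · refine lt_of_lt_of_le (natDegree_modByMonic_lt p (hμm v₀) (hμirr v₀).ne_one) ?_
        rw [← hm]
        exact hle
      · have h9 : (p %ₘ (μ v₀)).eval₂ (AdjoinRoot.of (μ v₀)) (AdjoinRoot.root (μ v₀)) =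
            AdjoinRoot.mk (μ v₀) (p %ₘ (μ v₀)) := AdjoinRoot.aeval_eq _
        rw [h9, AdjoinRoot.mk_eq_mk]
        exact ⟨p /ₘ (μ v₀), by linear_combination (-1 : F[X]) * modByMonic_add_div p (μ v₀)⟩
    have hj : ∀ v z, AdjoinRoot.lift (j v) (e v f) (hμ' v) (AdjoinRoot.of (μ v₀) z) = j v z :=
      fun v z => AdjoinRoot.lift_of (hμ' v)
    have hx : ∀ v, AdjoinRoot.lift (j v) (e v f) (hμ' v) (AdjoinRoot.root (μ v₀)) = e v f :=
      fun v => AdjoinRoot.lift_root (hμ' v)
    haveI : Nonempty ι := ⟨v₀⟩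
    obtain ⟨i', hi'⟩ := exists_extend (e := e) f
      ((AdjoinRoot.of (μ v₀)).comp i) (fun v => AdjoinRoot.lift (j v) (e v f) (hμ' v))
      (fun v a => by rw [RingHom.comp_apply, hj, hi]) (AdjoinRoot.root (μ v₀)) hx
    refine ⟨AdjoinRoot (μ v₀), inferInstance, fun v => AdjoinRoot.lift (j v) (e v f) (hμ' v), i',
      (AdjoinRoot.of (μ v₀)).comp k', hi',
      fun v z => by rw [RingHom.comp_apply, hj, hk], fun V hV => ?_⟩
    have := onV_nontrivial (Ω := Ω) hV
    exact slope_algebraic (hs V hV) hfi (AdjoinRoot.of (μ v₀)) _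
      (fun z => by funext u; exact hj u z) (AdjoinRoot.root (μ v₀)) (by funext u; exact hx u)
      hgen _ hAA hfA

/-- Adjoining finitely many elements to a stage. -/
theorem stage_adjoin_finite [Fintype ι] [DecidableEq ι] [Nonempty ι] (hw : ∀ v, 0 < w v)
    (hsum : ∑ v, w v = 1)
    (hirr : ∀ V : Finset ι, V.Nonempty → V ≠ Finset.univ → Irrational (∑ v ∈ V, w v))
    {A : Subfield L} (hA : IsStage e k w A) {n : ℕ}
    (f : Fin n → L) : ∃ A' : Subfield L, (∀ a, f a ∈ A') ∧ IsStage e k w A' := by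
  suffices h : ∀ m : ℕ, m ≤ n →
      ∃ A' : Subfield L, (∀ a : Fin n, (a : ℕ) < m → f a ∈ A') ∧ IsStage e k w A' by
    obtain ⟨A', h3, h4⟩ := h n le_rfl
    exact ⟨A', fun a => h3 a a.2, h4⟩
  intro m
  induction m with
  | zero => intro _; exact ⟨A, fun a ha => absurd ha (Nat.not_lt_zero _), hA⟩
  | succ m ih =>
    intro hm
    obtain ⟨A', h3, h4⟩ := ih (by omega)
    refine ⟨A' ⊔ Subfield.closure {f ⟨m, by omega⟩}, fun a ha => ?_,
      stage_adjoin hw hsum hirr h4 _⟩
    rcases Nat.lt_succ_iff_lt_or_eq.mp ha with h | h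
    · exact (le_sup_left : A' ≤ _) (h3 a h)
    · have : a = ⟨m, by omega⟩ := Fin.ext h
      rw [this]
      exact (le_sup_right : Subfield.closure _ ≤ _) (Subfield.subset_closure rfl)

/-- A `𝕂`-linear relation between the values of elements of a stage holds at all places or at
none. -/
theorem stage_transfer {A : Subfield L} (hA : IsStage e k w A) {n : ℕ} {f : Fin n → L}
    (hf : ∀ a, f a ∈ A) (g : Fin n → 𝕂) (x : 𝕂) (v₁ v₂ : ι)
    (h : ∑ a, k v₁ (g a) * e v₁ (f a) = k v₁ x) :
    ∑ a, k v₂ (g a) * e v₂ (f a) = k v₂ x := by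
  obtain ⟨F, _, j, i, k', hi, hk, -⟩ := hA
  have h3 : ∑ a, k' (g a) * i ⟨f a, hf a⟩ = k' x := by
    apply (j v₁).injective
    rw [map_sum, hk, ← h]
    exact Finset.sum_congr rfl fun a _ => by rw [map_mul, hk, hi]
  have h4 := congrArg (j v₂) h3
  rw [map_sum, hk] at h4
  rw [← h4]
  exact Finset.sum_congr rfl fun a _ => by rw [map_mul, hk, hi]

end Pool.Agent.Lib.MP_b27257_nt
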