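import Pool.Agent.Lib.MP_b27257_nt.Slope2
import Pool.Agent.Lib.MP_b27257_nt.Compl
import Pool.Agent.Lib.MP_b27257_nt.Step
import Pool.Agent.Lib.MP_d0d59f_nt.AutoAbs

/-!
The transfer theorem for a finite family of places.
-/

namespace Pool.Agent.Lib.MP_b27257_nt

open Module Filter Topology Pool.Agent.Lib.MP_d0d59f_nt Pool.Agent.Lib.MP_d0d59f_nt.Lin

variable {κ 𝕂 : Type} [Field κ] [Field 𝕂] [Algebra κ 𝕂] {X : ℝ → 𝕂} {O : Subring 𝕂} {T : ℕ → 𝕂}
  {ι : Type} [Fintype ι] [DecidableEq ι] {v : ι → AbsoluteValue 𝕂 ℝ} {x : ι → ℝ} {τ : ℝ}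
  {d : AbsoluteValue 𝕂 ℝ} {y : ℝ}

/-- slope inequality over a stage -/
theorem transfer_slope (hX : Mono κ X) (hI : IntData κ X O T) (hp : Fam κ X O T v x τ)
    (hd : MVal κ X d y) (hy : 1 < y) (hτ : 1 < τ) {Ω : ι → Type} [∀ i, NormedField (Ω i)]
    [∀ i, IsUltrametricDist (Ω i)]
    (k : ∀ i, 𝕂 →+* Ω i) (hk : ∀ i z, ‖k i z‖ = v i z) {L : Type} [Field L] (e : ∀ i, L →+* Ω i)
    (he : ∀ a, (fun i => e i a) ∈ closure ((fun z i => k i z) '' (polys κ X : Set 𝕂)))
    (A : Subfield L)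
    (hA : ∀ p ∈ polys κ X, ∃ a ∈ A, ∀ i, e i a = k i p) (V : Finset ι) (hV : V.Nonempty) :
    SlopeIneq A (onV V k) (onV V e) (∑ i ∈ V, Real.log (1 / x i) / Real.log τ) := by
  intro n G hG
  let _ : ∀ i, Algebra 𝕂 (Ω i) := fun i => (k i).toAlgebra
  have hcl : ∀ a : L, onV V e a ∈
      closure ((fun z (i : V) => algebraMap 𝕂 (Ω i) z) '' (polys κ X : Set 𝕂)) := by
    intro a
    refine map_mem_closure (f := fun (z : ∀ i, Ω i) (i : V) => z i)
      (continuous_pi fun i => continuous_apply (i : ι)) (he a) ?_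
    rintro _ ⟨z, hz, rfl⟩
    exact ⟨z, hz, rfl⟩
  have h1 := slope (V := V) hX hI hp hd hy (Ω := Ω) hk hV (fun l => onV V e (G l))
    (fun l => hcl _) (by
    intro P hP i h0
    choose a haA ha using fun l => hA (P l) (hP l)
    have h2 : ∑ l, (⟨a l, haA l⟩ : A) • G l = 0 := by
      apply (e i).injective
      rw [map_sum, map_zero, ← h0, Finset.sum_apply]
      refine Finset.sum_congr rfl fun l _ => ?_
      rw [Subfield.smul_def, smul_eq_mul, map_mul, ha]
      rfl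
    have h3 := Fintype.linearIndependent_iff.mp hG _ h2
    funext l
    have h4 : a l = 0 := congrArg Subtype.val (h3 l)
    have h5 : k i (P l) = 0 := by rw [← ha l, h4, map_zero]
    rw [Pi.zero_apply]
    exact (map_eq_zero (k i)).mp h5)
  have hlog : 0 < Real.log τ := Real.log_pos hτ
  have h6 : (famRank 𝕂 (fun l => onV V e (G l)) : ℝ) = rk (onV V k) (fun l => onV V e (G l)) := rfl
  rw [h6] at h1
  rw [← Finset.sum_div, div_mul_eq_mul_div, div_le_iff₀ hlog, mul_comm (∑ i ∈ V, _)]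
  exact h1

/-- The transfer theorem: if the sequence `∑ g_a f_a(r)`, `f_a(r)` polynomials with
`f_a(r+1) - f_a(r) → 0`, comes arbitrarily close to `z` at the place `i₁` then it converges to `z` at
the place `i₂`. -/
theorem transfer_family [Nonempty ι] (hX : Mono κ X) (hI : IntData κ X O T)
    (hp : Fam κ X O T v x τ)
    (hd : MVal κ X d y) (hy : 1 < y) (hτ : 1 < τ)
    (hsum : ∑ i, Real.log (1 / x i) = Real.log τ)
    (hirr : ∀ V : Finset ι, V.Nonempty → V ≠ Finset.univ →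
      Irrational (∑ i ∈ V, Real.log (1 / x i) / Real.log τ)) {n : ℕ} (f : Fin n → ℕ → 𝕂)
    (hf : ∀ a r, f a r ∈ polys κ X) (i₁ i₂ : ι)
    (hf' : ∀ a, Tendsto (fun r => v i₁ (f a (r + 1) - f a r)) atTop (𝓝 0)) (g : Fin n → 𝕂) (z : 𝕂)
    (h : ∀ ε : ℝ, 0 < ε → ∃ᶠ r in atTop, v i₁ (z - ∑ a, g a * f a r) < ε) :
    Tendsto (fun r => v i₂ (z - ∑ a, g a * f a r)) atTop (𝓝 0) := by
  choose Ω o1 o2 o3 o4 hΩ using fun i => Auto.exists_completion (v i) (hp.mval i).nonarch
  set k : ∀ i, 𝕂 →+* Ω i := fun i => algebraMap 𝕂 (Ω i) with hk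
  obtain ⟨L, _, e, hL1, hL2, hL3⟩ := exists_famL hX hp.mval hp.lt_one k hΩ
  choose φ hφ using fun a => hL3 i₁ (f a) (hf a) (hf' a)
  obtain ⟨v₀⟩ := ‹Nonempty ι›
  -- the initial stage
  let A : Subfield L :=
    { carrier := {a | ∃ z : 𝕂, ∀ i, k i z = e i a}
      mul_mem' := by
        rintro a b ⟨z, hz⟩ ⟨y, hy⟩
        exact ⟨z * y, fun i => by rw [map_mul, map_mul, hz, hy]⟩
      one_mem' := ⟨1, fun i => by rw [map_one, map_one]⟩
      add_mem' := by
        rintro a b ⟨z, hz⟩ ⟨y, hy⟩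
        exact ⟨z + y, fun i => by rw [map_add, map_add, hz, hy]⟩
      zero_mem' := ⟨0, fun i => by rw [map_zero, map_zero]⟩
      neg_mem' := by
        rintro a ⟨z, hz⟩
        exact ⟨-z, fun i => by rw [map_neg, map_neg, hz]⟩
      inv_mem' := by
        rintro a ⟨z, hz⟩
        exact ⟨z⁻¹, fun i => by rw [map_inv₀, map_inv₀, hz]⟩ }
  have hA1 : ∀ p ∈ polys κ X, ∃ a ∈ A, ∀ i, e i a = k i p := by
    intro p hp
    obtain ⟨a, ha⟩ := hL1 p hp
    exact ⟨a, ⟨p, fun i => (ha i).symm⟩, ha⟩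
  have hA' : ∀ a : A, ∃ z : 𝕂, ∀ i, k i z = e i a := fun a => a.2
  choose γ hγ using hA'
  have hinj : Function.Injective (k v₀) := (k v₀).injective
  let i : A →+* 𝕂 :=
    { toFun := γ
      map_one' := by
        apply hinj
        rw [hγ, map_one]
        exact map_one _
      map_mul' := fun a b => by
        apply hinj
        rw [hγ, map_mul, hγ, hγ]
        exact map_mul _ _ _
      map_zero' := by
        apply hinj
        rw [hγ, map_zero]
        exact map_zero _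
      map_add' := fun a b => by
        apply hinj
        rw [hγ, map_add, hγ, hγ]
        exact map_add _ _ _ }
  have hlog : 0 < Real.log τ := Real.log_pos hτ
  have hstage : IsStage e k (fun i => Real.log (1 / x i) / Real.log τ) A :=
    ⟨𝕂, inferInstance, k, i, RingHom.id 𝕂, fun v a => hγ a v, fun v z => rfl,
      fun V hV => transfer_slope hX hI hp hd hy hτ k hΩ e hL2 A hA1 V hV⟩
  have hpos : ∀ j, 0 < Real.log (1 / x j) / Real.log τ := by
    intro j
    refine div_pos (Real.log_pos ?_) hlog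
    rw [one_div]
    exact (one_lt_inv₀ (hp.mval j).pos).mpr (hp.lt_one j)
  haveI : Nonempty ι := ⟨v₀⟩
  obtain ⟨A', hfA, hA'⟩ := stage_adjoin_finite hpos
    (by rw [← Finset.sum_div, hsum, div_self hlog.ne']) hirr hstage φ
  -- limits
  have hlim : ∀ j, Tendsto (fun r => v j (z - ∑ a, g a * f a r)) atTop
      (𝓝 ‖k j z - ∑ a, k j (g a) * e j (φ a)‖) := by
    intro j
    have h3 : Tendsto (fun r => k j z - ∑ a, k j (g a) * k j (f a r)) atTop
        (𝓝 (k j z - ∑ a, k j (g a) * e j (φ a))) :=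
      tendsto_const_nhds.sub (tendsto_finsetSum _ fun a _ => tendsto_const_nhds.mul (hφ a j))
    refine h3.norm.congr fun r => ?_
    rw [← hΩ, map_sub, map_sum]
    simp only [map_mul]
    rfl
  have h0 : ‖k i₁ z - ∑ a, k i₁ (g a) * e i₁ (φ a)‖ = 0 := by
    refine le_antisymm ?_ (norm_nonneg _)
    refine le_of_forall_pos_le_add fun ε hε => ?_
    by_contra hcon
    push Not at hcon
    rw [zero_add] at hcon
    have h5 := (hlim i₁).eventually (lt_mem_nhds hcon)
    obtain ⟨r, hr1, hr2⟩ := ((h ε hε).and_eventually h5).exists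
    linarith
  have h6 : ∑ a, k i₁ (g a) * e i₁ (φ a) = k i₁ z := (sub_eq_zero.mp (norm_eq_zero.mp h0)).symm
  have h7 := stage_transfer hA' hfA g z i₁ i₂ h6
  have h8 := hlim i₂
  rw [h7, sub_self, norm_zero] at h8
  exact h8

end Pool.Agent.Lib.MP_b27257_nt
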