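import Pool.Agent.Lib.MP_d0d59f_nt.LinSeq
import Pool.Agent.Lib.MP_b27257_nt.FamGerm
import Pool.Agent.Lib.MP_b27257_nt.Transfer
import Pool.Agent.Lib.MP_b27257_nt.Ident

/-!
The transfer theorem for sequences of rational numbers.
-/

namespace Pool.Agent.Lib.MP_b27257_nt

open Filter Topology Pool.Agent.Lib.MP_d0d59f_nt.Auto Pool.Agent.Lib.MP_d0d59f_nt.Lin

attribute [local instance] sqAlg

/-- The transfer theorem: from a prime `l ∣ q` to infinity. -/
theorem transfer_germs {p q : ℕ} (hq1 : 1 < q) (hqp : q < p) (hc : Nat.Coprime q p)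
    {L : ℕ → ℕ} (hL : Tendsto L atTop atTop) {K : ℕ}
    (A : ℕ → ℕ → ℕ) (s : ℕ → ℝ) (hs : Tendsto s atTop atTop)
    (hA : ∀ t, Tendsto (fun m => (A t m : ℝ) / L m) (hyperfilter ℕ) (𝓝 (s t)))
    (c : ℕ → Fin K → ℕ → ℚ)
    (hcc : ∀ t a, ∀ ε : ℝ, 0 < ε →
      ∀ᶠ m in (hyperfilter ℕ : Filter ℕ), (ht (c t a m) : ℝ) ≤ (1 + ε) ^ L m)
    (g : Fin K → ℕ → ℚ)
    (hg : ∀ a, ∃ C : ℝ, ∀ᶠ m in (hyperfilter ℕ : Filter ℕ), (ht (g a m) : ℝ) ≤ C ^ L m)
    (x : ℕ → ℚ) (hx : ∃ C : ℝ, ∀ᶠ m in (hyperfilter ℕ : Filter ℕ), (ht (x m) : ℝ) ≤ C ^ L m)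
    (l : {l // l ∈ q.primeFactors})
    (h2 : ∀ σ : ℕ, ∃ r, σ ≤ r ∧ ∀ᶠ m in (hyperfilter ℕ : Filter ℕ),
      plAbs q (some l) (err p q A c g x r m) ≤ (1 / 2 : ℝ) ^ (σ * L m))
    {δ : ℝ} (hδ : 0 < δ) :
    ∃ r0, ∀ r ≥ r0, ∀ᶠ m in (hyperfilter ℕ : Filter ℕ), |(err p q A c g x r m : ℝ)| < δ ^ L m := by
  classical
  have hq : 0 < q := by omega
  have hp1 : 1 < p := by omega
  have hp1R : (1 : ℝ) < p := by exact_mod_cast hp1
  -- absolute values
  choose v hvna hvlim using fun i : Pl q =>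
    exists_absLim (hL := hL) (plAbs q i) (plAbs_htBound q i)
  have hfam := fam_qX (hL := hL) hq hqp hc hvna hvlim
  -- a prime dividing `p`
  have hl' : Fact p.minFac.Prime := ⟨Nat.minFac_prime hp1.ne'⟩
  obtain ⟨d, hdna, hdlim⟩ := exists_absLim (hL := hL) (Rat.AbsoluteValue.padic p.minFac)
    (htBound_prime p.minFac)
  have hdq : Rat.AbsoluteValue.padic p.minFac (q : ℚ) = 1 := by
    apply padic_coprime
    intro h
    have h3 := Nat.dvd_gcd h (Nat.minFac_dvd p)
    rw [hc] at h3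
    exact hl'.out.one_lt.ne' (Nat.dvd_one.mp h3)
  have hpos : 0 < p.factorization p.minFac :=
    hl'.out.factorization_pos_of_dvd (by omega) (Nat.minFac_dvd p)
  have hy : 1 < (p.minFac : ℝ) ^ p.factorization p.minFac :=
    one_lt_pow₀ (by exact_mod_cast hl'.out.one_lt) hpos.ne'
  have hd : MVal (smallField L hL) (qX p q hq hqp.le L hL) d
      ((p.minFac : ℝ) ^ p.factorization p.minFac) := by
    refine mVal_qX hq hqp (htBound_prime p.minFac) hdna hdlim ?_ hy.ne'
    rw [hdq, padic_nat p.minFac (by omega), one_div, inv_inv]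
  -- the monomials
  choose e he0 he using fun t => qgerm_eq (hL := hL) hq hqp (s := s t)
    (fun m => (A t m : ℤ)) (fun m => (A t m : ℤ)) (by simpa using hA t) (by simpa using hA t)
  let u : ℕ → bigField L hL := fun t => e t • qX p q hq hqp.le L hL (s t)
  have hu : ∀ t, ((u t : bigField L hL) : QU) =
      (((fun m => (q : ℚ) ^ A t m / (p : ℚ) ^ A t m) : ℕ → ℚ) : QU) := by
    intro t
    refine (he t).trans ?_
    congr 1
  have hx1 : ∀ i, 0 < plX p q i ∧ plX p q i < 1 := fun i =>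
    ⟨(hfam.mval i).pos, hfam.lt_one i⟩
  have huv : ∀ i t, v i (u t) = (plX p q i) ^ s t := by
    intro i t
    change v i (e t • qX p q hq hqp.le L hL (s t)) = _
    rw [Algebra.smul_def, map_mul, (hfam.mval i).const _ (he0 t), one_mul, (hfam.mval i).val]
  -- the sequences
  have hcmem : ∀ t a, (((fun m => c t a m) : ℕ → ℚ) : QU) ∈ smallField L hL := fun t a =>
    ⟨_, rfl, fun ε hε => hcc t a ε hε⟩
  have hgmem : ∀ a, (((fun m => g a m) : ℕ → ℚ) : QU) ∈ bigField L hL := fun a => by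
    obtain ⟨C, hC⟩ := hg a
    exact ⟨_, rfl, C, hC⟩
  have hxmem : ((x : ℕ → ℚ) : QU) ∈ bigField L hL := by
    obtain ⟨C, hC⟩ := hx
    exact ⟨_, rfl, C, hC⟩
  let ct : ℕ → Fin K → smallField L hL := fun t a => ⟨_, hcmem t a⟩
  let f : Fin K → ℕ → bigField L hL := fun a r => ∑ t ∈ Finset.range r, ct t a • u t
  let G : Fin K → bigField L hL := fun a => ⟨_, hgmem a⟩
  let x0 : bigField L hL := ⟨_, hxmem⟩
  have hcoe : ∀ r, (((fun m => err p q A c g x r m) : ℕ → ℚ) : QU) =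
      ((x0 - ∑ a, G a * f a r : bigField L hL) : QU) := by
    intro r
    have h4 : ∀ a, ((f a r : bigField L hL) : QU) =
        (((fun m => ∑ t ∈ Finset.range r, c t a m * ((q : ℚ) ^ A t m / (p : ℚ) ^ A t m)) : ℕ → ℚ) :
          QU) :=
      fun a => linseq_sum (Finset.range r) (fun t => ct t a • u t)
        (fun t m => c t a m * ((q : ℚ) ^ A t m / (p : ℚ) ^ A t m))
        fun t _ => linseq_smul (c := ct t a) (f := fun m => c t a m) rfl (hu t)
    have h5 := linseq_sum Finset.univ (fun a => G a * f a r)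
      (fun a m => g a m * ∑ t ∈ Finset.range r, c t a m * ((q : ℚ) ^ A t m / (p : ℚ) ^ A t m))
      fun a _ => linseq_mul (z := G a) (f := fun m => g a m) rfl (h4 a)
    rw [Subfield.coe_sub, h5]
    have e3 : ((x0 : bigField L hL) : QU) = ((x : ℕ → ℚ) : QU) := rfl
    rw [e3, ← Germ.coe_sub]
    congr 1
  have hT := transfer_family (mono_qX hq hqp) (intData_qX hq hqp) hfam hd hy hp1R
    (plX_log hq hqp) (pl_irr hqp hq1 hc) f ?_ (some l) none ?_ G x0 ?_
  · obtain ⟨r0, hr0⟩ := eventually_atTop.1 (hT.eventually (gt_mem_nhds hδ))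
    refine ⟨r0, fun r hr => ?_⟩
    have h5 := (hvlim none _ _ (hcoe r)).eventually (gt_mem_nhds (hr0 r hr))
    filter_upwards [h5, sq_L_pos hL] with m hm hLm
    simp only [plAbs] at hm
    rw [Rat.AbsoluteValue.real_eq_abs] at hm
    have h6 : (0 : ℝ) ≤ ((|err p q A c g x r m| : ℚ) : ℝ) := by exact_mod_cast abs_nonneg _
    have h7 : ((((|err p q A c g x r m| : ℚ) : ℝ)) ^ ((1 : ℝ) / L m)) ^ L m < δ ^ L m :=
      pow_lt_pow_left₀ hm (Real.rpow_nonneg h6 _) hLm.ne'
    rw [← Real.rpow_natCast (_ ^ ((1 : ℝ) / L m)) (L m), ← Real.rpow_mul h6,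
      one_div_mul_cancel (by positivity), Real.rpow_one] at h7
    rw [← Rat.cast_abs]
    exact h7
  · intro a r
    refine Submodule.sum_mem _ fun t _ => Submodule.smul_mem _ _ (Submodule.smul_mem _ _ ?_)
    exact Submodule.subset_span ⟨s t, rfl⟩
  · intro a
    have hup : ∀ r, v (some l) (f a (r + 1) - f a r) ≤ (plX p q (some l)) ^ s r := by
      intro r
      have h4 : f a (r + 1) - f a r = ct r a • u r := by
        change ∑ t ∈ Finset.range (r + 1), ct t a • u t - ∑ t ∈ Finset.range r, ct t a • u t = _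
        rw [Finset.sum_range_succ, add_sub_cancel_left]
      rw [h4, ← huv]
      exact linseq_smul_le (hfam.mval (some l)) _ _
    refine squeeze_zero (fun r => (v (some l)).nonneg _) hup ?_
    exact (tendsto_rpow_atTop_of_base_lt_one (plX p q (some l)) (by linarith [(hx1 (some l)).1])
      (hx1 (some l)).2).comp hs
  · intro ε hε
    rw [frequently_atTop]
    intro r1
    obtain ⟨k, hk⟩ := exists_pow_lt_of_lt_one hε (by norm_num : (1 / 2 : ℝ) < 1)
    obtain ⟨r, hr, hev⟩ := h2 (max k r1)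
    refine ⟨r, (le_max_right _ _).trans hr, ?_⟩
    refine lt_of_le_of_lt ?_ hk
    have h8 : v (some l) (x0 - ∑ a, G a * f a r) ≤ (1 / 2 : ℝ) ^ (max k r1) := by
      refine le_of_tendsto (hvlim (some l) _ _ (hcoe r)) ?_
      filter_upwards [hev, sq_L_pos hL] with m hm hLm
      calc (plAbs q (some l) (err p q A c g x r m)) ^ ((1 : ℝ) / L m)
          ≤ ((1 / 2 : ℝ) ^ (max k r1 * L m)) ^ ((1 : ℝ) / L m) :=
            Real.rpow_le_rpow (AbsoluteValue.nonneg _ _) hm (by positivity)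
        _ = (1 / 2 : ℝ) ^ (max k r1) := by
            rw [pow_mul, ← Real.rpow_natCast ((1 / 2 : ℝ) ^ (max k r1)) (L m),
              ← Real.rpow_mul (by positivity), mul_one_div_cancel (by positivity), Real.rpow_one]
    exact h8.trans (pow_le_pow_of_le_one (by norm_num) (by norm_num) (le_max_left _ _))

end Pool.Agent.Lib.MP_b27257_nt
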