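import Pool.Agent.Lib.MP_b27257_nt.Fam
import Pool.Agent.Lib.MP_b27257_nt.Det

/-!
The slope inequality for a family of maximal slope, for a set `V` of places.
-/

namespace Pool.Agent.Lib.MP_b27257_nt

open Module Filter Topology Pool.Agent.Lib.MP_d0d59f_nt Pool.Agent.Lib.MP_d0d59f_nt.Lin

/-- the dimension of the `𝕂`-span of a finite family -/
noncomputable def famRank (𝕂 : Type) {M : Type} [Field 𝕂] [AddCommGroup M] [Module 𝕂 M] {H : ℕ}
    (G : Fin H → M) : ℕ := finrank 𝕂 (Submodule.span 𝕂 (Set.range G))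

variable {κ 𝕂 : Type} [Field κ] [Field 𝕂] [Algebra κ 𝕂] {X : ℝ → 𝕂} {O : Subring 𝕂} {T : ℕ → 𝕂}
  {ι : Type} [Fintype ι] [DecidableEq ι] {v : ι → AbsoluteValue 𝕂 ℝ} {x : ι → ℝ} {τ : ℝ}
  {d : AbsoluteValue 𝕂 ℝ} {y : ℝ}
  {Ω : ι → Type} [∀ i, NormedField (Ω i)] [∀ i, IsUltrametricDist (Ω i)] [∀ i, Algebra 𝕂 (Ω i)]
  {V : Finset ι}

/-! ### auxiliary lemmas -/

theorem slope_polysIn_mono {S S' : Set ℝ} (h : S ⊆ S') : polysIn κ X S ≤ polysIn κ X S' :=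
  Submodule.span_mono (Set.image_mono h)

theorem slope_polys_eq : polys κ X = polysIn κ X Set.univ := by
  unfold polys polysIn
  rw [Set.image_univ]

theorem slope_padeW_mono {u : AbsoluteValue 𝕂 ℝ} {z : ℝ} {H : ℕ} (g : Fin H → 𝕂) (n : ℕ) :
    Monotone (padeW κ X u z g n) := by
  intro i i' h P hP
  refine ⟨fun j => slope_polysIn_mono ?_ (hP.1 j), hP.2⟩
  refine Set.Ico_subset_Ico_right ?_
  have : (i : ℝ) ≤ i' := by exact_mod_cast h
  linarith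

theorem Fam.le_one (hp : Fam κ X O T v x τ) {P : 𝕂} (hP : P ∈ polysIn κ X (Set.Ici 0)) (i : ι) :
    v i P ≤ 1 := by
  have := val_le_of_mem (hp.mval i) (hp.lt_one i) hP
  rwa [Real.rpow_zero] at this

/-- the approximations of `X m * G l` by polynomials -/
theorem slope_approx (hX : Mono κ X) (hp : Fam κ X O T v x τ)
    (hΩ : ∀ i z, ‖algebraMap 𝕂 (Ω i) z‖ = v i z) (hV : V.Nonempty) {H : ℕ}
    (G : Fin H → ∀ i : V, Ω i)
    (hG : ∀ l, G l ∈ closure ((fun z (i : V) => algebraMap 𝕂 (Ω i) z) '' (polys κ X : Set 𝕂)))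
    (m : ℕ) (hm : ∀ l (i : V), x i ^ m * ‖G l i‖ ≤ 1) (n : ℕ) :
    ∃ g : Fin H → 𝕂, (∀ l, g l ∈ polysIn κ X (Set.Ici 0)) ∧
      ∀ l (i : V), ‖algebraMap 𝕂 (Ω i) (X m) * G l i - algebraMap 𝕂 (Ω i) (g l)‖ ≤ x i ^ n := by
  have hx0 : ∀ i, 0 < x i := fun i => (hp.mval i).pos
  have hXm : X m ∈ polys κ X := Submodule.subset_span ⟨_, rfl⟩
  have hne : Nonempty V := hV.to_subtype
  have hcl : ∀ l, (fun i : V => algebraMap 𝕂 (Ω i) (X m) * G l i) ∈
      closure ((fun z (i : V) => algebraMap 𝕂 (Ω i) z) '' (polys κ X : Set 𝕂)) := by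
    intro l
    refine map_mem_closure (f := fun (z : ∀ i : V, Ω i) (i : V) => algebraMap 𝕂 (Ω i) (X m) * z i)
      (continuous_pi fun i => continuous_const.mul (continuous_apply i)) (hG l) ?_
    rintro _ ⟨z, hz, rfl⟩
    exact ⟨X m * z, mul_mem_polys hX hXm hz, funext fun i => map_mul _ _ _⟩
  obtain ⟨ε, hε, hεle⟩ : ∃ ε : ℝ, 0 < ε ∧ ∀ i : V, ε ≤ x i ^ n := by
    obtain ⟨i, hi⟩ := Finite.exists_min fun i : V => x i ^ n
    exact ⟨x i ^ n, pow_pos (hx0 i) n, hi⟩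
  have hex : ∀ l, ∃ g ∈ polys κ X,
      ∀ i : V, ‖algebraMap 𝕂 (Ω i) (X m) * G l i - algebraMap 𝕂 (Ω i) g‖ ≤ x i ^ n := by
    intro l
    obtain ⟨_, ⟨g, hg, rfl⟩, hd⟩ := Metric.mem_closure_iff.1 (hcl l) ε hε
    refine ⟨g, hg, fun i => ?_⟩
    have h1 := dist_le_pi_dist (fun i : V => algebraMap 𝕂 (Ω i) (X m) * G l i)
      (fun i : V => algebraMap 𝕂 (Ω i) g) i
    rw [dist_eq_norm] at h1
    exact (h1.trans hd.le).trans (hεle i)
  choose g hg hgn using hex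
  refine ⟨g, fun l => ?_, hgn⟩
  obtain ⟨i₀, hi₀⟩ := hV
  have h1 : ‖algebraMap 𝕂 (Ω i₀) (X m) * G l ⟨i₀, hi₀⟩‖ ≤ 1 := by
    rw [norm_mul, hΩ, (hp.mval i₀).val, Real.rpow_natCast]
    exact hm l ⟨i₀, hi₀⟩
  have h2 : v i₀ (g l) ≤ x i₀ ^ (0 : ℝ) := by
    rw [Real.rpow_zero, ← hΩ]
    have h3 : algebraMap 𝕂 (Ω i₀) (g l) = algebraMap 𝕂 (Ω i₀) (X m) * G l ⟨i₀, hi₀⟩ +
        -(algebraMap 𝕂 (Ω i₀) (X m) * G l ⟨i₀, hi₀⟩ - algebraMap 𝕂 (Ω i₀) (g l)) := by ring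
    rw [h3]
    refine (IsUltrametricDist.norm_add_le_max _ _).trans (max_le h1 ?_)
    rw [norm_neg]
    exact (hgn l ⟨i₀, hi₀⟩).trans (pow_le_one₀ (hx0 i₀).le (hp.lt_one i₀).le)
  have h4 : g l ∈ polysIn κ X Set.univ := by
    rw [← slope_polys_eq]; exact hg l
  have h5 := mem_polysIn_of_le (hp.mval i₀) (hp.lt_one i₀) h4 h2
  rwa [Set.univ_inter] at h5

/-- the value of a Pade form -/
theorem slope_form_le (hX : Mono κ X) (hp : Fam κ X O T v x τ)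
    (hΩ : ∀ i z, ‖algebraMap 𝕂 (Ω i) z‖ = v i z) {H : ℕ} (G : Fin H → ∀ i : V, Ω i) (m n : ℕ)
    (g : Fin H → 𝕂) (hg : ∀ l, g l ∈ polysIn κ X (Set.Ici 0))
    (hgn : ∀ l (i : V), ‖algebraMap 𝕂 (Ω i) (X m) * G l i - algebraMap 𝕂 (Ω i) (g l)‖ ≤ x i ^ n)
    (i₀ : ι) {M : ℕ} {P : Fin H → 𝕂} (hP : P ∈ padeW κ X (v i₀) (x i₀) g n M) (i : V) :
    ‖(∑ l, P l • G l) i‖ ≤ x i ^ n * (x i ^ m)⁻¹ := by
  have hx0 := (hp.mval i).pos
  have hsum : (∑ l, P l • G l) i = ∑ l, algebraMap 𝕂 (Ω i) (P l) * G l i := by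
    rw [Finset.sum_apply]
    exact Finset.sum_congr rfl fun l _ => by rw [Pi.smul_apply, Algebra.smul_def]
  have h1 : algebraMap 𝕂 (Ω i) (X m) * (∑ l, P l • G l) i = algebraMap 𝕂 (Ω i) (∑ l, P l * g l) +
      ∑ l, algebraMap 𝕂 (Ω i) (P l) * (algebraMap 𝕂 (Ω i) (X m) * G l i - algebraMap 𝕂 (Ω i) (g l)) := by
    rw [hsum, map_sum, ← Finset.sum_add_distrib, Finset.mul_sum]
    refine Finset.sum_congr rfl fun l _ => ?_
    rw [map_mul]
    ring
  have hval : v i (∑ l, P l * g l) ≤ x i ^ n := by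
    have h3 : ∑ l, P l * g l ∈ polysIn κ X Set.univ := by
      rw [← slope_polys_eq]
      refine Submodule.sum_mem _ fun l _ => ?_
      exact mul_mem_polys hX (polysIn_le _ (hP.1 l)) (polysIn_le _ (hg l))
    have h4 : v i₀ (∑ l, P l * g l) ≤ x i₀ ^ ((n : ℕ) : ℝ) := by
      rw [Real.rpow_natCast]; exact hP.2
    have h5 := mem_polysIn_of_le (hp.mval i₀) (hp.lt_one i₀) h3 h4
    rw [Set.univ_inter] at h5
    have h6 := val_le_of_mem (hp.mval i) (hp.lt_one i) h5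
    rwa [Real.rpow_natCast] at h6
  have h2 : ‖algebraMap 𝕂 (Ω i) (X m) * (∑ l, P l • G l) i‖ ≤ x i ^ n := by
    rw [h1]
    refine (IsUltrametricDist.norm_add_le_max _ _).trans (max_le ?_ ?_)
    · rw [hΩ]; exact hval
    · refine IsUltrametricDist.norm_sum_le_of_forall_le_of_nonneg (pow_nonneg hx0.le n) fun l _ => ?_
      rw [norm_mul]
      have h3 : ‖algebraMap 𝕂 (Ω i) (P l)‖ ≤ 1 := by
        rw [hΩ]
        exact hp.le_one (slope_polysIn_mono (fun t ht => ht.1) (hP.1 l)) i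
      calc ‖algebraMap 𝕂 (Ω i) (P l)‖ * ‖algebraMap 𝕂 (Ω i) (X m) * G l i - algebraMap 𝕂 (Ω i) (g l)‖
          ≤ 1 * x i ^ n := mul_le_mul h3 (hgn l i) (norm_nonneg _) zero_le_one
        _ = x i ^ n := one_mul _
  rw [norm_mul, hΩ, (hp.mval i).val, Real.rpow_natCast] at h2
  rw [← div_eq_mul_inv, le_div_iff₀ (pow_pos hx0 m), mul_comm]
  exact h2

/-- the key estimate for a fixed order `n` -/
theorem slope_step (hX : Mono κ X) (hI : IntData κ X O T) (hp : Fam κ X O T v x τ)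
    (hd : MVal κ X d y) (hy : 1 < y) (hΩ : ∀ i z, ‖algebraMap 𝕂 (Ω i) z‖ = v i z)
    (hV : V.Nonempty) {H : ℕ} (hH : 0 < H) (G : Fin H → ∀ i : V, Ω i)
    (hG : ∀ l, G l ∈ closure ((fun z (i : V) => algebraMap 𝕂 (Ω i) z) '' (polys κ X : Set 𝕂)))
    (hmax : ∀ (t : ℕ) (P : Fin t → Fin H → 𝕂), LinearIndependent 𝕂 P →
      (∀ l i, P l i ∈ polys κ X) →
      t * famRank 𝕂 G ≤ H * famRank 𝕂 (fun l => ∑ j, P l j • G j))
    (C : ℝ)
    (hC : ∀ (w : Fin (famRank 𝕂 G) → Fin H → 𝕂) (a : ι → Fin (famRank 𝕂 G) → ℝ) (ε : ι → ℝ),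
      (∀ j l, w j l ∈ O) → (∀ i j l, v i (w j l) ≤ a i j) →
      LinearIndependent 𝕂 (fun j => ∑ l, w j l • G l) →
      (∀ (i : V) j, ‖(∑ l, w j l • G l) i‖ ≤ ε i * a i j) →
      1 ≤ C * (∏ i ∈ V, ε i) * ∏ i, ∏ j, a i j) (m : ℕ)
    (hm : ∀ l (i : V), x i ^ m * ‖G l i‖ ≤ 1) (n : ℕ) :
    ∃ k : ℕ, H * k ≤ famRank 𝕂 G * n ∧
      1 ≤ C * (∏ i ∈ V, (x i ^ n * (x i ^ m)⁻¹)) * τ ^ (k + famRank 𝕂 G) := by
  classical
  obtain ⟨g, hg, hgn⟩ := slope_approx hX hp hΩ hV G hG m hm n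
  obtain ⟨i₀, hi₀⟩ := hV
  obtain ⟨ρ, hρH, hρP, hρs⟩ := exists_rank hX (hp.mval i₀) (hp.lt_one i₀) hd hy g hg n
  set A : ℕ → Set (∀ i : V, Ω i) :=
    fun M => (fun P : Fin H → 𝕂 => ∑ j, P j • G j) '' padeW κ X (v i₀) (x i₀) g n M with hA
  have hAmono : Monotone A := fun M M' h => Set.image_mono (slope_padeW_mono g n h)
  have hAsub : ∀ M, A M ⊆ Submodule.span 𝕂 (Set.range G) := by
    rintro M _ ⟨P, -, rfl⟩
    exact Submodule.sum_mem _ fun i _ => Submodule.smul_mem _ _ (Submodule.subset_span ⟨i, rfl⟩)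
  have hfinS : FiniteDimensional 𝕂 (Submodule.span 𝕂 (Set.range G)) :=
    FiniteDimensional.span_of_finite 𝕂 (Set.finite_range G)
  have hle : ∀ M, Submodule.span 𝕂 (A M) ≤ Submodule.span 𝕂 (Set.range G) := fun M =>
    Submodule.span_le.mpr (hAsub M)
  have hfin : ∀ M, FiniteDimensional 𝕂 (Submodule.span 𝕂 (A M)) := fun M =>
    Submodule.finiteDimensional_of_le (hle M)
  set r : ℕ → ℕ := fun M => finrank 𝕂 (Submodule.span 𝕂 (A M)) with hr
  have hds : ∀ M, r M ≤ famRank 𝕂 G := fun M => Submodule.finrank_mono (hle M)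
  have hρd : ∀ M, ρ M * famRank 𝕂 G ≤ H * r M := by
    intro M
    obtain ⟨P, hPli, hPmem⟩ := hρP M
    refine (hmax _ P hPli fun l i => ?_).trans (Nat.mul_le_mul_left _ ?_)
    · exact polysIn_le _ ((hPmem l).1 i)
    · refine Submodule.finrank_mono (Submodule.span_mono ?_)
      rintro _ ⟨l, rfl⟩
      exact ⟨P l, hPmem l, rfl⟩
  obtain ⟨M, hM⟩ : ∃ M, ρ M = H := by
    by_contra hcon
    push Not at hcon
    have h1 : ∀ M, ρ M ≤ H - 1 := fun M => by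
      have := hρH M
      have := hcon M
      omega
    have h2 := hρs (n + 1)
    have h3 : ∑ i ∈ Finset.range (n + 1), ρ i ≤ (n + 1) * (H - 1) := by
      calc ∑ i ∈ Finset.range (n + 1), ρ i ≤ ∑ _i ∈ Finset.range (n + 1), (H - 1) :=
            Finset.sum_le_sum fun i _ => h1 i
        _ = (n + 1) * (H - 1) := by simp
    have h4 : H * (n + 1) = (n + 1) * (H - 1) + (n + 1) := by
      obtain ⟨k, rfl⟩ := Nat.exists_eq_add_of_lt hH
      simp; ring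
    omega
  have hdM : r M = famRank 𝕂 G := by
    apply le_antisymm (hds M)
    have := hρd M
    rw [hM] at this
    exact Nat.le_of_mul_le_mul_left this hH
  have hch := Auto.chain_basis A hAmono hfin M
  have hdM' : finrank 𝕂 (Submodule.span 𝕂 (A M)) = famRank 𝕂 G := hdM
  rw [hdM'] at hch
  obtain ⟨w, μ, hwli, hwA, hsum⟩ := hch
  -- the bound for the sum of the degrees
  have hbound : H * ∑ j, μ j ≤ famRank 𝕂 G * n := by
    have h1 : famRank 𝕂 G * ∑ i ∈ Finset.range M, ρ i ≤ H * ∑ i ∈ Finset.range M, r i := by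
      rw [Finset.mul_sum, Finset.mul_sum]
      exact Finset.sum_le_sum fun i _ => by rw [mul_comm]; exact hρd i
    have h2 : famRank 𝕂 G * (H * M) ≤
        famRank 𝕂 G * (n + ∑ i ∈ Finset.range M, ρ i) := Nat.mul_le_mul_left _ (hρs M)
    have h3 : H * (∑ j, μ j + ∑ i ∈ Finset.range M, r i) = H * (M * famRank 𝕂 G) := by
      rw [hsum]
    rw [mul_add] at h2 h3
    have h4 : H * (M * famRank 𝕂 G) = famRank 𝕂 G * (H * M) := by ring
    omega
  refine ⟨∑ j, μ j, hbound, ?_⟩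
  choose P hPmem hPv using hwA
  have hden : ∀ j, ∃ D : κ, D ≠ 0 ∧ ∀ i, algebraMap κ 𝕂 D * T (μ j) * P j i ∈ O := fun j =>
    exists_denom hI (μ j) (P j) (hPmem j).1
  choose D hD0 hDO using hden
  have hcoef : ∀ j, algebraMap κ 𝕂 (D j) * T (μ j) ≠ 0 := fun j =>
    mul_ne_zero (by simpa using hD0 j) (hI.T_ne _)
  have hval : ∀ j, ∑ i, (algebraMap κ 𝕂 (D j) * T (μ j) * P j i) • G i =
      (algebraMap κ 𝕂 (D j) * T (μ j)) • w j := by
    intro j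
    rw [← hPv j, Finset.smul_sum]
    refine Finset.sum_congr rfl fun i _ => ?_
    rw [mul_smul]
  have hvD : ∀ i j, v i (algebraMap κ 𝕂 (D j) * T (μ j)) = v i (T (μ j)) := by
    intro i j
    rw [map_mul, (hp.mval i).const _ (hD0 j), one_mul]
  have hPle : ∀ i j l, v i (P j l) ≤ 1 := fun i j l =>
    hp.le_one (slope_polysIn_mono (fun t ht => ht.1) ((hPmem j).1 l)) i
  have hfinal := hC (fun j i => algebraMap κ 𝕂 (D j) * T (μ j) * P j i)
    (fun i j => v i (T (μ j))) (fun i => x i ^ n * (x i ^ m)⁻¹)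
    (fun j i => hDO j i)
    (fun i j l => by
      rw [map_mul, hvD]
      exact mul_le_of_le_one_right ((v i).nonneg _) (hPle i j l))
    (by
      have h1 : (fun j => ∑ i, (algebraMap κ 𝕂 (D j) * T (μ j) * P j i) • G i) =
          (fun j => (Units.mk0 _ (hcoef j)) • w j) := by
        funext j
        exact hval j
      rw [h1]
      exact hwli.units_smul _)
    (fun i j => by
      have h1 := hval j
      rw [h1, Pi.smul_apply, Algebra.smul_def, norm_mul, hΩ, hvD, mul_comm]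
      refine mul_le_mul_of_nonneg_right ?_ ((v i).nonneg _)
      rw [← hPv j]
      exact slope_form_le hX hp hΩ G m n g hg hgn i₀ (hPmem j) i)
  have hprod : ∏ i, ∏ j, v i (T (μ j)) = τ ^ (∑ j, μ j + famRank 𝕂 G) := by
    have h1 : ∑ j : Fin (famRank 𝕂 G), (μ j + 1) = ∑ j, μ j + famRank 𝕂 G := by
      rw [Finset.sum_add_distrib]; simp
    rw [Finset.prod_comm, ← h1, ← Finset.prod_pow_eq_pow_sum]
    exact Finset.prod_congr rfl fun j _ => hp.tau (μ j)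
  rw [hprod] at hfinal
  exact hfinal

/-- The slope inequality for a family of maximal slope. -/
theorem slope_of_max (hX : Mono κ X) (hI : IntData κ X O T) (hp : Fam κ X O T v x τ)
    (hd : MVal κ X d y) (hy : 1 < y) (hΩ : ∀ i z, ‖algebraMap 𝕂 (Ω i) z‖ = v i z)
    (hV : V.Nonempty) {H : ℕ} (hH : 0 < H) (G : Fin H → ∀ i : V, Ω i)
    (hG : ∀ l, G l ∈ closure ((fun z (i : V) => algebraMap 𝕂 (Ω i) z) '' (polys κ X : Set 𝕂)))
    (hne : ∀ l i, G l i ≠ 0)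
    (hmax : ∀ (t : ℕ) (P : Fin t → Fin H → 𝕂), LinearIndependent 𝕂 P →
      (∀ l i, P l i ∈ polys κ X) →
      t * famRank 𝕂 G ≤ H * famRank 𝕂 (fun l => ∑ j, P l j • G j)) :
    (H : ℝ) * ∑ i ∈ V, Real.log (1 / x i) ≤ famRank 𝕂 G * Real.log τ := by
  classical
  have hx0 : ∀ i, 0 < x i := fun i => (hp.mval i).pos
  have hx1 : ∀ i, x i < 1 := hp.lt_one
  have hτ1 : 1 ≤ τ := hp.one_le_tau hI
  have hτ0 : 0 < τ := lt_of_lt_of_le one_pos hτ1
  obtain ⟨C, hC0, hC⟩ := det_bound v (fun i => (hp.mval i).nonarch) hΩ O hI.frac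
    hp.liouville V hV G (fun i => ⟨⟨0, hH⟩, hne _ i⟩) (s := famRank 𝕂 G) rfl
  -- a common bound for the `G l i`
  obtain ⟨m, hm⟩ : ∃ m : ℕ, ∀ l (i : V), x i ^ m * ‖G l i‖ ≤ 1 := by
    have h1 : ∀ l (i : V), ∃ m : ℕ, ∀ m', m ≤ m' → x i ^ m' * ‖G l i‖ ≤ 1 := by
      intro l i
      have hG0 : 0 < ‖G l i‖ := norm_pos_iff.mpr (hne l i)
      obtain ⟨m, hm⟩ := exists_pow_lt_of_lt_one (show (0 : ℝ) < 1 / ‖G l i‖ by positivity) (hx1 i)
      refine ⟨m, fun m' hmm' => ?_⟩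
      have h2 : x i ^ m' ≤ x i ^ m := pow_le_pow_of_le_one (hx0 i).le (hx1 i).le hmm'
      rw [lt_div_iff₀ hG0] at hm
      exact (mul_le_mul_of_nonneg_right h2 hG0.le).trans hm.le
    choose M hM using h1
    refine ⟨Finset.univ.sup fun l => Finset.univ.sup fun i => M l i, fun l i => hM l i _ ?_⟩
    exact (Finset.le_sup (f := fun i => M l i) (Finset.mem_univ i)).trans
      (Finset.le_sup (f := fun l => Finset.univ.sup fun i => M l i) (Finset.mem_univ l))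
  by_contra hcon
  push Not at hcon
  set x' : ℝ := ∏ i ∈ V, x i with hx'
  have hx'0 : 0 < x' := Finset.prod_pos fun i _ => hx0 i
  have hlogx : ∑ i ∈ V, Real.log (1 / x i) = -Real.log x' := by
    rw [hx', Real.log_prod (fun i _ => (hx0 i).ne'), ← Finset.sum_neg_distrib]
    refine Finset.sum_congr rfl fun i _ => ?_
    rw [one_div, Real.log_inv]
  rw [hlogx] at hcon
  set r : ℝ := x' ^ H * τ ^ famRank 𝕂 G with hr
  have hr0 : 0 < r := by rw [hr]; positivity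
  have hr1 : r < 1 := by
    rw [← Real.log_neg_iff hr0, hr, Real.log_mul (by positivity) (by positivity), Real.log_pow,
      Real.log_pow]
    linarith
  set C' : ℝ := C * (x' ^ m)⁻¹ * τ ^ famRank 𝕂 G with hC'
  have hC'0 : 0 < C' := by rw [hC']; positivity
  obtain ⟨n, hn⟩ := exists_pow_lt_of_lt_one (show (0 : ℝ) < 1 / C' ^ H by positivity) hr1
  obtain ⟨k, hk, h1⟩ := slope_step hX hI hp hd hy hΩ hV hH G hG hmax C
    (fun w a ε h1 h2 h3 h4 => hC w a ε h1 h2 h3 h4) m hm n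
  have hxprod : ∏ i ∈ V, (x i ^ n * (x i ^ m)⁻¹) = x' ^ n * (x' ^ m)⁻¹ := by
    rw [Finset.prod_mul_distrib, Finset.prod_inv_distrib, Finset.prod_pow, Finset.prod_pow]
  rw [hxprod] at h1
  have h1' : 1 ≤ C' * x' ^ n * τ ^ k := by
    refine h1.trans (le_of_eq ?_)
    rw [hC', pow_add]
    ring
  have h2 : 1 ≤ (C' * x' ^ n * τ ^ k) ^ H := one_le_pow₀ h1'
  have h3 : (C' * x' ^ n * τ ^ k) ^ H ≤ C' ^ H * r ^ n := by
    have h4 : (C' * x' ^ n * τ ^ k) ^ H = C' ^ H * ((x' ^ H) ^ n * τ ^ (H * k)) := by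
      rw [mul_pow, mul_pow, ← pow_mul, ← pow_mul, ← pow_mul, mul_comm n H, mul_comm k H, mul_assoc]
    have h5 : r ^ n = (x' ^ H) ^ n * τ ^ (famRank 𝕂 G * n) := by
      rw [hr, mul_pow, ← pow_mul τ]
    rw [h4, h5]
    refine mul_le_mul_of_nonneg_left (mul_le_mul_of_nonneg_left ?_ (by positivity)) (by positivity)
    exact pow_le_pow_right₀ hτ1 hk
  have h6 : C' ^ H * r ^ n < 1 := by
    rw [lt_div_iff₀ (by positivity)] at hn
    rw [mul_comm]; exact hn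
  linarith

end Pool.Agent.Lib.MP_b27257_nt
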