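import Pool.Agent.Lib.MP_b27257_nt.Slope
import Pool.Agent.Lib.MP_d0d59f_nt.LinSlope2

/-!
The slope inequality for all families, for a set `V` of places.
-/

namespace Pool.Agent.Lib.MP_b27257_nt

open Module Filter Topology Pool.Agent.Lib.MP_d0d59f_nt Pool.Agent.Lib.MP_d0d59f_nt.Lin

variable {κ 𝕂 : Type} [Field κ] [Field 𝕂] [Algebra κ 𝕂] {X : ℝ → 𝕂} {O : Subring 𝕂} {T : ℕ → 𝕂}
  {ι : Type} [Fintype ι] [DecidableEq ι] {v : ι → AbsoluteValue 𝕂 ℝ} {x : ι → ℝ} {τ : ℝ}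
  {d : AbsoluteValue 𝕂 ℝ} {y : ℝ}
  {Ω : ι → Type} [∀ i, NormedField (Ω i)] [∀ i, IsUltrametricDist (Ω i)] [∀ i, Algebra 𝕂 (Ω i)]
  {V : Finset ι}

theorem sl2_mul_mem (hX : Mono κ X) {a : 𝕂} (ha : a ∈ polys κ X) {z : ∀ i : V, Ω i}
    (hz : z ∈ closure ((fun z (i : V) => algebraMap 𝕂 (Ω i) z) '' (polys κ X : Set 𝕂))) :
    a • z ∈ closure ((fun z (i : V) => algebraMap 𝕂 (Ω i) z) '' (polys κ X : Set 𝕂)) := by
  have h : a • z = fun i : V => algebraMap 𝕂 (Ω i) a * z i := by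
    funext i
    rw [Pi.smul_apply, Algebra.smul_def]
  rw [h]
  refine map_mem_closure (f := fun (w : ∀ i : V, Ω i) (i : V) => algebraMap 𝕂 (Ω i) a * w i)
    (continuous_pi fun i => continuous_const.mul (continuous_apply i)) hz ?_
  rintro _ ⟨b, hb, rfl⟩
  exact ⟨a * b, mul_mem_polys hX ha hb, funext fun i => map_mul _ _ _⟩

theorem sl2_sum_mem {J : Type} (S : Finset J) (f : J → ∀ i : V, Ω i)
    (hf : ∀ i ∈ S, f i ∈ closure ((fun z (i : V) => algebraMap 𝕂 (Ω i) z) '' (polys κ X : Set 𝕂))) :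
    ∑ i ∈ S, f i ∈ closure ((fun z (i : V) => algebraMap 𝕂 (Ω i) z) '' (polys κ X : Set 𝕂)) := by
  let Z : AddSubgroup (∀ i : V, Ω i) := (polys κ X).toAddSubgroup.map
    (Pi.ringHom fun i : V => algebraMap 𝕂 (Ω i)).toAddMonoidHom
  have hZ : (Z.topologicalClosure : Set (∀ i : V, Ω i))
      = closure ((fun z (i : V) => algebraMap 𝕂 (Ω i) z) '' (polys κ X : Set 𝕂)) := rfl
  have h := Z.topologicalClosure.sum_mem (t := S) (f := f) (fun i hi => by
    have := hf i hi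
    rw [← hZ] at this
    exact this)
  rw [← hZ]
  exact h

theorem famRank_le {M : Type} [AddCommGroup M] [Module 𝕂 M] {H : ℕ} (G : Fin H → M) :
    famRank 𝕂 G ≤ H := by
  unfold famRank
  have h := finrank_range_le_card (R := 𝕂) G
  rwa [Fintype.card_fin] at h

theorem famRank_pos {M : Type} [AddCommGroup M] [Module 𝕂 M] {H : ℕ} (G : Fin H → M) (i : Fin H)
    (hi : G i ≠ 0) : 0 < famRank 𝕂 G := by
  unfold famRank
  rw [Nat.pos_iff_ne_zero]
  intro h
  have hfin : Module.Finite 𝕂 (Submodule.span 𝕂 (Set.range G)) :=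
    FiniteDimensional.span_of_finite 𝕂 (Set.finite_range _)
  have h1 := Submodule.finrank_eq_zero.1 h
  have h2 : G i ∈ Submodule.span 𝕂 (Set.range G) := Submodule.subset_span ⟨i, rfl⟩
  rw [h1, Submodule.mem_bot] at h2
  exact hi h2

/-- the form with coefficients `P`, evaluated at `G` -/
theorem sl2_comp {M : Type} [AddCommGroup M] [Module 𝕂 M] {H t : ℕ} (G : Fin H → M)
    (P : Fin t → Fin H → 𝕂) (Q : Fin t → 𝕂) :
    ∑ l, Q l • ∑ i, P l i • G i = ∑ i, (∑ l, Q l • P l) i • G i := by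
  simp only [Finset.sum_apply, Pi.smul_apply, smul_eq_mul, Finset.smul_sum, Finset.sum_smul,
    smul_smul]
  rw [Finset.sum_comm]

theorem sl2_single {M : Type} [AddCommGroup M] [Module 𝕂 M] {H : ℕ} (G : Fin H → M) (l : Fin H) :
    ∑ i, (Pi.single l 1 : Fin H → 𝕂) i • G i = G l := by
  classical
  rw [Finset.sum_eq_single l]
  · rw [Pi.single_eq_same, one_smul]
  · intro i _ hi
    rw [Pi.single_eq_of_ne hi, zero_smul]
  · intro h
    exact absurd (Finset.mem_univ l) h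

/-- The slope inequality: elements of the closure of the polynomials which are linearly independent
over the polynomials, at every place, span a large space over `𝕂`. -/
theorem slope (hX : Mono κ X) (hI : IntData κ X O T) (hp : Fam κ X O T v x τ)
    (hd : MVal κ X d y) (hy : 1 < y) (hΩ : ∀ i z, ‖algebraMap 𝕂 (Ω i) z‖ = v i z)
    (hV : V.Nonempty) {H : ℕ} (G : Fin H → ∀ i : V, Ω i)
    (hG : ∀ l, G l ∈ closure ((fun z (i : V) => algebraMap 𝕂 (Ω i) z) '' (polys κ X : Set 𝕂)))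
    (hind : ∀ P : Fin H → 𝕂, (∀ l, P l ∈ polys κ X) →
      ∀ i : V, (∑ l, P l • G l) i = 0 → P = 0) :
    (H : ℝ) * ∑ i ∈ V, Real.log (1 / x i) ≤ famRank 𝕂 G * Real.log τ := by
  classical
  have hτ1 : 1 ≤ τ := hp.one_le_tau hI
  obtain ⟨i₀, hi₀⟩ := hV
  have hV : V.Nonempty := ⟨i₀, hi₀⟩
  rcases Nat.eq_zero_or_pos H with hH | hH
  · subst hH
    have h0 : famRank 𝕂 G = 0 := Nat.le_zero.1 (famRank_le G)
    rw [h0]
    simp
  -- the finite set of pairs
  let S : Set (ℕ × ℕ) := {q | 1 ≤ q.1 ∧ ∃ P : Fin q.1 → Fin H → 𝕂,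
    LinearIndependent 𝕂 P ∧ (∀ l i, P l i ∈ polys κ X) ∧
      q.2 = famRank 𝕂 (fun l => ∑ i, P l i • G i)}
  have hle : ∀ (t : ℕ) (P : Fin t → Fin H → 𝕂), LinearIndependent 𝕂 P → t ≤ H := by
    intro t P hP
    have h := hP.fintype_card_le_finrank
    rwa [Fintype.card_fin, Module.finrank_fin_fun] at h
  have hval : ∀ (t : ℕ) (P : Fin t → Fin H → 𝕂),
      LinearIndependent 𝕂 P → (∀ l i, P l i ∈ polys κ X) → ∀ l (i : V),
      (∑ j, P l j • G j) i ≠ 0 := by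
    intro t P hP hPp l i h
    exact hP.ne_zero l (hind (P l) (hPp _) i h)
  have hpos : ∀ (t : ℕ) (P : Fin t → Fin H → 𝕂), 1 ≤ t →
      LinearIndependent 𝕂 P → (∀ l i, P l i ∈ polys κ X) →
      0 < famRank 𝕂 (fun l => ∑ i, P l i • G i) := by
    intro t P ht hP hPp
    refine famRank_pos (fun l => ∑ i, P l i • G i) ⟨0, ht⟩ ?_
    intro h
    exact hval t P hP hPp ⟨0, ht⟩ ⟨i₀, hi₀⟩ (congrFun h _)
  have hSfin : S.Finite := by
    refine Set.Finite.subset ((Set.finite_Iic H).prod (Set.finite_Iic H)) ?_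
    rintro ⟨t, s⟩ ⟨_, P, hP, _, hs⟩
    refine ⟨hle t P hP, ?_⟩
    change s = famRank 𝕂 (fun l => ∑ i, P l i • G i) at hs
    change s ≤ H
    rw [hs]
    exact (famRank_le _).trans (hle t P hP)
  have hsingle : LinearIndependent 𝕂
      (fun l : Fin H => (Pi.single l 1 : Fin H → 𝕂)) :=
    Pi.linearIndependent_single_one (Fin H) 𝕂
  have hsinglep : ∀ l i : Fin H, (Pi.single l 1 : Fin H → 𝕂) i ∈ polys κ X := by
    intro l i
    by_cases h : i = l
    · subst h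
      rw [Pi.single_eq_same]
      exact one_mem_polys hX
    · rw [Pi.single_eq_of_ne h]
      exact (polys κ X).zero_mem
  have hmem : (H, famRank 𝕂 G) ∈ S := by
    refine ⟨hH, fun l => Pi.single l 1, hsingle, hsinglep, ?_⟩
    change famRank 𝕂 G = famRank 𝕂 (fun l => ∑ i, (Pi.single l 1 : Fin H → 𝕂) i • G i)
    simp only [sl2_single]
  obtain ⟨⟨t, s⟩, ⟨ht, P, hP, hPp, hs⟩, hmax⟩ := Set.exists_max_image S
    (fun q => (q.1 : ℚ) / (q.2 : ℚ)) hSfin ⟨_, hmem⟩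
  change 1 ≤ t at ht
  change s = famRank 𝕂 (fun l => ∑ i, P l i • G i) at hs
  have hs0 : 0 < s := by
    rw [hs]
    exact hpos t P ht hP hPp
  -- comparison of ratios
  have hcmp : ∀ (t' s' : ℕ), (t', s') ∈ S → 0 < s' → t' * s ≤ t * s' := by
    intro t' s' h' hs'
    have h1 := hmax (t', s') h'
    simp only at h1
    rw [div_le_div_iff₀ (by exact_mod_cast hs') (by exact_mod_cast hs0)] at h1
    exact_mod_cast h1
  -- entries of the composition
  have hcompp : ∀ (Q : Fin t → 𝕂), (∀ l, Q l ∈ polys κ X) →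
      ∀ i, (∑ l, Q l • P l) i ∈ polys κ X := by
    intro Q hQ i
    simp only [Finset.sum_apply, Pi.smul_apply, smul_eq_mul]
    exact (polys κ X).sum_mem fun l _ => mul_mem_polys hX (hQ l) (hPp l i)
  -- the family of maximal slope
  have hG'mem : ∀ l, (∑ i, P l i • G i) ∈
      closure ((fun z (i : V) => algebraMap 𝕂 (Ω i) z) '' (polys κ X : Set 𝕂)) := fun l =>
    sl2_sum_mem _ _ fun i _ => sl2_mul_mem hX (hPp l i) (hG i)
  have hmax' : ∀ (t' : ℕ) (Q : Fin t' → Fin t → 𝕂), LinearIndependent 𝕂 Q →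
      (∀ l i, Q l i ∈ polys κ X) →
      t' * famRank 𝕂 (fun l => ∑ i, P l i • G i) ≤
        t * famRank 𝕂 (fun m => ∑ l, Q m l • ∑ i, P l i • G i) := by
    intro t' Q hQ hQp
    rcases Nat.eq_zero_or_pos t' with h0 | h0
    · subst h0
      rw [Nat.zero_mul]
      exact Nat.zero_le _
    have hQP : LinearIndependent 𝕂 (fun l => ∑ k, Q l k • P k) := indep_comp hP hQ
    have hQPp : ∀ m i, (∑ k, Q m k • P k) i ∈ polys κ X := fun m i => hcompp (Q m) (hQp m) i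
    have h4 : famRank 𝕂 (fun m => ∑ l, Q m l • ∑ i, P l i • G i) =
        famRank 𝕂 (fun m => ∑ i, (∑ k, Q m k • P k) i • G i) := by
      congr 1
      funext m
      exact sl2_comp G P (Q m)
    rw [← hs, h4]
    refine hcmp t' _ ⟨h0, fun l => ∑ k, Q l k • P k, hQP, hQPp, rfl⟩ ?_
    exact hpos t' _ h0 hQP hQPp
  have hfinal := slope_of_max hX hI hp hd hy hΩ hV ht
    (fun l => ∑ i, P l i • G i) hG'mem (fun l i => hval t P hP hPp l i) hmax'
  rw [← hs] at hfinal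
  have hlog : 0 ≤ ∑ i ∈ V, Real.log (1 / x i) := by
    refine Finset.sum_nonneg fun i _ => Real.log_nonneg ?_
    have h1 : 0 < x i := (hp.mval i).pos
    rw [le_div_iff₀ h1, one_mul]
    exact (hp.lt_one i).le
  have hG0 : 0 < famRank 𝕂 G := by
    refine famRank_pos G ⟨0, hH⟩ ?_
    intro h
    have h1 : (∑ i, (Pi.single ⟨0, hH⟩ 1 : Fin H → 𝕂) i • G i) ⟨i₀, hi₀⟩ = 0 := by
      rw [sl2_single G ⟨0, hH⟩, h]
      rfl
    have h2 := congrFun (hind (Pi.single ⟨0, hH⟩ 1) (hsinglep _) _ h1) ⟨0, hH⟩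
    rw [Pi.single_eq_same, Pi.zero_apply] at h2
    exact one_ne_zero h2
  have h5 : H * s ≤ t * famRank 𝕂 G := hcmp H _ hmem hG0
  have h6 : ((H : ℝ) * s) ≤ t * famRank 𝕂 G := by exact_mod_cast h5
  have hs1 : (0 : ℝ) < s := by exact_mod_cast hs0
  have hG1 : (0 : ℝ) ≤ famRank 𝕂 G := Nat.cast_nonneg _
  have h7 : (s : ℝ) * ((H : ℝ) * ∑ i ∈ V, Real.log (1 / x i)) ≤
      s * (famRank 𝕂 G * Real.log τ) := by
    calc (s : ℝ) * ((H : ℝ) * ∑ i ∈ V, Real.log (1 / x i))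
        = ((H : ℝ) * s) * ∑ i ∈ V, Real.log (1 / x i) := by ring
      _ ≤ (t * famRank 𝕂 G) * ∑ i ∈ V, Real.log (1 / x i) :=
          mul_le_mul_of_nonneg_right h6 hlog
      _ = famRank 𝕂 G * (t * ∑ i ∈ V, Real.log (1 / x i)) := by ring
      _ ≤ famRank 𝕂 G * (s * Real.log τ) := mul_le_mul_of_nonneg_left hfinal hG1
      _ = s * (famRank 𝕂 G * Real.log τ) := by ring
  exact le_of_mul_le_mul_left h7 hs1

end Pool.Agent.Lib.MP_b27257_nt
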