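import Mathlib

/-!
# The orbit of `x` under `T(x) = ⌈p x / q⌉` as a function of `p`, `q`-adically
-/

set_option autoImplicit false

open Finset

namespace Pool.Agent.Lib.MP_b27257_nt.VaryP

/-- `T(x) = ⌈p x / q⌉` -/
def T (p q x : ℕ) : ℕ := (p * x + q - 1) / q

lemma ceil_diff (q A B : ℕ) (hq : 1 ≤ q) (h : A ≡ B [MOD q]) :
    (q : ℤ) * ((((A + q - 1) / q : ℕ) : ℤ) - (((B + q - 1) / q : ℕ) : ℤ)) = (A : ℤ) - B := by
  have h1 : A + q - 1 ≡ B + q - 1 [MOD q] := by
    have e1 : A + q - 1 = A + (q - 1) := by omega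
    have e2 : B + q - 1 = B + (q - 1) := by omega
    rw [e1, e2]
    exact h.add_right _
  have hA := Nat.div_add_mod (A + q - 1) q
  have hB := Nat.div_add_mod (B + q - 1) q
  have h2 : (A + q - 1) % q = (B + q - 1) % q := h1
  have hA' : (q : ℤ) * (((A + q - 1) / q : ℕ) : ℤ) + (((A + q - 1) % q : ℕ) : ℤ) = (A : ℤ) + q - 1 := by
    have : ((A + q - 1 : ℕ) : ℤ) = (A : ℤ) + q - 1 := by omega
    rw [← this]
    exact_mod_cast hA
  have hB' : (q : ℤ) * (((B + q - 1) / q : ℕ) : ℤ) + (((B + q - 1) % q : ℕ) : ℤ) = (B : ℤ) + q - 1 := by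
    have : ((B + q - 1 : ℕ) : ℤ) = (B : ℤ) + q - 1 := by omega
    rw [← this]
    exact_mod_cast hB
  rw [h2] at hA'
  linarith

/-- the dependence of the `j`-th iterate on `p` -/
lemma diff (q p t x k : ℕ) (hq : 1 ≤ q) (hk : 1 ≤ k) (j : ℕ) (hjk : j + 1 ≤ k) :
    ∃ z : ℤ, (((T (p + q ^ k * t) q)^[j + 1] x : ℕ) : ℤ) = (((T p q)^[j + 1] x : ℕ) : ℤ) +
      (q : ℤ) ^ (k - (j + 1)) * ((t : ℤ) * (p : ℤ) ^ j * x + q * z) := by
  have hq0 : (q : ℤ) ≠ 0 := by
    have : (0 : ℤ) < q := by exact_mod_cast hq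
    exact this.ne'
  have hkk : q ^ k = q * q ^ (k - 1) := by
    rw [← pow_succ']
    congr 1
    omega
  induction j with
  | zero =>
    refine ⟨0, ?_⟩
    simp only [zero_add, Function.iterate_one, pow_zero, mul_one, mul_zero, add_zero]
    have hmod : (p + q ^ k * t) * x ≡ p * x [MOD q] := by
      apply Nat.ModEq.mul_right
      rw [hkk]
      have : p + q * q ^ (k - 1) * t = p + q * (q ^ (k - 1) * t) := by ring
      rw [this]
      exact Nat.ModEq.symm (by simp [Nat.ModEq])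
    have h := ceil_diff q _ _ hq hmod
    unfold T
    have hk2 : (q : ℤ) ^ k = q * (q : ℤ) ^ (k - 1) := by exact_mod_cast hkk
    have h3 : (q : ℤ) * ((((p + q ^ k * t) * x + q - 1) / q : ℕ) : ℤ) =
        q * ((((p * x + q - 1) / q : ℕ) : ℤ) + (q : ℤ) ^ (k - 1) * ((t : ℤ) * x)) := by
      push_cast at h ⊢
      rw [hk2] at h
      linear_combination h
    exact mul_left_cancel₀ hq0 h3
  | succ j ih =>
    obtain ⟨z, hz⟩ := ih (by omega)
    rw [Function.iterate_succ_apply', Function.iterate_succ_apply' (T p q)]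
    set u' := (T (p + q ^ k * t) q)^[j + 1] x with hu'
    set u := (T p q)^[j + 1] x with hu
    have hpw : (q : ℤ) ^ (k - (j + 1)) = q * (q : ℤ) ^ (k - (j + 1 + 1)) := by
      rw [← pow_succ']
      congr 1
      omega
    have hk2 : (q : ℤ) ^ k = q * ((q : ℤ) ^ (k - (j + 1 + 1)) * (q * (q : ℤ) ^ j)) := by
      rw [← pow_succ', ← pow_add, ← pow_succ']
      congr 1
      omega
    have hdvd : ((q : ℕ) : ℤ) ∣ (((p * u : ℕ) : ℤ)) - (((p + q ^ k * t) * u' : ℕ) : ℤ) := by
      push_cast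
      rw [hz, hpw, hk2]
      refine ⟨-((q : ℤ) ^ (k - (j + 1 + 1)) * (q * (q : ℤ) ^ j) * t *
        ((u : ℤ) + q * (q : ℤ) ^ (k - (j + 1 + 1)) * ((t : ℤ) * (p : ℤ) ^ j * x + q * z))
        + p * ((q : ℤ) ^ (k - (j + 1 + 1)) * ((t : ℤ) * (p : ℤ) ^ j * x + q * z))), ?_⟩
      ring
    have hmod : (p + q ^ k * t) * u' ≡ p * u [MOD q] := (Nat.modEq_iff_dvd).2 hdvd
    have h := ceil_diff q _ _ hq hmod
    refine ⟨(p : ℤ) * z + (q : ℤ) ^ j * t * u', ?_⟩
    unfold T
    have h3 : (q : ℤ) * ((((p + q ^ k * t) * u' + q - 1) / q : ℕ) : ℤ) =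
        q * ((((p * u + q - 1) / q : ℕ) : ℤ) + (q : ℤ) ^ (k - (j + 1 + 1)) *
          ((t : ℤ) * (p : ℤ) ^ (j + 1) * x + q * ((p : ℤ) * z + (q : ℤ) ^ j * t * u'))) := by
      have h4 : (q : ℤ) * ((((p + q ^ k * t) * u' + q - 1) / q : ℕ) : ℤ) =
          q * (((p * u + q - 1) / q : ℕ) : ℤ) + (((p : ℤ) + (q : ℤ) ^ k * t) * u' - p * u) := by
        push_cast at h ⊢
        linear_combination h
      rw [h4]
      have h5 : (p : ℤ) * u' = p * u + p * (q * (q : ℤ) ^ (k - (j + 1 + 1)) *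
          ((t : ℤ) * (p : ℤ) ^ j * x + q * z)) := by
        rw [hz, hpw]
        ring
      have h6 : ((p : ℤ) + (q : ℤ) ^ k * t) * u' = (p : ℤ) * u' + (q : ℤ) ^ k * t * u' := by ring
      rw [h6, h5, hk2]
      ring
    exact mul_left_cancel₀ hq0 h3

/-- `T^n(x)` modulo `q ^ l` depends on `p` modulo `q ^ (n + l)` only -/
lemma cong (q p t x n l : ℕ) (hq : 1 ≤ q) (hn : 1 ≤ n) :
    (T (p + q ^ (n + l) * t) q)^[n] x ≡ (T p q)^[n] x [MOD q ^ l] := by
  obtain ⟨j, rfl⟩ : ∃ j, n = j + 1 := ⟨n - 1, by omega⟩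
  obtain ⟨z, hz⟩ := diff q p t x (j + 1 + l) hq (by omega) j (by omega)
  have e : j + 1 + l - (j + 1) = l := by omega
  rw [e] at hz
  apply Nat.ModEq.symm
  rw [Nat.modEq_iff_dvd]
  rw [hz]
  refine ⟨(t : ℤ) * (p : ℤ) ^ j * x + q * z, ?_⟩
  push_cast
  ring

/-- `t ↦ T_{p + q^n t}^n(x) mod q^l` is injective on `t < q^l` -/
lemma inj (q p x n l : ℕ) (hq : 2 ≤ q) (hn : 1 ≤ n) (hp : p.Coprime q) (hx : x.Coprime q)
    {t t' : ℕ} (ht : t < q ^ l) (ht' : t' < q ^ l)
    (h : (T (p + q ^ n * t) q)^[n] x ≡ (T (p + q ^ n * t') q)^[n] x [MOD q ^ l]) : t = t' := by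
  -- it is enough to treat `t < t'`
  wlog hlt : t < t' generalizing t t' with H
  · rcases lt_trichotomy t t' with h1 | h1 | h1
    · exact absurd h1 hlt
    · exact h1
    · exact (H ht' ht h.symm h1).symm
  exfalso
  obtain ⟨j, rfl⟩ : ∃ j, n = j + 1 := ⟨n - 1, by omega⟩
  set d := t' - t with hd
  have hd0 : d ≠ 0 := by omega
  obtain ⟨e, u, hu, hdu⟩ := Nat.exists_eq_pow_mul_and_not_dvd hd0 q (by omega)
  have hq0 : 0 < q := by omega
  have hu0 : u ≠ 0 := by
    rintro rfl
    simp at hu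
  have hel : e < l := by
    by_contra hcon
    push Not at hcon
    have h1 : q ^ l ≤ q ^ e := Nat.pow_le_pow_right hq0 hcon
    have h2 : q ^ e * 1 ≤ q ^ e * u := Nat.mul_le_mul_left _ (Nat.pos_of_ne_zero hu0)
    omega
  set p₁ := p + q ^ (j + 1) * t with hp₁
  have hp₁' : p + q ^ (j + 1) * t' = p₁ + q ^ (j + 1 + e) * u := by
    have e1 : t' = t + d := by omega
    rw [e1, hdu, hp₁, pow_add q (j + 1) e]
    ring
  obtain ⟨z, hz⟩ := diff q p₁ u x (j + 1 + e) (by omega) (by omega) j (by omega)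
  have ee : j + 1 + e - (j + 1) = e := by omega
  rw [ee] at hz
  rw [hp₁', Nat.modEq_iff_dvd, hz] at h
  have h2 : ((q : ℤ)) ^ l ∣ (q : ℤ) ^ e * ((u : ℤ) * (p₁ : ℤ) ^ j * x + q * z) := by
    push_cast at h
    have e3 : (((T p₁ q)^[j + 1] x : ℕ) : ℤ) + (q : ℤ) ^ e * ((u : ℤ) * (p₁ : ℤ) ^ j * x + q * z) -
        (((T p₁ q)^[j + 1] x : ℕ) : ℤ) = (q : ℤ) ^ e * ((u : ℤ) * (p₁ : ℤ) ^ j * x + q * z) := by ring
    rw [e3] at h
    exact h
  have h3 : (q : ℤ) ∣ (u : ℤ) * (p₁ : ℤ) ^ j * x + q * z := by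
    have hl : (q : ℤ) ^ l = (q : ℤ) ^ e * (q : ℤ) ^ (l - e) := by
      rw [← pow_add]
      congr 1
      omega
    rw [hl] at h2
    have h4 := (mul_dvd_mul_iff_left (pow_ne_zero e (by exact_mod_cast hq0.ne' : (q : ℤ) ≠ 0))).1 h2
    exact (dvd_pow_self (q : ℤ) (by omega : l - e ≠ 0)).trans h4
  have h5 : (q : ℤ) ∣ (u : ℤ) * (p₁ : ℤ) ^ j * x := by
    have := dvd_sub h3 (dvd_mul_right (q : ℤ) z)
    simpa using this
  have h6 : q ∣ u * p₁ ^ j * x := by exact_mod_cast h5
  have hcp : p₁.Coprime q := by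
    rw [hp₁, pow_succ']
    have : p + q * q ^ j * t = p + q * (q ^ j * t) := by ring
    rw [this]
    exact (Nat.coprime_add_mul_left_left p q _).2 hp
  have h7 : q ∣ u := by
    have a1 : q.Coprime x := hx.symm
    have a2 : q ∣ u * p₁ ^ j := a1.dvd_of_dvd_mul_right h6
    have a3 : q.Coprime (p₁ ^ j) := (hcp.pow_left j).symm
    exact a3.dvd_of_dvd_mul_right a2
  exact hu h7

/-! ### exponential moments -/

/-- the sum of `g (T^n x mod q^l)` over the lifts of `p` -/
lemma sum_lifts (q p x n l : ℕ) (hq : 2 ≤ q) (hn : 1 ≤ n) (hp : p.Coprime q) (hx : x.Coprime q)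
    (g : ℕ → ℝ) :
    ∑ t ∈ range (q ^ l), g ((T (p + q ^ n * t) q)^[n] x % q ^ l) = ∑ r ∈ range (q ^ l), g r := by
  classical
  have hpos : 0 < q ^ l := by positivity
  have hinj : Set.InjOn (fun t => (T (p + q ^ n * t) q)^[n] x % q ^ l) (range (q ^ l) : Set ℕ) := by
    intro t ht t' ht' h
    rw [mem_coe, mem_range] at ht ht'
    exact inj q p x n l hq hn hp hx ht ht' h
  have himg : (range (q ^ l)).image (fun t => (T (p + q ^ n * t) q)^[n] x % q ^ l) = range (q ^ l) := by
    apply Finset.eq_of_subset_of_card_le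
    · intro s hs
      rw [mem_image] at hs
      obtain ⟨t, _, rfl⟩ := hs
      exact mem_range.2 (Nat.mod_lt _ hpos)
    · rw [Finset.card_image_of_injOn hinj]
  calc ∑ t ∈ range (q ^ l), g ((T (p + q ^ n * t) q)^[n] x % q ^ l)
      = ∑ r ∈ (range (q ^ l)).image (fun t => (T (p + q ^ n * t) q)^[n] x % q ^ l), g r := by
        rw [Finset.sum_image hinj]
    _ = _ := by rw [himg]

/-- splitting a sum over `range (a * b)` -/
lemma sum_range_mul (a b : ℕ) (ha : 0 < a) (f : ℕ → ℝ) :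
    ∑ p ∈ range (a * b), f p = ∑ p ∈ range a, ∑ t ∈ range b, f (p + a * t) := by
  rw [← Finset.sum_product']
  symm
  apply Finset.sum_bij' (fun (x : ℕ × ℕ) _ => x.1 + a * x.2) (fun p _ => (p % a, p / a))
  · rintro ⟨p, t⟩ h
    rw [mem_product, mem_range, mem_range] at h
    rw [mem_range]
    have h1 : a * (t + 1) ≤ a * b := Nat.mul_le_mul_left _ h.2
    have h2 := h.1
    simp only at h2 ⊢
    rw [Nat.mul_succ] at h1
    omega
  · intro p h
    rw [mem_range] at h
    rw [mem_product, mem_range, mem_range]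
    exact ⟨Nat.mod_lt _ ha, Nat.div_lt_of_lt_mul h⟩
  · rintro ⟨p, t⟩ h
    rw [mem_product, mem_range, mem_range] at h
    have h2 := h.1
    simp only at h2
    have e1 : (p + a * t) % a = p := by
      rw [Nat.add_mul_mod_self_left, Nat.mod_eq_of_lt h2]
    have e2 : (p + a * t) / a = t := by
      rw [Nat.add_mul_div_left _ _ ha, Nat.div_eq_of_lt h2, zero_add]
    simp only [e1, e2]
  · intro p _
    exact Nat.mod_add_div p a
  · intro x _
    rfl

/-- the exponential moment, exactly -/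
lemma moment (q x c l : ℕ) (hq : 2 ≤ q) (hc : 1 ≤ c) (hx : x.Coprime q) (g : ℕ → ℝ) (M : ℕ) :
    ∑ p ∈ range (q ^ (c + l * M)), (if p.Coprime q then
        ∏ i ∈ range M, g ((T p q)^[c + l * i] x % q ^ l) else 0) =
      (∑ p ∈ range (q ^ c), if p.Coprime q then (1 : ℝ) else 0) * (∑ r ∈ range (q ^ l), g r) ^ M := by
  induction M with
  | zero => simp
  | succ M ih =>
    have hpw : q ^ (c + l * (M + 1)) = q ^ (c + l * M) * q ^ l := by
      rw [← pow_add]
      congr 1
      ring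
    rw [hpw, sum_range_mul _ _ (by positivity), pow_succ, ← mul_assoc, ← ih, Finset.sum_mul]
    apply Finset.sum_congr rfl
    intro p hp
    have hcop : ∀ t : ℕ, (p + q ^ (c + l * M) * t).Coprime q ↔ p.Coprime q := by
      intro t
      have e1 : q ^ (c + l * M) = q * q ^ (c + l * M - 1) := by
        rw [← pow_succ']
        congr 1
        omega
      rw [e1]
      have : p + q * q ^ (c + l * M - 1) * t = p + q * (q ^ (c + l * M - 1) * t) := by ring
      rw [this]
      exact Nat.coprime_add_mul_left_left p q _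
    by_cases hpc : p.Coprime q
    · have h1 : ∀ t ∈ range (q ^ l), (if (p + q ^ (c + l * M) * t).Coprime q then
          ∏ i ∈ range (M + 1), g ((T (p + q ^ (c + l * M) * t) q)^[c + l * i] x % q ^ l) else 0) =
          (∏ i ∈ range M, g ((T p q)^[c + l * i] x % q ^ l)) *
            g ((T (p + q ^ (c + l * M) * t) q)^[c + l * M] x % q ^ l) := by
        intro t _
        rw [if_pos ((hcop t).2 hpc), Finset.prod_range_succ]
        congr 1
        apply Finset.prod_congr rfl
        intro i hi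
        rw [mem_range] at hi
        have hle : c + l * i + l ≤ c + l * M := by
          have : l * (i + 1) ≤ l * M := Nat.mul_le_mul_left _ hi
          rw [Nat.mul_succ] at this
          omega
        have e2 : q ^ (c + l * M) * t = q ^ (c + l * i + l) * (q ^ (c + l * M - (c + l * i + l)) * t) := by
          rw [← mul_assoc, ← pow_add]
          congr 2
          omega
        rw [e2]
        have h3 := cong q p (q ^ (c + l * M - (c + l * i + l)) * t) x (c + l * i) l (by omega) (by omega)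
        unfold Nat.ModEq at h3
        rw [h3]
      rw [Finset.sum_congr rfl h1, ← Finset.mul_sum, if_pos hpc,
        sum_lifts q p x (c + l * M) l hq (by omega) hpc hx g]
    · rw [if_neg hpc, zero_mul]
      apply Finset.sum_eq_zero
      intro t _
      rw [if_neg]
      intro h
      exact hpc ((hcop t).1 h)

/-- the number of `i < M` with `T^(c + l i) x ≡ r` modulo `q ^ l` -/
def cnt (q x c l r M p : ℕ) : ℕ :=
  ((range M).filter (fun i => (T p q)^[c + l * i] x % q ^ l = r)).card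

lemma units_le (q c : ℕ) :
    (∑ p ∈ range (q ^ c), if p.Coprime q then (1 : ℝ) else 0) ≤ (q : ℝ) ^ c := by
  calc (∑ p ∈ range (q ^ c), if p.Coprime q then (1 : ℝ) else 0) ≤ ∑ p ∈ range (q ^ c), (1 : ℝ) := by
        apply Finset.sum_le_sum
        intro p _
        split_ifs <;> norm_num
    _ = (q : ℝ) ^ c := by simp

lemma exp_moment (q x c l r M : ℕ) (hq : 2 ≤ q) (hc : 1 ≤ c) (hx : x.Coprime q)
    (hr : r < q ^ l) (t : ℝ) (ht : |t| ≤ 1) :
    ∑ p ∈ range (q ^ (c + l * M)), (if p.Coprime q then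
        Real.exp (t * ((cnt q x c l r M p : ℝ) - M / (q : ℝ) ^ l)) else 0) ≤
      (q : ℝ) ^ (c + l * M) * Real.exp (t ^ 2 * M / (q : ℝ) ^ l) := by
  classical
  set Q : ℝ := (q : ℝ) ^ l with hQ
  have hQ0 : 0 < Q := by
    rw [hQ]
    have : (0 : ℝ) < q := by
      have : 0 < q := by omega
      exact_mod_cast this
    positivity
  set g : ℕ → ℝ := fun s => if s = r then Real.exp t else 1 with hg
  have hprod : ∀ p : ℕ, ∏ i ∈ range M, g ((T p q)^[c + l * i] x % q ^ l) =
      Real.exp (t * (cnt q x c l r M p : ℝ)) := by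
    intro p
    simp only [hg]
    rw [Finset.prod_ite, Finset.prod_const, Finset.prod_const, one_pow, mul_one, ← Real.exp_nat_mul]
    congr 1
    unfold cnt
    ring
  have hsum : ∑ s ∈ range (q ^ l), g s = Q - 1 + Real.exp t := by
    have h1 : ∑ s ∈ range (q ^ l), g s = ∑ s ∈ range (q ^ l), (1 + if s = r then (Real.exp t - 1) else 0) := by
      apply Finset.sum_congr rfl
      intro s _
      simp only [hg]
      split_ifs <;> ring
    rw [h1, Finset.sum_add_distrib, Finset.sum_ite_eq' (range (q ^ l)) r, if_pos (mem_range.2 hr)]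
    simp only [Finset.sum_const, Finset.card_range, nsmul_eq_mul, mul_one]
    rw [hQ]
    push_cast
    ring
  have hexp : Real.exp t ≤ 1 + t + t ^ 2 := by
    have h1 := (abs_le.1 (Real.abs_exp_sub_one_sub_id_le ht)).2
    linarith
  have hG : Q - 1 + Real.exp t ≤ Q * Real.exp ((t + t ^ 2) / Q) := by
    have h1 : (t + t ^ 2) / Q + 1 ≤ Real.exp ((t + t ^ 2) / Q) := Real.add_one_le_exp _
    calc Q - 1 + Real.exp t ≤ Q * ((t + t ^ 2) / Q + 1) := by
          rw [mul_add, mul_div_cancel₀ _ hQ0.ne']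
          linarith
      _ ≤ _ := mul_le_mul_of_nonneg_left h1 hQ0.le
  have hQ1 : 1 ≤ Q := by
    rw [hQ]
    apply one_le_pow₀
    have : 1 ≤ q := by omega
    exact_mod_cast this
  have hG0 : 0 ≤ Q - 1 + Real.exp t := by
    have := Real.exp_pos t
    linarith
  have h1 : ∀ p ∈ range (q ^ (c + l * M)), (if p.Coprime q then
        Real.exp (t * ((cnt q x c l r M p : ℝ) - M / Q)) else 0) =
      Real.exp (-(t * M / Q)) * (if p.Coprime q then
        ∏ i ∈ range M, g ((T p q)^[c + l * i] x % q ^ l) else 0) := by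
    intro p _
    split_ifs with h
    · rw [hprod p, ← Real.exp_add]
      congr 1
      ring
    · ring
  rw [Finset.sum_congr rfl h1, ← Finset.mul_sum, moment q x c l hq hc hx g M, hsum]
  have hu := units_le q c
  have hM : (Q - 1 + Real.exp t) ^ M ≤ (Q * Real.exp ((t + t ^ 2) / Q)) ^ M :=
    pow_le_pow_left₀ hG0 hG M
  calc Real.exp (-(t * M / Q)) * ((∑ p ∈ range (q ^ c), if p.Coprime q then (1 : ℝ) else 0) *
        (Q - 1 + Real.exp t) ^ M)
      ≤ Real.exp (-(t * M / Q)) * ((q : ℝ) ^ c * (Q * Real.exp ((t + t ^ 2) / Q)) ^ M) := by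
        apply mul_le_mul_of_nonneg_left _ (Real.exp_pos _).le
        apply mul_le_mul hu hM (by positivity) (by positivity)
    _ = (q : ℝ) ^ c * Q ^ M * (Real.exp (-(t * M / Q)) * (Real.exp ((t + t ^ 2) / Q)) ^ M) := by
        rw [mul_pow]
        ring
    _ = (q : ℝ) ^ c * Q ^ M * Real.exp (t ^ 2 * M / Q) := by
        rw [← Real.exp_nat_mul, ← Real.exp_add]
        congr 2
        field_simp
        ring
    _ = _ := by
        rw [hQ, ← pow_mul, ← pow_add]

/-- **Chernoff bound** for the `p` below `q ^ (c + l M)` -/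
lemma chernoff (q x c l r M : ℕ) (hq : 2 ≤ q) (hl : 1 ≤ l) (hc : 1 ≤ c) (hx : x.Coprime q)
    (hr : r < q ^ l) (ε : ℝ) (hε : 0 < ε) (hε1 : ε ≤ 1) :
    (((range (q ^ (c + l * M))).filter (fun p => p.Coprime q ∧
      ε * M < |(cnt q x c l r M p : ℝ) - M / (q : ℝ) ^ l|)).card : ℝ) ≤
      2 * (q : ℝ) ^ (c + l * M) * Real.exp (-(ε ^ 2 * M / 2)) := by
  classical
  set Q : ℝ := (q : ℝ) ^ l with hQ
  have hqR : (2 : ℝ) ≤ q := by exact_mod_cast hq
  have hQ2 : 2 ≤ Q := by
    calc (2 : ℝ) ≤ q := hqR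
      _ = (q : ℝ) ^ 1 := (pow_one _).symm
      _ ≤ (q : ℝ) ^ l := pow_le_pow_right₀ (by linarith) hl
  have hQ0 : 0 < Q := by linarith
  have hM0 : (0 : ℝ) ≤ M := Nat.cast_nonneg M
  have e1 := exp_moment q x c l r M hq hc hx hr ε (by rw [abs_of_pos hε]; exact hε1)
  have e2 := exp_moment q x c l r M hq hc hx hr (-ε) (by rw [abs_neg, abs_of_pos hε]; exact hε1)
  rw [neg_pow_two] at e2
  rw [← hQ] at e1 e2
  set B := (range (q ^ (c + l * M))).filter (fun p => p.Coprime q ∧
      ε * M < |(cnt q x c l r M p : ℝ) - M / Q|) with hB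
  have hlow : (B.card : ℝ) * Real.exp (ε ^ 2 * M) ≤
      ∑ p ∈ range (q ^ (c + l * M)), (if p.Coprime q then
        Real.exp (ε * ((cnt q x c l r M p : ℝ) - M / Q)) else 0) +
      ∑ p ∈ range (q ^ (c + l * M)), (if p.Coprime q then
        Real.exp (-ε * ((cnt q x c l r M p : ℝ) - M / Q)) else 0) := by
    rw [← Finset.sum_add_distrib, ← nsmul_eq_mul, ← Finset.sum_const]
    calc ∑ p ∈ B, Real.exp (ε ^ 2 * M) ≤ ∑ p ∈ B, ((if p.Coprime q then
          Real.exp (ε * ((cnt q x c l r M p : ℝ) - M / Q)) else 0) +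
          (if p.Coprime q then Real.exp (-ε * ((cnt q x c l r M p : ℝ) - M / Q)) else 0)) := by
          apply Finset.sum_le_sum
          intro p hp
          rw [hB, mem_filter] at hp
          rw [if_pos hp.2.1, if_pos hp.2.1]
          set D := (cnt q x c l r M p : ℝ) - M / Q with hD
          rcases le_or_gt 0 D with h | h
          · have h3 : ε ^ 2 * M ≤ ε * D := by
              have := hp.2.2
              rw [abs_of_nonneg h] at this
              nlinarith
            have h4 := Real.exp_le_exp.2 h3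
            have h5 := Real.exp_pos (-ε * D)
            linarith
          · have h3 : ε ^ 2 * M ≤ -ε * D := by
              have := hp.2.2
              rw [abs_of_neg h] at this
              nlinarith
            have h4 := Real.exp_le_exp.2 h3
            have h5 := Real.exp_pos (ε * D)
            linarith
      _ ≤ _ := by
          apply Finset.sum_le_sum_of_subset_of_nonneg
          · rw [hB]
            exact Finset.filter_subset _ _
          · intro p _ _
            split_ifs <;> positivity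
  have hup : (B.card : ℝ) * Real.exp (ε ^ 2 * M) ≤
      2 * (q : ℝ) ^ (c + l * M) * Real.exp (ε ^ 2 * M / Q) := by
    linarith
  have hexp : Real.exp (ε ^ 2 * M / Q) ≤ Real.exp (ε ^ 2 * M) * Real.exp (-(ε ^ 2 * M / 2)) := by
    rw [← Real.exp_add]
    apply Real.exp_le_exp.2
    have : ε ^ 2 * M / Q ≤ ε ^ 2 * M / 2 := by
      apply div_le_div_of_nonneg_left (by positivity) (by norm_num) hQ2
    linarith
  have hpos := Real.exp_pos (ε ^ 2 * M)
  have h6 : (B.card : ℝ) * Real.exp (ε ^ 2 * M) ≤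
      (2 * (q : ℝ) ^ (c + l * M) * Real.exp (-(ε ^ 2 * M / 2))) * Real.exp (ε ^ 2 * M) := by
    calc (B.card : ℝ) * Real.exp (ε ^ 2 * M) ≤ 2 * (q : ℝ) ^ (c + l * M) * Real.exp (ε ^ 2 * M / Q) := hup
      _ ≤ 2 * (q : ℝ) ^ (c + l * M) * (Real.exp (ε ^ 2 * M) * Real.exp (-(ε ^ 2 * M / 2))) :=
          mul_le_mul_of_nonneg_left hexp (by positivity)
      _ = _ := by ring
  exact le_of_mul_le_mul_right h6 hpos

/-- the `p` whose orbit avoids one class modulo `q` at the times `1, ..., m` -/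
lemma avoid (q x r m : ℕ) (hq : 2 ≤ q) (hx : x.Coprime q) (hr : r < q) :
    (((range (q ^ (m + 1))).filter (fun p => p.Coprime q ∧
      ∀ n, 1 ≤ n → n ≤ m → (T p q)^[n] x % q ≠ r)).card : ℝ) ≤ (q : ℝ) * ((q : ℝ) - 1) ^ m := by
  classical
  set g : ℕ → ℝ := fun s => if s = r then 0 else 1 with hg
  have h := moment q x 1 1 hq le_rfl hx g m
  rw [pow_one, one_mul] at h
  have hsum : ∑ s ∈ range q, g s = (q : ℝ) - 1 := by
    have h1 : ∑ s ∈ range q, g s = ∑ s ∈ range q, (1 - if s = r then (1 : ℝ) else 0) := by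
      apply Finset.sum_congr rfl
      intro s _
      simp only [hg]
      split_ifs <;> ring
    rw [h1, Finset.sum_sub_distrib, Finset.sum_ite_eq' (range q) r, if_pos (mem_range.2 hr)]
    simp
  rw [hsum] at h
  have hq1 : (0 : ℝ) ≤ (q : ℝ) - 1 := by
    have : (2 : ℝ) ≤ q := by exact_mod_cast hq
    linarith
  have hu := units_le q 1
  rw [pow_one, pow_one] at hu
  have hset : (((range (q ^ (m + 1))).filter (fun p => p.Coprime q ∧
      ∀ n, 1 ≤ n → n ≤ m → (T p q)^[n] x % q ≠ r)).card : ℝ) ≤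
      ∑ p ∈ range (q ^ (1 + m)), (if p.Coprime q then
        ∏ i ∈ range m, g ((T p q)^[1 + 1 * i] x % q) else 0) := by
    rw [Finset.card_eq_sum_ones, Nat.cast_sum, Finset.sum_filter, add_comm m 1]
    apply Finset.sum_le_sum
    intro p _
    by_cases hp : p.Coprime q
    · rw [if_pos hp]
      split_ifs with h2
      · have : ∏ i ∈ range m, g ((T p q)^[1 + 1 * i] x % q) = 1 := by
          apply Finset.prod_eq_one
          intro i hi
          rw [mem_range] at hi
          simp only [hg]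
          rw [if_neg (h2.2 (1 + 1 * i) (by omega) (by omega))]
        rw [this]
        simp
      · apply Finset.prod_nonneg
        intro i _
        simp only [hg]
        split_ifs <;> norm_num
    · rw [if_neg (fun h2 => hp h2.1), if_neg hp]
  calc _ ≤ _ := hset
    _ = (∑ p ∈ range q, if p.Coprime q then (1 : ℝ) else 0) * ((q : ℝ) - 1) ^ m := by
        rw [← h]
    _ ≤ (q : ℝ) * ((q : ℝ) - 1) ^ m := mul_le_mul_of_nonneg_right hu (by positivity)

end Pool.Agent.Lib.MP_b27257_nt.VaryP
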