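import Pool.Agent.Lib.MP_b27257_nt.VaryP

/-!
# Almost all numerators `p`: the two counting theorems
-/

set_option autoImplicit false

open Finset

namespace Pool.Agent.Lib.MP_b27257_nt.VaryPParts

open Pool.Agent.Lib.MP_b27257_nt.VaryP

/-- splitting `{1, ..., m}` into classes modulo `l` -/
lemma split (l m : ℕ) (hl : 1 ≤ l) (f : ℕ → ℝ) :
    ∑ n ∈ Icc 1 m, f n = ∑ c ∈ range l, ∑ i ∈ range ((m + l - 1 - c) / l), f (c + 1 + l * i) := by
  rw [Finset.sum_sigma']
  apply Finset.sum_bij' (fun n _ => (⟨(n - 1) % l, (n - 1) / l⟩ : Σ _ : ℕ, ℕ))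
    (fun x _ => x.1 + 1 + l * x.2)
  · intro n hn
    rw [mem_Icc] at hn
    rw [mem_sigma, mem_range, mem_range]
    refine ⟨Nat.mod_lt _ hl, ?_⟩
    simp only
    rw [Nat.lt_iff_add_one_le, Nat.le_div_iff_mul_le hl]
    have := Nat.mod_add_div (n - 1) l
    have e : ((n - 1) / l + 1) * l = l * ((n - 1) / l) + l := by ring
    omega
  · rintro ⟨c, i⟩ h
    rw [mem_sigma, mem_range, mem_range] at h
    simp only at h
    rw [mem_Icc]
    have h2 := h.2
    rw [Nat.lt_iff_add_one_le, Nat.le_div_iff_mul_le hl] at h2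
    have e : (i + 1) * l = l * i + l := by ring
    simp only
    omega
  · intro n hn
    rw [mem_Icc] at hn
    simp only
    have := Nat.mod_add_div (n - 1) l
    omega
  · rintro ⟨c, i⟩ h
    rw [mem_sigma, mem_range, mem_range] at h
    simp only at h
    have e0 : c + 1 + l * i - 1 = c + l * i := by omega
    have e1 : (c + l * i) % l = c := by
      rw [Nat.add_mul_mod_self_left, Nat.mod_eq_of_lt h.1]
    have e2 : (c + l * i) / l = i := by
      rw [Nat.add_mul_div_left _ _ (by omega), Nat.div_eq_of_lt h.1, zero_add]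
    simp only [e0, e1, e2]
  · intro n hn
    rw [mem_Icc] at hn
    simp only
    congr 1
    have := Nat.mod_add_div (n - 1) l
    omega

/-- part 1: a class modulo `q` is avoided -/
theorem part_one (q : ℕ) (hq : 2 ≤ q) (P X : ℕ) (hP : 1 ≤ P) :
    (Nat.card {p : ℕ | p ≤ P ∧ p.Coprime q ∧ ∃ x, 1 ≤ x ∧ x ≤ X ∧ x.Coprime q ∧
      ∃ S ⊂ range q, ∀ n, 1 ≤ n → n ≤ Nat.log q P → (T p q)^[n] x % q ∈ S} : ℝ) ≤
      (q : ℝ) ^ 2 * X * (P : ℝ) ^ (Real.log ((q : ℝ) - 1) / Real.log q) := by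
  classical
  set m := Nat.log q P with hm
  have hqR : (2 : ℝ) ≤ q := by exact_mod_cast hq
  have hlogq : 0 < Real.log q := Real.log_pos (by linarith)
  have hPR : (1 : ℝ) ≤ P := by exact_mod_cast hP
  have hPm : P < q ^ (m + 1) := Nat.lt_pow_succ_log_self (by omega) P
  have hmP : q ^ m ≤ P := Nat.pow_log_le_self q (by omega)
  set B : ℕ → ℕ → Finset ℕ := fun x r => (range (q ^ (m + 1))).filter (fun p => p.Coprime q ∧
      ∀ n, 1 ≤ n → n ≤ m → (T p q)^[n] x % q ≠ r) with hB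
  have hcover : {p : ℕ | p ≤ P ∧ p.Coprime q ∧ ∃ x, 1 ≤ x ∧ x ≤ X ∧ x.Coprime q ∧
      ∃ S ⊂ range q, ∀ n, 1 ≤ n → n ≤ m → (T p q)^[n] x % q ∈ S} ⊆
      (((Icc 1 X).filter (fun x => x.Coprime q)).biUnion (fun x => (range q).biUnion (B x)) : Finset ℕ) := by
    rintro p ⟨hp, hpq, x, hx1, hxX, hxq, S, hS, hav⟩
    obtain ⟨r, hr, hrS⟩ := Finset.exists_of_ssubset hS
    rw [mem_coe, mem_biUnion]
    refine ⟨x, by rw [mem_filter, mem_Icc]; exact ⟨⟨hx1, hxX⟩, hxq⟩, ?_⟩
    rw [mem_biUnion]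
    refine ⟨r, hr, ?_⟩
    simp only [hB, mem_filter, mem_range]
    refine ⟨lt_of_le_of_lt hp hPm, hpq, ?_⟩
    intro n h1 h2 h3
    exact hrS (h3 ▸ hav n h1 h2)
  have hcard : Nat.card {p : ℕ | p ≤ P ∧ p.Coprime q ∧ ∃ x, 1 ≤ x ∧ x ≤ X ∧ x.Coprime q ∧
      ∃ S ⊂ range q, ∀ n, 1 ≤ n → n ≤ m → (T p q)^[n] x % q ∈ S} ≤
      ∑ x ∈ (Icc 1 X).filter (fun x => x.Coprime q), ∑ r ∈ range q, (B x r).card := by
    calc _ ≤ Nat.card ((((Icc 1 X).filter (fun x => x.Coprime q)).biUnion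
            (fun x => (range q).biUnion (B x)) : Finset ℕ) : Set ℕ) :=
          Nat.card_mono (Finset.finite_toSet _) hcover
      _ = (((Icc 1 X).filter (fun x => x.Coprime q)).biUnion
            (fun x => (range q).biUnion (B x))).card := by
          rw [Nat.card_coe_set_eq, Set.ncard_coe_finset]
      _ ≤ ∑ x ∈ (Icc 1 X).filter (fun x => x.Coprime q), ((range q).biUnion (B x)).card :=
          Finset.card_biUnion_le
      _ ≤ _ := Finset.sum_le_sum (fun x _ => Finset.card_biUnion_le)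
  have hcard' : (Nat.card {p : ℕ | p ≤ P ∧ p.Coprime q ∧ ∃ x, 1 ≤ x ∧ x ≤ X ∧ x.Coprime q ∧
      ∃ S ⊂ range q, ∀ n, 1 ≤ n → n ≤ m → (T p q)^[n] x % q ∈ S} : ℝ) ≤
      ∑ x ∈ (Icc 1 X).filter (fun x => x.Coprime q), ∑ r ∈ range q, ((B x r).card : ℝ) := by
    exact_mod_cast hcard
  have hpow : ((q : ℝ) - 1) ^ m ≤ (P : ℝ) ^ (Real.log ((q : ℝ) - 1) / Real.log q) := by
    have hq1 : (0 : ℝ) < (q : ℝ) - 1 := by linarith
    have e1 : ((q : ℝ) - 1) = (q : ℝ) ^ (Real.log ((q : ℝ) - 1) / Real.log q) := by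
      rw [Real.rpow_def_of_pos (by linarith), mul_div_cancel₀ _ hlogq.ne', Real.exp_log hq1]
    have e0 : 0 ≤ Real.log ((q : ℝ) - 1) / Real.log q := by
      apply div_nonneg _ hlogq.le
      apply Real.log_nonneg
      linarith
    calc ((q : ℝ) - 1) ^ m = ((q : ℝ) ^ (Real.log ((q : ℝ) - 1) / Real.log q)) ^ m := by rw [← e1]
      _ = ((q : ℝ) ^ m) ^ (Real.log ((q : ℝ) - 1) / Real.log q) := by
          rw [← Real.rpow_natCast, ← Real.rpow_mul (by linarith), ← Real.rpow_natCast,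
            ← Real.rpow_mul (by linarith), mul_comm]
      _ ≤ (P : ℝ) ^ (Real.log ((q : ℝ) - 1) / Real.log q) := by
          apply Real.rpow_le_rpow (by positivity) _ e0
          exact_mod_cast hmP
  refine hcard'.trans ?_
  have hterm : ∀ x ∈ (Icc 1 X).filter (fun x => x.Coprime q), ∑ r ∈ range q, ((B x r).card : ℝ) ≤
      (q : ℝ) ^ 2 * (P : ℝ) ^ (Real.log ((q : ℝ) - 1) / Real.log q) := by
    intro x hx
    rw [mem_filter] at hx
    calc ∑ r ∈ range q, ((B x r).card : ℝ) ≤ ∑ r ∈ range q, ((q : ℝ) * ((q : ℝ) - 1) ^ m) := by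
          apply Finset.sum_le_sum
          intro r hr
          refine le_trans (le_of_eq ?_) (avoid q x r m hq hx.2 (mem_range.1 hr))
          simp only [hB]
          congr!
      _ = (q : ℝ) ^ 2 * ((q : ℝ) - 1) ^ m := by
          rw [Finset.sum_const, Finset.card_range, nsmul_eq_mul]
          ring
      _ ≤ _ := mul_le_mul_of_nonneg_left hpow (by positivity)
  calc ∑ x ∈ (Icc 1 X).filter (fun x => x.Coprime q), ∑ r ∈ range q, ((B x r).card : ℝ)
      ≤ ∑ x ∈ (Icc 1 X).filter (fun x => x.Coprime q),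
          ((q : ℝ) ^ 2 * (P : ℝ) ^ (Real.log ((q : ℝ) - 1) / Real.log q)) := Finset.sum_le_sum hterm
    _ = (((Icc 1 X).filter (fun x => x.Coprime q)).card : ℝ) *
          ((q : ℝ) ^ 2 * (P : ℝ) ^ (Real.log ((q : ℝ) - 1) / Real.log q)) := by
        rw [Finset.sum_const, nsmul_eq_mul]
    _ ≤ (X : ℝ) * ((q : ℝ) ^ 2 * (P : ℝ) ^ (Real.log ((q : ℝ) - 1) / Real.log q)) := by
        apply mul_le_mul_of_nonneg_right _ (by positivity)
        have : ((Icc 1 X).filter (fun x => x.Coprime q)).card ≤ X := by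
          calc _ ≤ (Icc 1 X).card := Finset.card_filter_le _ _
            _ = X := by simp
        exact_mod_cast this
    _ = _ := by ring

/-- part 2: equidistribution modulo `q ^ l` -/
theorem part_two (q : ℕ) (hq : 2 ≤ q) (l : ℕ) (hl : 1 ≤ l) (ε : ℝ) (hε : 0 < ε) (hε1 : ε ≤ 1)
    (P X : ℕ) (hP : 1 ≤ P) :
    (Nat.card {p : ℕ | p ≤ P ∧ p.Coprime q ∧ ∃ x, 1 ≤ x ∧ x ≤ X ∧ x.Coprime q ∧ ∃ r, r < q ^ l ∧
      ε * Nat.log q P < |((((Icc 1 (Nat.log q P)).filter
        (fun n => (T p q)^[n] x % q ^ l = r)).card : ℝ)) - (Nat.log q P : ℝ) / (q : ℝ) ^ l|} : ℝ) ≤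
      4 * l * (q : ℝ) ^ (2 * l) * X * (P : ℝ) ^ (1 - ε ^ 2 / (2 * l * Real.log q)) := by
  classical
  set m := Nat.log q P with hm
  have hqR : (2 : ℝ) ≤ q := by exact_mod_cast hq
  have hq0 : (0 : ℝ) < q := by linarith
  have hlogq : 0 < Real.log q := Real.log_pos (by linarith)
  have hPR : (1 : ℝ) ≤ P := by exact_mod_cast hP
  have hP0 : (0 : ℝ) < P := by linarith
  have hlR : (1 : ℝ) ≤ l := by exact_mod_cast hl
  have hl0 : (0 : ℝ) < l := by linarith
  have hPm : P < q ^ (m + 1) := Nat.lt_pow_succ_log_self (by omega) P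
  have hmP : q ^ m ≤ P := Nat.pow_log_le_self q (by omega)
  set M : ℕ → ℕ := fun c => (m + l - 1 - c) / l with hM
  set B : ℕ → ℕ → ℕ → Finset ℕ := fun x c r => (range (q ^ (c + 1 + l * M c))).filter (fun p =>
      p.Coprime q ∧ ε * M c < |(cnt q x (c + 1) l r (M c) p : ℝ) - M c / (q : ℝ) ^ l|) with hB
  have hMup : ∀ c, c < l → l * M c ≤ m + l - 1 - c := fun c _ => Nat.mul_div_le _ _
  have hMlow : ∀ c, c < l → m + 1 ≤ c + 1 + l * M c := by
    intro c hc
    have h1 := Nat.div_add_mod (m + l - 1 - c) l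
    have h2 := Nat.mod_lt (m + l - 1 - c) (show 0 < l by omega)
    simp only [hM]
    omega
  have hcover : {p : ℕ | p ≤ P ∧ p.Coprime q ∧ ∃ x, 1 ≤ x ∧ x ≤ X ∧ x.Coprime q ∧ ∃ r, r < q ^ l ∧
      ε * m < |((((Icc 1 m).filter
        (fun n => (T p q)^[n] x % q ^ l = r)).card : ℝ)) - (m : ℝ) / (q : ℝ) ^ l|} ⊆
      (((Icc 1 X).filter (fun x => x.Coprime q)).biUnion (fun x => (range l).biUnion
        (fun c => (range (q ^ l)).biUnion (B x c))) : Finset ℕ) := by
    rintro p ⟨hp, hpq, x, hx1, hxX, hxq, r, hr, hdev⟩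
    rw [mem_coe, mem_biUnion]
    refine ⟨x, by rw [mem_filter, mem_Icc]; exact ⟨⟨hx1, hxX⟩, hxq⟩, ?_⟩
    rw [mem_biUnion]
    by_contra hcon
    push Not at hcon
    -- all classes are good
    have hgood : ∀ c ∈ range l, |(cnt q x (c + 1) l r (M c) p : ℝ) - M c / (q : ℝ) ^ l| ≤ ε * M c := by
      intro c hc
      have h1 := hcon c hc
      rw [mem_biUnion] at h1
      push Not at h1
      have h2 := h1 r (mem_range.2 hr)
      by_contra h3
      push Not at h3
      apply h2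
      simp only [hB, mem_filter, mem_range]
      refine ⟨?_, hpq, h3⟩
      calc p ≤ P := hp
        _ < q ^ (m + 1) := hPm
        _ ≤ q ^ (c + 1 + l * M c) := Nat.pow_le_pow_right (by omega) (hMlow c (mem_range.1 hc))
    have hsum1 : (((Icc 1 m).filter (fun n => (T p q)^[n] x % q ^ l = r)).card : ℝ) =
        ∑ c ∈ range l, (cnt q x (c + 1) l r (M c) p : ℝ) := by
      have h1 := split l m hl (fun n => if (T p q)^[n] x % q ^ l = r then (1 : ℝ) else 0)
      rw [Finset.sum_boole] at h1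
      rw [h1]
      apply Finset.sum_congr rfl
      intro c _
      rw [Finset.sum_boole]
      rfl
    have hsum2 : (m : ℝ) = ∑ c ∈ range l, (M c : ℝ) := by
      have h1 := split l m hl (fun _ => (1 : ℝ))
      simpa using h1
    have h4 : |(((Icc 1 m).filter (fun n => (T p q)^[n] x % q ^ l = r)).card : ℝ) -
        (m : ℝ) / (q : ℝ) ^ l| ≤ ε * m := by
      rw [hsum1]
      calc |∑ c ∈ range l, (cnt q x (c + 1) l r (M c) p : ℝ) - (m : ℝ) / (q : ℝ) ^ l|
          = |∑ c ∈ range l, ((cnt q x (c + 1) l r (M c) p : ℝ) - M c / (q : ℝ) ^ l)| := by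
            rw [Finset.sum_sub_distrib, ← Finset.sum_div, ← hsum2]
        _ ≤ ∑ c ∈ range l, |(cnt q x (c + 1) l r (M c) p : ℝ) - M c / (q : ℝ) ^ l| :=
            Finset.abs_sum_le_sum_abs _ _
        _ ≤ ∑ c ∈ range l, ε * M c := Finset.sum_le_sum hgood
        _ = ε * m := by rw [← Finset.mul_sum, ← hsum2]
    linarith
  have hcard : Nat.card {p : ℕ | p ≤ P ∧ p.Coprime q ∧ ∃ x, 1 ≤ x ∧ x ≤ X ∧ x.Coprime q ∧ ∃ r, r < q ^ l ∧
      ε * m < |((((Icc 1 m).filter
        (fun n => (T p q)^[n] x % q ^ l = r)).card : ℝ)) - (m : ℝ) / (q : ℝ) ^ l|} ≤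
      ∑ x ∈ (Icc 1 X).filter (fun x => x.Coprime q), ∑ c ∈ range l, ∑ r ∈ range (q ^ l), (B x c r).card := by
    calc _ ≤ Nat.card ((((Icc 1 X).filter (fun x => x.Coprime q)).biUnion (fun x => (range l).biUnion
        (fun c => (range (q ^ l)).biUnion (B x c))) : Finset ℕ) : Set ℕ) :=
          Nat.card_mono (Finset.finite_toSet _) hcover
      _ = (((Icc 1 X).filter (fun x => x.Coprime q)).biUnion (fun x => (range l).biUnion
        (fun c => (range (q ^ l)).biUnion (B x c)))).card := by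
          rw [Nat.card_coe_set_eq, Set.ncard_coe_finset]
      _ ≤ ∑ x ∈ (Icc 1 X).filter (fun x => x.Coprime q), ((range l).biUnion
        (fun c => (range (q ^ l)).biUnion (B x c))).card := Finset.card_biUnion_le
      _ ≤ ∑ x ∈ (Icc 1 X).filter (fun x => x.Coprime q), ∑ c ∈ range l,
            ((range (q ^ l)).biUnion (B x c)).card :=
          Finset.sum_le_sum (fun x _ => Finset.card_biUnion_le)
      _ ≤ _ := Finset.sum_le_sum (fun x _ => Finset.sum_le_sum (fun c _ => Finset.card_biUnion_le))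
  have hcard' : (Nat.card {p : ℕ | p ≤ P ∧ p.Coprime q ∧ ∃ x, 1 ≤ x ∧ x ≤ X ∧ x.Coprime q ∧ ∃ r, r < q ^ l ∧
      ε * m < |((((Icc 1 m).filter
        (fun n => (T p q)^[n] x % q ^ l = r)).card : ℝ)) - (m : ℝ) / (q : ℝ) ^ l|} : ℝ) ≤
      ∑ x ∈ (Icc 1 X).filter (fun x => x.Coprime q), ∑ c ∈ range l, ∑ r ∈ range (q ^ l),
        ((B x c r).card : ℝ) := by exact_mod_cast hcard
  refine hcard'.trans ?_
  set θ := ε ^ 2 / (2 * l * Real.log q) with hθ
  -- the bound for each set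
  have hB1 : ∀ x c r : ℕ, x.Coprime q → c < l → r < q ^ l →
      ((B x c r).card : ℝ) ≤ 4 * (q : ℝ) ^ l * (P : ℝ) ^ (1 - θ) := by
    intro x c r hx hc hr
    have h1 := chernoff q x (c + 1) l r (M c) hq hl (by omega) hx hr ε hε hε1
    refine (show ((B x c r).card : ℝ) ≤ _ from h1).trans ?_
    have h2 : (q : ℝ) ^ (c + 1 + l * M c) ≤ P * (q : ℝ) ^ l := by
      have e1 : c + 1 + l * M c ≤ m + l := by
        have := hMup c hc
        omega
      calc (q : ℝ) ^ (c + 1 + l * M c) ≤ (q : ℝ) ^ (m + l) := pow_le_pow_right₀ (by linarith) e1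
        _ = (q : ℝ) ^ m * (q : ℝ) ^ l := pow_add _ _ _
        _ ≤ P * (q : ℝ) ^ l := by
            apply mul_le_mul_of_nonneg_right _ (by positivity)
            exact_mod_cast hmP
    have hMR : ((m : ℝ) + 1) / l - 1 ≤ M c := by
      have e1 : m + 1 ≤ l * M c + l := by
        have := hMlow c hc
        omega
      have e2 : (m : ℝ) + 1 ≤ l * M c + l := by exact_mod_cast e1
      rw [sub_le_iff_le_add, div_le_iff₀ hl0]
      linarith
    have hmlog : Real.log P / Real.log q ≤ (m : ℝ) + 1 := by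
      rw [div_le_iff₀ hlogq]
      have e1 : (P : ℝ) ≤ (q : ℝ) ^ (m + 1) := by exact_mod_cast hPm.le
      have e2 := Real.log_le_log hP0 e1
      rw [Real.log_pow] at e2
      push_cast at e2
      exact e2
    have hexp : Real.exp (-(ε ^ 2 * M c / 2)) ≤ 2 * (P : ℝ) ^ (-θ) := by
      have e1 : -(ε ^ 2 * M c / 2) ≤ 1 / 2 + Real.log P * (-θ) := by
        have e2 : Real.log P * θ = ε ^ 2 / 2 * ((Real.log P / Real.log q) / l) := by
          rw [hθ]
          field_simp
        have e3 : (Real.log P / Real.log q) / l ≤ ((m : ℝ) + 1) / l := by gcongr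
        have e4 : ε ^ 2 / 2 * ((Real.log P / Real.log q) / l) ≤ ε ^ 2 / 2 * (M c + 1) := by
          apply mul_le_mul_of_nonneg_left _ (by positivity)
          linarith
        have e5 : ε ^ 2 ≤ 1 := by nlinarith
        have e6 : Real.log P * (-θ) = -(Real.log P * θ) := by ring
        rw [e6, e2]
        nlinarith
      calc Real.exp (-(ε ^ 2 * M c / 2)) ≤ Real.exp (1 / 2 + Real.log P * (-θ)) := Real.exp_le_exp.2 e1
        _ = Real.exp (1 / 2) * (P : ℝ) ^ (-θ) := by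
            rw [Real.exp_add, Real.rpow_def_of_pos hP0]
        _ ≤ 2 * (P : ℝ) ^ (-θ) := by
            apply mul_le_mul_of_nonneg_right _ (by positivity)
            have e7 : Real.exp (1 / 2) ^ 2 = Real.exp 1 := by
              rw [← Real.exp_nat_mul]
              norm_num
            have e8 := Real.exp_one_lt_d9
            nlinarith [Real.exp_pos (1 / 2 : ℝ)]
    have hPθ : (P : ℝ) * (P : ℝ) ^ (-θ) = (P : ℝ) ^ (1 - θ) := by
      rw [sub_eq_add_neg, Real.rpow_add hP0, Real.rpow_one]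
    calc 2 * (q : ℝ) ^ (c + 1 + l * M c) * Real.exp (-(ε ^ 2 * M c / 2))
        ≤ 2 * (P * (q : ℝ) ^ l) * (2 * (P : ℝ) ^ (-θ)) := by
          apply mul_le_mul _ hexp (Real.exp_pos _).le (by positivity)
          linarith
      _ = 4 * (q : ℝ) ^ l * ((P : ℝ) * (P : ℝ) ^ (-θ)) := by ring
      _ = 4 * (q : ℝ) ^ l * (P : ℝ) ^ (1 - θ) := by rw [hPθ]
  calc ∑ x ∈ (Icc 1 X).filter (fun x => x.Coprime q), ∑ c ∈ range l, ∑ r ∈ range (q ^ l),
        ((B x c r).card : ℝ)
      ≤ ∑ x ∈ (Icc 1 X).filter (fun x => x.Coprime q), ∑ c ∈ range l, ∑ r ∈ range (q ^ l),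
        (4 * (q : ℝ) ^ l * (P : ℝ) ^ (1 - θ)) := by
        apply Finset.sum_le_sum
        intro x hx
        apply Finset.sum_le_sum
        intro c hc
        apply Finset.sum_le_sum
        intro r hr
        exact hB1 x c r (mem_filter.1 hx).2 (mem_range.1 hc) (mem_range.1 hr)
    _ = (((Icc 1 X).filter (fun x => x.Coprime q)).card : ℝ) *
          (l * ((q : ℝ) ^ l * (4 * (q : ℝ) ^ l * (P : ℝ) ^ (1 - θ)))) := by
        simp only [Finset.sum_const, Finset.card_range, nsmul_eq_mul]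
        push_cast
        ring
    _ ≤ (X : ℝ) * (l * ((q : ℝ) ^ l * (4 * (q : ℝ) ^ l * (P : ℝ) ^ (1 - θ)))) := by
        apply mul_le_mul_of_nonneg_right _ (by positivity)
        have : ((Icc 1 X).filter (fun x => x.Coprime q)).card ≤ X := by
          calc _ ≤ (Icc 1 X).card := Finset.card_filter_le _ _
            _ = X := by simp
        exact_mod_cast this
    _ = _ := by
        rw [two_mul l, pow_add]
        ring

end Pool.Agent.Lib.MP_b27257_nt.VaryPParts
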